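import Pool.Agent.Lib_helper64.GY.Orient

set_option autoImplicit false

/-!
# Closing up a graph of maximum degree two to a permutation with long cycles
-/

namespace GY64

open Function

theorem bool_aux : ∀ a b : Bool, a ≠ b → a = !b := by decide

section Close

variable {V : Type} [Finite V] (H : SimpleGraph V)

/-- numbering the two sides of each vertex -/
theorem exists_ports (hH : ∀ v, (H.neighborSet v).ncard ≤ 2) :
    ∃ (port : V → V → Bool) (q : V × Bool → V × Bool), Involutive q ∧
      (∀ v w, H.Adj v w → q (v, port v w) = (w, port w v)) ∧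
      (∀ v w w', H.Adj v w → H.Adj v w' → port v w = port v w' → w = w') ∧
      (∀ x, q x ≠ x → ∃ w, H.Adj x.1 w ∧ port x.1 w = x.2) := by
  classical
  have hport : ∀ v, ∃ f : V → Bool, Set.InjOn f (H.neighborSet v) := by
    intro v
    have : Fintype (H.neighborSet v) := Fintype.ofFinite _
    have hc : Fintype.card (H.neighborSet v) ≤ Fintype.card Bool := by
      rw [Fintype.card_bool, ← Nat.card_eq_fintype_card, Nat.card_coe_set_eq]
      exact hH v
    obtain ⟨g⟩ := Function.Embedding.nonempty_of_card_le hc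
    refine ⟨fun w => if h : w ∈ H.neighborSet v then g ⟨w, h⟩ else false, ?_⟩
    intro w hw w' hw' he
    simp only [dif_pos hw, dif_pos hw'] at he
    exact congrArg Subtype.val (g.injective he)
  choose port hport using hport
  have huniq : ∀ v w w', H.Adj v w → H.Adj v w' → port v w = port v w' → w = w' :=
    fun v w w' h1 h2 h3 => hport v h1 h2 h3
  let q : V × Bool → V × Bool := fun x =>
    if h : ∃ w, H.Adj x.1 w ∧ port x.1 w = x.2 then (h.choose, port h.choose x.1) else x
  have hq : ∀ v w, H.Adj v w → q (v, port v w) = (w, port w v) := by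
    intro v w hvw
    have h : ∃ w', H.Adj v w' ∧ port v w' = port v w := ⟨w, hvw, rfl⟩
    have h1 : q (v, port v w) = (h.choose, port h.choose v) := dif_pos h
    have h2 : h.choose = w := huniq v _ _ h.choose_spec.1 hvw h.choose_spec.2
    rw [h1, h2]
  have hq2 : ∀ x, q x ≠ x → ∃ w, H.Adj x.1 w ∧ port x.1 w = x.2 := by
    intro x hx
    by_contra h
    exact hx (dif_neg h)
  refine ⟨port, q, ?_, hq, huniq, hq2⟩
  rintro ⟨v, i⟩
  by_cases hx : q (v, i) = (v, i)
  · rw [hx, hx]
  · obtain ⟨w, hw, hp⟩ := hq2 _ hx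
    simp only [] at hw hp
    subst hp
    rw [hq v w hw, hq w v hw.symm]

/-- **Closing lemma.** -/
theorem exists_closure (hH : ∀ v, (H.neighborSet v).ncard ≤ 2)
    (hcyc : ∀ c : H.ConnectedComponent, (∀ v ∈ c.supp, (H.neighborSet v).ncard = 2) →
      3 ∣ c.supp.ncard ∨ 482 ≤ c.supp.ncard) :
    ∃ (V' : Type) (_ : Finite V') (σ : Equiv.Perm V') (e : V → V'), Injective e ∧
      (∀ v w, H.Adj v w → e w = σ (e v) ∨ e v = σ (e w)) ∧
      (∀ v w, e w = σ (e v) → H.Adj v w) ∧ (∀ y, σ y ≠ y) ∧
      (∀ y, 3 ∣ minimalPeriod σ y ∨ 482 ≤ minimalPeriod σ y) := by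
  classical
  obtain ⟨port, q, hqq, hq, huniq, hq2⟩ := exists_ports H hH
  let α : V × Bool → V × Bool := fun x => (x.1, !x.2)
  have hα : Involutive α := by rintro ⟨v, i⟩; simp [α]
  have hα1 : ∀ x, α x ≠ x := by
    rintro ⟨v, i⟩ h
    have := (Prod.mk.inj h).2
    cases i <;> simp at this
  obtain ⟨χ, hχ1, hχ2⟩ := two_invol α q hα hqq hα1
  let S : (V × Bool) × Fin 483 → (V × Bool) × Fin 483 := fun y =>
    if y.2.1 = 0 then (if q y.1 = y.1 then (y.1, 1) else (α (q y.1), 0))
    else if h : y.2.1 < 482 then (y.1, ⟨y.2.1 + 1, by omega⟩)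
    else (if q y.1 = y.1 then (α (q y.1), 0) else (y.1, 1))
  have S1 : ∀ x, q x = x → S (x, 0) = (x, 1) := by
    intro x hx
    simp [S, hx]
  have S2 : ∀ x, q x ≠ x → S (x, 0) = (α (q x), 0) := by
    intro x hx
    simp [S, hx]
  have S3 : ∀ x (i : Fin 483) (h0 : i.1 ≠ 0) (h : i.1 < 482),
      S (x, i) = (x, ⟨i.1 + 1, by omega⟩) := by
    intro x i h0 h
    simp only [S, h0, if_false, h, dif_pos]
  have S4 : ∀ x (i : Fin 483), i.1 = 482 → q x = x → S (x, i) = (α (q x), 0) := by
    intro x i h hx
    have h0 : ¬ i.1 = 0 := by omega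
    have h1 : ¬ i.1 < 482 := by omega
    simp only [S]
    rw [if_neg h0, dif_neg h1, if_pos hx]
  have S5 : ∀ x (i : Fin 483), i.1 = 482 → q x ≠ x → S (x, i) = (x, 1) := by
    intro x i h hx
    have h0 : ¬ i.1 = 0 := by omega
    have h1 : ¬ i.1 < 482 := by omega
    simp only [S]
    rw [if_neg h0, dif_neg h1, if_neg hx]
  have hcase : ∀ y : (V × Bool) × Fin 483,
      (y = (y.1, 0) ∧ q y.1 = y.1) ∨ (y = (y.1, 0) ∧ q y.1 ≠ y.1) ∨
      (y.2.1 ≠ 0 ∧ y.2.1 < 482) ∨ (y.2.1 = 482 ∧ q y.1 = y.1) ∨ (y.2.1 = 482 ∧ q y.1 ≠ y.1) := by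
    rintro ⟨x, i⟩
    have hi := i.2
    rcases Nat.eq_zero_or_pos i.1 with h0 | h0
    · have : i = 0 := Fin.ext h0
      subst this
      by_cases hx : q x = x
      · exact Or.inl ⟨rfl, hx⟩
      · exact Or.inr (Or.inl ⟨rfl, hx⟩)
    · by_cases h1 : i.1 < 482
      · exact Or.inr (Or.inr (Or.inl ⟨by simpa using h0.ne', h1⟩))
      · have h2 : i.1 = 482 := by omega
        by_cases hx : q x = x
        · exact Or.inr (Or.inr (Or.inr (Or.inl ⟨h2, hx⟩)))
        · exact Or.inr (Or.inr (Or.inr (Or.inr ⟨h2, hx⟩)))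
  have hαq : ∀ x y, α (q x) = α (q y) → x = y := fun x y h =>
    hqq.injective (hα.injective h)
  have h10 : (1 : Fin 483).1 = 1 := rfl
  have h00 : (0 : Fin 483).1 = 0 := rfl
  have hSinj : Injective S := by
    rintro ⟨x, i⟩ ⟨y, j⟩ h
    rcases hcase (x, i) with ⟨e1, c1⟩ | ⟨e1, c1⟩ | ⟨e1, c1⟩ | ⟨e1, c1⟩ | ⟨e1, c1⟩ <;>
      rcases hcase (y, j) with ⟨e2, c2⟩ | ⟨e2, c2⟩ | ⟨e2, c2⟩ | ⟨e2, c2⟩ | ⟨e2, c2⟩ <;>
      simp only [] at e1 c1 e2 c2
    · rw [e1, e2, S1 x c1, S1 y c2, Prod.mk.injEq] at h
      rw [e1, e2, h.1]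
    · rw [e1, e2, S1 x c1, S2 y c2, Prod.mk.injEq] at h
      have := congrArg Fin.val h.2; rw [h10, h00] at this; omega
    · rw [e1, S1 x c1, S3 y j e2 c2, Prod.mk.injEq] at h
      have := congrArg Fin.val h.2; rw [h10] at this; simp only [] at this; omega
    · rw [e1, S1 x c1, S4 y j e2 c2, Prod.mk.injEq] at h
      have := congrArg Fin.val h.2; rw [h10, h00] at this; omega
    · rw [e1, S1 x c1, S5 y j e2 c2, Prod.mk.injEq] at h
      rw [h.1] at c1
      exact absurd c1 c2
    · rw [e1, e2, S2 x c1, S1 y c2, Prod.mk.injEq] at h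
      have := congrArg Fin.val h.2; rw [h10, h00] at this; omega
    · rw [e1, e2, S2 x c1, S2 y c2, Prod.mk.injEq] at h
      rw [e1, e2, hαq x y h.1]
    · rw [e1, S2 x c1, S3 y j e2 c2, Prod.mk.injEq] at h
      have := congrArg Fin.val h.2; rw [h00] at this; simp only [] at this; omega
    · rw [e1, S2 x c1, S4 y j e2 c2, Prod.mk.injEq] at h
      rw [hαq x y h.1] at c1
      exact absurd c2 c1
    · rw [e1, S2 x c1, S5 y j e2 c2, Prod.mk.injEq] at h
      have := congrArg Fin.val h.2; rw [h10, h00] at this; omega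
    · rw [S3 x i e1 c1, e2, S1 y c2, Prod.mk.injEq] at h
      have := congrArg Fin.val h.2; rw [h10] at this; simp only [] at this; omega
    · rw [S3 x i e1 c1, e2, S2 y c2, Prod.mk.injEq] at h
      have := congrArg Fin.val h.2; rw [h00] at this; simp only [] at this; omega
    · rw [S3 x i e1 c1, S3 y j e2 c2, Prod.mk.injEq] at h
      have := congrArg Fin.val h.2; simp only [] at this
      rw [h.1, show i = j from Fin.ext (by omega)]
    · rw [S3 x i e1 c1, S4 y j e2 c2, Prod.mk.injEq] at h
      have := congrArg Fin.val h.2; rw [h00] at this; simp only [] at this; omega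
    · rw [S3 x i e1 c1, S5 y j e2 c2, Prod.mk.injEq] at h
      have := congrArg Fin.val h.2; rw [h10] at this; simp only [] at this; omega
    · rw [S4 x i e1 c1, e2, S1 y c2, Prod.mk.injEq] at h
      have := congrArg Fin.val h.2; rw [h10, h00] at this; omega
    · rw [S4 x i e1 c1, e2, S2 y c2, Prod.mk.injEq] at h
      rw [hαq x y h.1] at c1
      exact absurd c1 c2
    · rw [S4 x i e1 c1, S3 y j e2 c2, Prod.mk.injEq] at h
      have := congrArg Fin.val h.2; rw [h00] at this; simp only [] at this; omega
    · rw [S4 x i e1 c1, S4 y j e2 c2, Prod.mk.injEq] at h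
      rw [hαq x y h.1, show i = j from Fin.ext (by omega)]
    · rw [S4 x i e1 c1, S5 y j e2 c2, Prod.mk.injEq] at h
      have := congrArg Fin.val h.2; rw [h10, h00] at this; omega
    · rw [S5 x i e1 c1, e2, S1 y c2, Prod.mk.injEq] at h
      rw [h.1] at c1
      exact absurd c2 c1
    · rw [S5 x i e1 c1, e2, S2 y c2, Prod.mk.injEq] at h
      have := congrArg Fin.val h.2; rw [h10, h00] at this; omega
    · rw [S5 x i e1 c1, S3 y j e2 c2, Prod.mk.injEq] at h
      have := congrArg Fin.val h.2; rw [h10] at this; simp only [] at this; omega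
    · rw [S5 x i e1 c1, S4 y j e2 c2, Prod.mk.injEq] at h
      have := congrArg Fin.val h.2; rw [h10, h00] at this; omega
    · rw [S5 x i e1 c1, S5 y j e2 c2, Prod.mk.injEq] at h
      rw [h.1, show i = j from Fin.ext (by omega)]
  let σ : Equiv.Perm ((V × Bool) × Fin 483) :=
    Equiv.ofBijective S (Finite.injective_iff_bijective.mp hSinj)
  have hσ : ∀ y, σ y = S y := fun _ => rfl
  have hσ' : (σ : (V × Bool) × Fin 483 → (V × Bool) × Fin 483) = S := rfl
  let out : V → Bool := fun v => χ (v, true)
  have hout1 : ∀ v, χ (v, out v) = true := by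
    intro v
    by_cases h : χ (v, true) = true
    · simp only [out, h]
    · have h' : χ (v, true) = false := by simpa using h
      have := hχ1 (v, true)
      simp only [α, Bool.not_true] at this
      simp only [out, h']
      rw [this, h']; rfl
  have hout2 : ∀ v i, χ (v, i) = true → i = out v := by
    intro v i h
    by_contra hne
    have h1 : i = !(out v) := bool_aux _ _ hne
    have h2 := hχ1 (v, out v)
    rw [hout1] at h2
    simp only [α, ← h1, Bool.not_true] at h2
    rw [h] at h2
    cases h2
  let e : V → (V × Bool) × Fin 483 := fun v => ((v, out v), 0)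
  have hadj1 : ∀ v w, H.Adj v w → χ (v, port v w) = true → e w = σ (e v) := by
    intro v w hvw hχ
    have h1 := hout2 v _ hχ
    have h2 := hq v w hvw
    have h3 : q (v, out v) ≠ (v, out v) := by
      rw [← h1, h2]
      intro h
      exact hvw.ne (Prod.mk.inj h).1.symm
    show ((w, out w), (0 : Fin 483)) = S ((v, out v), 0)
    rw [S2 _ h3, ← h1, h2]
    have h4 : χ (w, port w v) = false := by
      have h5 := hχ2 (v, out v) h3
      rw [← h1, h2, hχ] at h5
      exact h5
    have h5 : χ (w, !(port w v)) = true := by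
      have := hχ1 (w, port w v)
      rw [h4] at this
      exact this
    rw [← hout2 w _ h5]
  have hσe : ∀ v w, e w = σ (e v) → H.Adj v w := by
    intro v w h
    have h' : ((w, out w), (0 : Fin 483)) = S ((v, out v), 0) := h
    by_cases hx : q (v, out v) = (v, out v)
    · rw [S1 _ hx, Prod.mk.injEq] at h'
      have := congrArg Fin.val h'.2; rw [h10, h00] at this; omega
    · obtain ⟨w', hw', hp⟩ := hq2 _ hx
      simp only [] at hw' hp
      rw [S2 _ hx, ← hp, hq v w' hw'] at h'
      have : w = w' := by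
        have := (Prod.mk.inj h').1
        exact (Prod.mk.inj this).1
      rw [this]; exact hw'
  have hper : ∀ y, y ∈ periodicPts S := by
    intro y
    rw [← hσ']
    have hv := (orderOf_pos σ)
    refine mem_periodicPts.mpr ⟨orderOf σ, hv, ?_⟩
    show (σ : (V × Bool) × Fin 483 → (V × Bool) × Fin 483)^[orderOf σ] y = y
    rw [Equiv.Perm.iterate_eq_pow, pow_orderOf_eq_one]
    rfl
  have hpos : ∀ y, 0 < minimalPeriod S y := fun y =>
    minimalPeriod_pos_of_mem_periodicPts (hper y)
  refine ⟨(V × Bool) × Fin 483, inferInstance, σ, e, ?_, ?_, hσe, ?_, ?_⟩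
  · intro v w h
    exact (Prod.mk.inj (Prod.mk.inj h).1).1
  · intro v w hvw
    by_cases h : χ (v, port v w) = true
    · exact Or.inl (hadj1 v w hvw h)
    · right
      apply hadj1 w v hvw.symm
      have h1 : χ (v, port v w) = false := by simpa using h
      have h3 : q (v, port v w) ≠ (v, port v w) := by
        rw [hq v w hvw]
        intro h
        exact hvw.ne (Prod.mk.inj h).1.symm
      have h2 := hχ2 (v, port v w) h3
      rw [hq v w hvw, h1] at h2
      exact h2
  · rintro ⟨x, i⟩ h
    rw [hσ] at h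
    rcases hcase (x, i) with ⟨e1, c1⟩ | ⟨e1, c1⟩ | ⟨e1, c1⟩ | ⟨e1, c1⟩ | ⟨e1, c1⟩ <;>
      simp only [] at e1 c1
    · rw [e1, S1 x c1, Prod.mk.injEq] at h
      have := congrArg Fin.val h.2; rw [h10, h00] at this; omega
    · rw [e1, S2 x c1, Prod.mk.injEq] at h
      obtain ⟨w, hw, hp⟩ := hq2 x c1
      have h1 : x = (x.1, port x.1 w) := by rw [hp]
      have h2 := h.1
      rw [h1, hq x.1 w hw] at h2
      exact hw.ne (Prod.mk.inj h2).1.symm
    · rw [S3 x i e1 c1, Prod.mk.injEq] at h
      have := congrArg Fin.val h.2; simp only [] at this; omega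
    · rw [S4 x i e1 c1, Prod.mk.injEq] at h
      have := congrArg Fin.val h.2; rw [h00] at this; omega
    · rw [S5 x i e1 c1, Prod.mk.injEq] at h
      have := congrArg Fin.val h.2; rw [h10] at this; omega
  · intro y
    rw [hσ']
    by_cases hA : ∃ n, (S^[n] y).2 ≠ 0
    · right
      obtain ⟨n, hn⟩ := hA
      rw [← minimalPeriod_apply_iterate (hper y) n]
      rcases hy : S^[n] y with ⟨x, i⟩
      rw [hy] at hn
      have hn' : i.1 ≠ 0 := fun h => hn (Fin.ext h)
      have hup : ∀ k (hk : k < 482), S^[k] (x, (1 : Fin 483)) = (x, ⟨k + 1, by omega⟩) := by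
        intro k
        induction k with
        | zero => intro _; rfl
        | succ k ih =>
          intro hk
          rw [iterate_succ_apply', ih (by omega)]
          exact S3 x ⟨k + 1, by omega⟩ (by simp) (by simpa using hk)
      have h1 : S^[i.1 - 1] (x, (1 : Fin 483)) = (x, i) := by
        rw [hup (i.1 - 1) (by omega)]
        congr 1
        exact Fin.ext (by simp only []; omega)
      rw [← h1, minimalPeriod_apply_iterate (hper _)]
      by_contra hlt
      push Not at hlt
      have h2 := isPeriodicPt_minimalPeriod S (x, (1 : Fin 483))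
      have h3 : S^[minimalPeriod S (x, (1 : Fin 483))] (x, (1 : Fin 483)) = (x, 1) := h2
      rw [hup _ hlt, Prod.mk.injEq] at h3
      have h4 := congrArg Fin.val h3.2
      rw [h10] at h4
      simp only [] at h4
      have := hpos (x, (1 : Fin 483))
      omega
    · push Not at hA
      let X : ℕ → V × Bool := fun n => (S^[n] y).1
      have hX : ∀ n, S^[n] y = (X n, 0) := fun n => Prod.ext rfl (hA n)
      have hqX : ∀ n, q (X n) ≠ X n := by
        intro n h
        have h1 := hA (n + 1)
        rw [iterate_succ_apply', hX, S1 _ h] at h1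
        have := congrArg Fin.val h1; rw [h10, h00] at this; omega
      have hXs : ∀ n, X (n + 1) = α (q (X n)) := by
        intro n
        have h1 : S^[n + 1] y = (α (q (X n)), 0) := by
          rw [iterate_succ_apply', hX, S2 _ (hqX n)]
        show (S^[n + 1] y).1 = _
        rw [h1]
      have hχX : ∀ n, χ (X n) = χ (X 0) := by
        intro n
        induction n with
        | zero => rfl
        | succ n ih => rw [hXs, hχ1, hχ2 _ (hqX n), ih, Bool.not_not]
      have hXinj : ∀ n k, (X n).1 = (X k).1 → X n = X k := by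
        intro n k h
        refine Prod.ext h ?_
        by_contra hne
        have h1 : X k = α (X n) := by
          refine Prod.ext h.symm ?_
          exact bool_aux _ _ (fun e => hne e.symm)
        have h2 := hχ1 (X n)
        rw [← h1, hχX k, hχX n] at h2
        cases hc : χ (X 0) <;> rw [hc] at h2 <;> simp at h2
      set m := minimalPeriod S y with hm
      have hmpos : 0 < m := hpos y
      have hXm : ∀ n, X (n + m) = X n := by
        intro n
        show (S^[n + m] y).1 = (S^[n] y).1
        rw [iterate_add_apply, hm, iterate_minimalPeriod]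
      -- the neighbours of `X n`
      have hnb1 : ∀ n, ∃ w, H.Adj (X n).1 w ∧ port (X n).1 w = (X n).2 ∧ w = (X (n + 1)).1 := by
        intro n
        obtain ⟨w, hw, hp⟩ := hq2 _ (hqX n)
        refine ⟨w, hw, hp, ?_⟩
        have h1 : X n = ((X n).1, port (X n).1 w) := by rw [hp]
        rw [hXs, h1, hq _ w hw]
      have hnb2 : ∀ n, ∃ w, H.Adj (X n).1 w ∧ port (X n).1 w = !(X n).2 ∧
          w = (X (n + m - 1)).1 := by
        intro n
        have h0 : n + m - 1 + 1 = n + m := by omega
        obtain ⟨w, hw, hp, hw'⟩ := hnb1 (n + m - 1)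
        have h1 : X (n + m - 1) = ((X (n + m - 1)).1, port (X (n + m - 1)).1 w) := by rw [hp]
        have h2 : w = (X n).1 := by rw [hw', h0, hXm]
        have h3 : X n = α (w, port w (X (n + m - 1)).1) := by
          rw [← hq _ w hw, hp, ← hXs, h0, hXm]
        refine ⟨(X (n + m - 1)).1, by rw [← h2]; exact hw.symm, ?_, rfl⟩
        rw [h3]
        simp [α]
      let c : H.ConnectedComponent := H.connectedComponentMk (X 0).1
      have hmem : ∀ n, (X n).1 ∈ c.supp := by
        intro n
        induction n with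
        | zero => rfl
        | succ n ih =>
          obtain ⟨w, hw, _, hw'⟩ := hnb1 n
          rw [← hw']
          exact (SimpleGraph.ConnectedComponent.mem_supp_congr_adj c hw).mp ih
      have hclosed : ∀ v, v ∈ c.supp → ∃ n, v = (X n).1 := by
        intro v hv
        have h1 : H.Reachable (X 0).1 v := by
          have := SimpleGraph.ConnectedComponent.exact (hv : H.connectedComponentMk v = c)
          exact this.symm
        rw [SimpleGraph.reachable_iff_reflTransGen] at h1
        induction h1 with
        | refl => exact ⟨0, rfl⟩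
        | @tail b w0 h1 h2 ih =>
          obtain ⟨n, hn⟩ := ih ((SimpleGraph.ConnectedComponent.mem_supp_congr_adj c h2).mpr hv)
          rw [hn] at h2
          obtain ⟨w1, hw1, hp1, he1⟩ := hnb1 n
          obtain ⟨w2, hw2, hp2, he2⟩ := hnb2 n
          by_cases hpp : port (X n).1 w0 = (X n).2
          · exact ⟨n + 1, by rw [← he1]; exact huniq _ _ _ h2 hw1 (hpp.trans hp1.symm)⟩
          · refine ⟨n + m - 1, ?_⟩
            rw [← he2]
            apply huniq _ _ _ h2 hw2
            rw [hp2]
            exact bool_aux _ _ hpp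
      have hdeg : ∀ v ∈ c.supp, (H.neighborSet v).ncard = 2 := by
        intro v hv
        obtain ⟨n, rfl⟩ := hclosed v hv
        obtain ⟨w1, hw1, hp1, he1⟩ := hnb1 n
        obtain ⟨w2, hw2, hp2, he2⟩ := hnb2 n
        have hne : w1 ≠ w2 := by
          intro h
          rw [h, hp2] at hp1
          cases hh : (X n).2 <;> rw [hh] at hp1 <;> simp at hp1
        apply le_antisymm (hH _)
        have h1 : ({w1, w2} : Set V) ⊆ H.neighborSet (X n).1 := by
          intro z hz
          rcases hz with rfl | rfl
          · exact hw1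
          · exact hw2
        calc 2 = ({w1, w2} : Set V).ncard := (Set.ncard_pair hne).symm
          _ ≤ _ := Set.ncard_le_ncard h1 (Set.toFinite _)
      have hcard : c.supp.ncard = m := by
        have h1 : c.supp = (fun n => (X n).1) '' (Finset.range m : Set ℕ) := by
          ext v
          constructor
          · intro hv
            obtain ⟨n, rfl⟩ := hclosed v hv
            refine ⟨n % m, by simpa using Nat.mod_lt n hmpos, ?_⟩
            show (S^[n % m] y).1.1 = (S^[n] y).1.1
            rw [hm, iterate_mod_minimalPeriod_eq]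
          · rintro ⟨n, _, rfl⟩
            exact hmem n
        rw [h1, Set.InjOn.ncard_image, Set.ncard_coe_finset, Finset.card_range]
        intro n hn k hk h
        have h2 := hXinj n k h
        have hn' : n < m := by simpa using hn
        have hk' : k < m := by simpa using hk
        apply (iterate_eq_iterate_iff_of_lt_minimalPeriod hn' hk').mp
        rw [hX, hX, h2]
      rw [← hcard]
      exact hcyc c hdeg

end Close

end GY64
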