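import Pool.Agent.Lib_helper64.GY.Close

set_option autoImplicit false

/-!
# Closing up a graph of maximum degree two by long chains of new vertices
-/

namespace GY64

open Function

section Fill

variable {X : Type} [Finite X]

open Classical in
/-- the successor function on `X × Fin (T + 1)`: at the points of `P` a chain of `T` new
points is inserted after `x` -/
noncomputable def fillS (T : ℕ) (hT : 0 < T) (s : Equiv.Perm X) (P : X → Prop) :
    X × Fin (T + 1) → X × Fin (T + 1) := fun y =>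
  if y.2.1 = 0 then (if P y.1 then (y.1, ⟨1, by omega⟩) else (s y.1, 0))
  else if h : y.2.1 < T then (y.1, ⟨y.2.1 + 1, by omega⟩)
  else (if P y.1 then (s y.1, 0) else (y.1, ⟨1, by omega⟩))

variable {T : ℕ} (hT : 0 < T) (s : Equiv.Perm X) (P : X → Prop)

omit [Finite X] in
theorem fill1 {x : X} (hx : P x) : fillS T hT s P (x, 0) = (x, ⟨1, by omega⟩) := by
  simp [fillS, hx]

omit [Finite X] in
theorem fill2 {x : X} (hx : ¬ P x) : fillS T hT s P (x, 0) = (s x, 0) := by
  simp [fillS, hx]

omit [Finite X] in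
theorem fill3 (x : X) (i : Fin (T + 1)) (h0 : i.1 ≠ 0) (h : i.1 < T) :
    fillS T hT s P (x, i) = (x, ⟨i.1 + 1, by omega⟩) := by
  simp only [fillS, h0, if_false, h, dif_pos]

omit [Finite X] in
theorem fill4 {x : X} (i : Fin (T + 1)) (h : i.1 = T) (hx : P x) :
    fillS T hT s P (x, i) = (s x, 0) := by
  have h0 : ¬ i.1 = 0 := by omega
  have h1 : ¬ i.1 < T := by omega
  simp only [fillS]
  rw [if_neg h0, dif_neg h1, if_pos hx]

omit [Finite X] in
theorem fill5 {x : X} (i : Fin (T + 1)) (h : i.1 = T) (hx : ¬ P x) :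
    fillS T hT s P (x, i) = (x, ⟨1, by omega⟩) := by
  have h0 : ¬ i.1 = 0 := by omega
  have h1 : ¬ i.1 < T := by omega
  simp only [fillS]
  rw [if_neg h0, dif_neg h1, if_neg hx]

omit [Finite X] in
theorem fill_cases (hT : 0 < T) (y : X × Fin (T + 1)) :
    (y = (y.1, 0) ∧ P y.1) ∨ (y = (y.1, 0) ∧ ¬ P y.1) ∨
      (y.2.1 ≠ 0 ∧ y.2.1 < T) ∨ (y.2.1 = T ∧ P y.1) ∨ (y.2.1 = T ∧ ¬ P y.1) := by
  obtain ⟨x, i⟩ := y
  have hi := i.2
  rcases Nat.eq_zero_or_pos i.1 with h0 | h0
  · have : i = 0 := Fin.ext h0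
    subst this
    by_cases hx : P x
    · exact Or.inl ⟨rfl, hx⟩
    · exact Or.inr (Or.inl ⟨rfl, hx⟩)
  · by_cases h1 : i.1 < T
    · exact Or.inr (Or.inr (Or.inl ⟨by simpa using h0.ne', h1⟩))
    · have h2 : i.1 = T := by omega
      by_cases hx : P x
      · exact Or.inr (Or.inr (Or.inr (Or.inl ⟨h2, hx⟩)))
      · exact Or.inr (Or.inr (Or.inr (Or.inr ⟨h2, hx⟩)))

omit [Finite X] in
theorem fill_inj : Injective (fillS T hT s P) := by
  rintro ⟨x, i⟩ ⟨y, j⟩ h
  have h00 : (0 : Fin (T + 1)).1 = 0 := rfl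
  rcases fill_cases P hT (x, i) with ⟨e1, c1⟩ | ⟨e1, c1⟩ | ⟨e1, c1⟩ | ⟨e1, c1⟩ | ⟨e1, c1⟩ <;>
    rcases fill_cases P hT (y, j) with ⟨e2, c2⟩ | ⟨e2, c2⟩ | ⟨e2, c2⟩ | ⟨e2, c2⟩ | ⟨e2, c2⟩ <;>
    simp only [] at e1 c1 e2 c2
  · rw [e1, e2, fill1 hT s P c1, fill1 hT s P c2, Prod.mk.injEq] at h
    rw [e1, e2, h.1]
  · rw [e1, e2, fill1 hT s P c1, fill2 hT s P c2, Prod.mk.injEq] at h
    have := congrArg Fin.val h.2; simp only [h00] at this; omega
  · rw [e1, fill1 hT s P c1, fill3 hT s P y j e2 c2, Prod.mk.injEq] at h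
    have := congrArg Fin.val h.2; simp only [] at this; omega
  · rw [e1, fill1 hT s P c1, fill4 hT s P j e2 c2, Prod.mk.injEq] at h
    have := congrArg Fin.val h.2; simp only [h00] at this; omega
  · rw [e1, fill1 hT s P c1, fill5 hT s P j e2 c2, Prod.mk.injEq] at h
    rw [h.1] at c1
    exact absurd c1 c2
  · rw [e1, e2, fill2 hT s P c1, fill1 hT s P c2, Prod.mk.injEq] at h
    have := congrArg Fin.val h.2; simp only [h00] at this; omega
  · rw [e1, e2, fill2 hT s P c1, fill2 hT s P c2, Prod.mk.injEq] at h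
    rw [e1, e2, s.injective h.1]
  · rw [e1, fill2 hT s P c1, fill3 hT s P y j e2 c2, Prod.mk.injEq] at h
    have := congrArg Fin.val h.2; simp only [h00] at this; omega
  · rw [e1, fill2 hT s P c1, fill4 hT s P j e2 c2, Prod.mk.injEq] at h
    rw [s.injective h.1] at c1
    exact absurd c2 c1
  · rw [e1, fill2 hT s P c1, fill5 hT s P j e2 c2, Prod.mk.injEq] at h
    have := congrArg Fin.val h.2; simp only [h00] at this; omega
  · rw [fill3 hT s P x i e1 c1, e2, fill1 hT s P c2, Prod.mk.injEq] at h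
    have := congrArg Fin.val h.2; simp only [] at this; omega
  · rw [fill3 hT s P x i e1 c1, e2, fill2 hT s P c2, Prod.mk.injEq] at h
    have := congrArg Fin.val h.2; simp only [h00] at this; omega
  · rw [fill3 hT s P x i e1 c1, fill3 hT s P y j e2 c2, Prod.mk.injEq] at h
    have := congrArg Fin.val h.2; simp only [] at this
    rw [h.1, show i = j from Fin.ext (by omega)]
  · rw [fill3 hT s P x i e1 c1, fill4 hT s P j e2 c2, Prod.mk.injEq] at h
    have := congrArg Fin.val h.2; simp only [h00] at this; omega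
  · rw [fill3 hT s P x i e1 c1, fill5 hT s P j e2 c2, Prod.mk.injEq] at h
    have := congrArg Fin.val h.2; simp only [] at this; omega
  · rw [fill4 hT s P i e1 c1, e2, fill1 hT s P c2, Prod.mk.injEq] at h
    have := congrArg Fin.val h.2; simp only [h00] at this; omega
  · rw [fill4 hT s P i e1 c1, e2, fill2 hT s P c2, Prod.mk.injEq] at h
    rw [s.injective h.1] at c1
    exact absurd c1 c2
  · rw [fill4 hT s P i e1 c1, fill3 hT s P y j e2 c2, Prod.mk.injEq] at h
    have := congrArg Fin.val h.2; simp only [h00] at this; omega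
  · rw [fill4 hT s P i e1 c1, fill4 hT s P j e2 c2, Prod.mk.injEq] at h
    rw [s.injective h.1, show i = j from Fin.ext (by omega)]
  · rw [fill4 hT s P i e1 c1, fill5 hT s P j e2 c2, Prod.mk.injEq] at h
    have := congrArg Fin.val h.2; simp only [h00] at this; omega
  · rw [fill5 hT s P i e1 c1, e2, fill1 hT s P c2, Prod.mk.injEq] at h
    rw [h.1] at c1
    exact absurd c2 c1
  · rw [fill5 hT s P i e1 c1, e2, fill2 hT s P c2, Prod.mk.injEq] at h
    have := congrArg Fin.val h.2; simp only [h00] at this; omega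
  · rw [fill5 hT s P i e1 c1, fill3 hT s P y j e2 c2, Prod.mk.injEq] at h
    have := congrArg Fin.val h.2; simp only [] at this; omega
  · rw [fill5 hT s P i e1 c1, fill4 hT s P j e2 c2, Prod.mk.injEq] at h
    have := congrArg Fin.val h.2; simp only [h00] at this; omega
  · rw [fill5 hT s P i e1 c1, fill5 hT s P j e2 c2, Prod.mk.injEq] at h
    rw [h.1, show i = j from Fin.ext (by omega)]

/-- the permutation -/
noncomputable def fillP : Equiv.Perm (X × Fin (T + 1)) :=
  Equiv.ofBijective (fillS T hT s P) (Finite.injective_iff_bijective.mp (fill_inj hT s P))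

theorem fillP_apply (y : X × Fin (T + 1)) : fillP hT s P y = fillS T hT s P y := rfl

/-- running through a chain -/
theorem fillP_chain {x : X} (hx : P x) (k : ℕ) (hk : k ≤ T) :
    (fillP hT s P)^[k] (x, 0) = (x, ⟨k, by omega⟩) := by
  induction k with
  | zero => rfl
  | succ k ih =>
    rw [iterate_succ_apply', ih (by omega), fillP_apply]
    rcases Nat.eq_zero_or_pos k with h0 | h0
    · subst h0
      exact fill1 hT s P hx
    · exact fill3 hT s P x ⟨k, by omega⟩ (by simpa using h0.ne') (by simpa using hk)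

end Fill

section Succ

variable {V : Type} [Finite V] (H : SimpleGraph V)

/-- **Orientation** of a graph of maximum degree two. -/
theorem exists_succ (hH : ∀ v, (H.neighborSet v).ncard ≤ 2) :
    ∃ D : V → V → Prop, (∀ v w, H.Adj v w ↔ D v w ∨ D w v) ∧
      (∀ v w w', D v w → D v w' → w = w') ∧ (∀ v v' w, D v w → D v' w → v = v') ∧
      (∀ v w, D v w → ¬ D w v) := by
  classical
  obtain ⟨port, q, hqq, hq, huniq, hq2⟩ := exists_ports H hH
  let α : V × Bool → V × Bool := fun x => (x.1, !x.2)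
  have hα : Involutive α := by rintro ⟨v, i⟩; simp [α]
  have hα1 : ∀ x, α x ≠ x := by
    rintro ⟨v, i⟩ h
    have := (Prod.mk.inj h).2
    cases i <;> simp at this
  obtain ⟨χ, hχ1, hχ2⟩ := two_invol α q hα hqq hα1
  have hflip : ∀ v w, H.Adj v w → χ (w, port w v) = !(χ (v, port v w)) := by
    intro v w hvw
    have h3 : q (v, port v w) ≠ (v, port v w) := by
      rw [hq v w hvw]
      intro h
      exact hvw.ne (Prod.mk.inj h).1.symm
    have := hχ2 _ h3
    rwa [hq v w hvw] at this
  have hport : ∀ v i j, χ (v, i) = χ (v, j) → i = j := by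
    intro v i j h
    by_contra hne
    have h1 : i = !j := bool_aux _ _ hne
    have h2 := hχ1 (v, j)
    simp only [α, ← h1] at h2
    rw [h] at h2
    cases hh : χ (v, j) <;> rw [hh] at h2 <;> simp at h2
  refine ⟨fun v w => H.Adj v w ∧ χ (v, port v w) = true, ?_, ?_, ?_, ?_⟩
  · intro v w
    constructor
    · intro h
      by_cases hc : χ (v, port v w) = true
      · exact Or.inl ⟨h, hc⟩
      · right
        refine ⟨h.symm, ?_⟩
        rw [hflip v w h]
        simpa using hc
    · rintro (⟨h, _⟩ | ⟨h, _⟩)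
      · exact h
      · exact h.symm
  · rintro v w w' ⟨h1, h2⟩ ⟨h3, h4⟩
    exact huniq v w w' h1 h3 (hport v _ _ (h2.trans h4.symm))
  · rintro v v' w ⟨h1, h2⟩ ⟨h3, h4⟩
    have h5 := hflip v w h1
    have h6 := hflip v' w h3
    rw [h2] at h5
    rw [h4] at h6
    exact huniq w v v' h1.symm h3.symm (hport w _ _ (h5.trans h6.symm))
  · rintro v w ⟨h1, h2⟩ ⟨_, h4⟩
    rw [hflip v w h1, h2] at h4
    simp at h4

/-- extension of the orientation to a permutation -/
theorem exists_succ_perm (D : V → V → Prop) (h1 : ∀ v w w', D v w → D v w' → w = w')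
    (h2 : ∀ v v' w, D v w → D v' w → v = v') :
    ∃ s : Equiv.Perm V, ∀ v w, D v w → s v = w := by
  classical
  have : Fintype V := Fintype.ofFinite V
  let E : {v // ∃ w, D v w} ≃ {w // ∃ v, D v w} :=
    { toFun := fun v => ⟨v.2.choose, v.1, v.2.choose_spec⟩
      invFun := fun w => ⟨w.2.choose, w.1, w.2.choose_spec⟩
      left_inv := fun v => by
        apply Subtype.ext
        have h3 : ∃ u, D u v.2.choose := ⟨v.1, v.2.choose_spec⟩
        exact h2 _ _ _ h3.choose_spec v.2.choose_spec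
      right_inv := fun w => by
        apply Subtype.ext
        have h3 : ∃ u, D w.2.choose u := ⟨w.1, w.2.choose_spec⟩
        exact h1 _ _ _ h3.choose_spec w.2.choose_spec }
  refine ⟨E.extendSubtype, ?_⟩
  intro v w hvw
  have hv : ∃ w, D v w := ⟨w, hvw⟩
  rw [Equiv.extendSubtype_apply_of_mem E v hv]
  exact h1 _ _ _ hv.choose_spec hvw

end Succ

end GY64
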