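import Mathlib

set_option autoImplicit false

/-!
# Choosing representatives of two kinds of classes with no adjacent pair
-/

namespace GY64

section Sel

variable {V I : Type*} [Finite V]

/-- Hall step: injective choice of tokens. -/
theorem hall_tokens {T ι : Type*} [DecidableEq T] (kindB kindC : ι → T → Prop)
    (t : ι → Finset T)
    (h2 : ∀ x, 2 ≤ (t x).card)
    (hk : ∀ x y, y ∈ t x → kindB x y ∨ kindC x y)
    (hB : ∀ x x' y, kindB x y → kindB x' y → x = x')
    (hC : ∀ x x' y, kindC x y → kindC x' y → x = x') :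
    ∃ f : ι → T, Function.Injective f ∧ ∀ x, f x ∈ t x := by
  classical
  apply (Finset.all_card_le_biUnion_card_iff_exists_injective t).mp
  intro s
  have key := Finset.card_mul_le_card_mul (s := s) (t := s.biUnion t)
    (fun (x : ι) (y : T) => y ∈ t x) (m := 2) (n := 2) ?_ ?_
  · omega
  · intro x hx
    refine (h2 x).trans (Finset.card_le_card ?_)
    intro y hy
    rw [Finset.mem_bipartiteAbove]
    exact ⟨Finset.mem_biUnion.mpr ⟨x, hx, hy⟩, hy⟩
  · intro y _
    by_contra hcon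
    push Not at hcon
    obtain ⟨a, b, c, ha, hb, hc, hab, hac, hbc⟩ := Finset.two_lt_card_iff.mp hcon
    rw [Finset.mem_bipartiteBelow] at ha hb hc
    rcases hk a y ha.2 with h1 | h1 <;> rcases hk b y hb.2 with h3 | h3 <;>
      rcases hk c y hc.2 with h4 | h4
    · exact hab (hB _ _ _ h1 h3)
    · exact hab (hB _ _ _ h1 h3)
    · exact hac (hB _ _ _ h1 h4)
    · exact hbc (hC _ _ _ h3 h4)
    · exact hbc (hB _ _ _ h3 h4)
    · exact hac (hC _ _ _ h1 h4)
    · exact hab (hC _ _ _ h1 h3)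
    · exact hab (hC _ _ _ h1 h3)

/-- **Selection lemma.** -/
theorem selection [Nonempty V] (κ : V → I) (SB SC : V → Prop) (adj : V → V → Prop) (β γ : V → I)
    (h1 : ∀ b c, SB b → SC c → adj b c → β b = κ c ∧ γ c = κ b)
    (h2 : ∀ b c, SB b → SC c → ∃ b', SB b' ∧ κ b' = κ b ∧ ¬ adj b' c)
    (h3 : ∀ b c, SB b → SC c → ∃ c', SC c' ∧ κ c' = κ c ∧ ¬ adj b c') :
    ∃ f g : I → V, (∀ b, SB b → SB (f (κ b)) ∧ κ (f (κ b)) = κ b) ∧
      (∀ c, SC c → SC (g (κ c)) ∧ κ (g (κ c)) = κ c) ∧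
      ∀ b c, SB b → SC c → ¬ adj (f (κ b)) (g (κ c)) := by
  classical
  have : Fintype V := Fintype.ofFinite V
  let PB : I → V → Prop := fun i b => SB b ∧ κ b = i
  let PC : I → V → Prop := fun j c => SC c ∧ κ c = j
  let NB : I → Prop := fun i => ∃ b b', PB i b ∧ PB i b' ∧ β b ≠ β b'
  let NC : I → Prop := fun j => ∃ c c', PC j c ∧ PC j c' ∧ γ c ≠ γ c'
  -- Step 1: Hall
  let tB : I → Finset (I × I) := fun i => (Finset.univ.filter (PB i)).image fun b => (i, β b)
  let tC : I → Finset (I × I) := fun j => (Finset.univ.filter (PC j)).image fun c => (γ c, j)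
  have step1 : ∃ F : {i // NB i} ⊕ {j // NC j} → I × I, Function.Injective F ∧
      ∀ x, F x ∈ Sum.elim (fun i : {i // NB i} => tB i.1) (fun j : {j // NC j} => tC j.1) x := by
    apply hall_tokens
      (kindB := fun x y => ∃ i : {i // NB i}, x = Sum.inl i ∧ y.1 = i.1)
      (kindC := fun x y => ∃ j : {j // NC j}, x = Sum.inr j ∧ y.2 = j.1)
    · rintro (⟨i, b, b', hb, hb', hne⟩ | ⟨j, c, c', hc, hc', hne⟩)
      · refine Finset.one_lt_card.mpr ⟨(i, β b), ?_, (i, β b'), ?_, ?_⟩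
        · exact Finset.mem_image.mpr ⟨b, by simpa using hb, rfl⟩
        · exact Finset.mem_image.mpr ⟨b', by simpa using hb', rfl⟩
        · intro h
          exact hne (Prod.mk.inj h).2
      · refine Finset.one_lt_card.mpr ⟨(γ c, j), ?_, (γ c', j), ?_, ?_⟩
        · exact Finset.mem_image.mpr ⟨c, by simpa using hc, rfl⟩
        · exact Finset.mem_image.mpr ⟨c', by simpa using hc', rfl⟩
        · intro h
          exact hne (Prod.mk.inj h).1
    · rintro (i | j) y hy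
      · left
        obtain ⟨b, _, rfl⟩ := Finset.mem_image.mp hy
        exact ⟨i, rfl, rfl⟩
      · right
        obtain ⟨c, _, rfl⟩ := Finset.mem_image.mp hy
        exact ⟨j, rfl, rfl⟩
    · rintro x x' y ⟨i, rfl, hi⟩ ⟨i', rfl, hi'⟩
      rw [Subtype.ext (hi.symm.trans hi')]
    · rintro x x' y ⟨i, rfl, hi⟩ ⟨i', rfl, hi'⟩
      rw [Subtype.ext (hi.symm.trans hi')]
  obtain ⟨F, hFinj, hF⟩ := step1
  have hb0 : ∀ i : {i // NB i}, ∃ b, PB i.1 b ∧ F (Sum.inl i) = (i.1, β b) := by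
    intro i
    obtain ⟨b, hb, he⟩ := Finset.mem_image.mp (hF (Sum.inl i))
    exact ⟨b, by simpa using hb, he.symm⟩
  have hc0 : ∀ j : {j // NC j}, ∃ c, PC j.1 c ∧ F (Sum.inr j) = (γ c, j.1) := by
    intro j
    obtain ⟨c, hc, he⟩ := Finset.mem_image.mp (hF (Sum.inr j))
    exact ⟨c, by simpa using hc, he.symm⟩
  choose b0 hb0P hb0F using hb0
  choose c0 hc0P hc0F using hc0
  -- the tentative C-choice on non-lonely classes
  -- Step 2: the B-choice
  have step2 : ∀ i : I, ∃ b : V, (∀ h : NB i, b = b0 ⟨i, h⟩) ∧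
      ((∃ x, PB i x) → PB i b) ∧
      (¬ NB i → ∀ j (hj : NC j), (∃ x, PB i x ∧ β x = j) → ¬ adj b (c0 ⟨j, hj⟩)) := by
    intro i
    by_cases hN : NB i
    · exact ⟨b0 ⟨i, hN⟩, fun _ => rfl, fun _ => hb0P ⟨i, hN⟩, fun h => absurd hN h⟩
    · by_cases hx : ∃ x, PB i x
      · obtain ⟨x, hx⟩ := hx
        by_cases hj : NC (β x)
        · obtain ⟨b', hb'1, hb'2, hb'3⟩ := h2 x (c0 ⟨β x, hj⟩) hx.1 (hc0P ⟨β x, hj⟩).1
          refine ⟨b', fun h => absurd h hN, fun _ => ⟨hb'1, hb'2.trans hx.2⟩, ?_⟩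
          rintro _ j hj' ⟨y, hy, hyj⟩
          have hxy : β x = β y := by
            by_contra hne
            exact hN ⟨x, y, hx, hy, hne⟩
          have hjj : j = β x := by rw [hxy, hyj]
          subst hjj
          exact hb'3
        · refine ⟨x, fun h => absurd h hN, fun _ => hx, ?_⟩
          rintro _ j hj' ⟨y, hy, hyj⟩
          have hxy : β x = β y := by
            by_contra hne
            exact hN ⟨x, y, hx, hy, hne⟩
          rw [hxy, hyj] at hj
          exact absurd hj' hj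
      · exact ⟨Classical.arbitrary V, fun h => absurd h hN, fun h => absurd h hx,
          fun _ j hj ⟨y, hy, _⟩ => absurd ⟨y, hy⟩ hx⟩
  choose f hf1 hf2 hf3 using step2
  -- Step 3: the C-choice
  have step3 : ∀ j : I, ∃ c : V, (∀ h : NC j, c = c0 ⟨j, h⟩) ∧
      ((∃ x, PC j x) → PC j c) ∧
      (¬ NC j → ∀ i, (∃ x, PB i x) → (∃ x, PC j x ∧ γ x = i) → ¬ adj (f i) c) := by
    intro j
    by_cases hN : NC j
    · exact ⟨c0 ⟨j, hN⟩, fun _ => rfl, fun _ => hc0P ⟨j, hN⟩, fun h => absurd hN h⟩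
    · by_cases hx : ∃ x, PC j x
      · obtain ⟨x, hx⟩ := hx
        by_cases hj : ∃ y, PB (γ x) y
        · have hfi := hf2 (γ x) hj
          obtain ⟨c', hc'1, hc'2, hc'3⟩ := h3 (f (γ x)) x hfi.1 hx.1
          refine ⟨c', fun h => absurd h hN, fun _ => ⟨hc'1, hc'2.trans hx.2⟩, ?_⟩
          rintro _ i hi' ⟨y, hy, hyj⟩
          have hxy : γ x = γ y := by
            by_contra hne
            exact hN ⟨x, y, hx, hy, hne⟩
          have hjj : i = γ x := by rw [hxy, hyj]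
          subst hjj
          exact hc'3
        · refine ⟨x, fun h => absurd h hN, fun _ => hx, ?_⟩
          rintro _ i hi' ⟨y, hy, hyj⟩
          have hxy : γ x = γ y := by
            by_contra hne
            exact hN ⟨x, y, hx, hy, hne⟩
          rw [hxy, hyj] at hj
          exact absurd hi' hj
      · exact ⟨Classical.arbitrary V, fun h => absurd h hN, fun h => absurd h hx,
          fun _ j hj ⟨y, hy, _⟩ => absurd ⟨y, hy⟩ hx⟩
  choose g hg1 hg2 hg3 using step3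
  refine ⟨f, g, fun b hb => hf2 (κ b) ⟨b, hb, rfl⟩, fun c hc => hg2 (κ c) ⟨c, hc, rfl⟩, ?_⟩
  intro b c hb hc hadj
  have hfb := hf2 (κ b) ⟨b, hb, rfl⟩
  have hgc := hg2 (κ c) ⟨c, hc, rfl⟩
  obtain ⟨hβ, hγ⟩ := h1 _ _ hfb.1 hgc.1 hadj
  rw [hgc.2] at hβ
  rw [hfb.2] at hγ
  by_cases hNC : NC (κ c)
  · by_cases hNB : NB (κ b)
    · have e1 := hb0F ⟨κ b, hNB⟩
      have e2 := hc0F ⟨κ c, hNC⟩
      rw [← hf1 (κ b) hNB, hβ] at e1
      rw [← hg1 (κ c) hNC, hγ] at e2
      have := hFinj (e1.trans e2.symm)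
      simp at this
    · have h5 := hf3 (κ b) hNB (κ c) hNC ⟨f (κ b), hfb, hβ⟩
      rw [← hg1 (κ c) hNC] at h5
      exact h5 hadj
  · exact hg3 (κ c) hNC (κ b) ⟨b, hb, rfl⟩ ⟨g (κ c), hgc, hγ⟩ hadj

end Sel

end GY64
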