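import Pool.Agent.Lib_helper64.GY.Par
import Pool.Agent.Lib_helper64.GY.Sel

set_option autoImplicit false

/-!
# The core labelling theorem

A permutation `σ`, an involution `p` (with fixed points allowed) and a lettering
`τ : V → {A,B,C,D}` following the transitions `A → B → C → A`, `C → D → A`, with the `D`'s far
apart, give a labelling with labels `0,…,9`.
-/

namespace GY64

open Function

/-- the four letters -/
inductive Let where
  | A | B | C | D
deriving DecidableEq

/-- the allowed transitions -/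
def Tr : Let → Let → Prop
  | .A, .B => True
  | .B, .C => True
  | .C, .A => True
  | .C, .D => True
  | .D, .A => True
  | _, _ => False

/-- the label of a vertex from its letter, whether it is rare, and its parity -/
def lab : Let → Bool → Bool → ℕ
  | .D, _, _ => 3
  | .A, true, _ => 2
  | .A, false, false => 0
  | .A, false, true => 1
  | .B, true, _ => 6
  | .B, false, false => 4
  | .B, false, true => 5
  | .C, true, _ => 7
  | .C, false, false => 9
  | .C, false, true => 8

/-- two labels differ by at least two -/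
def Far (a b : ℕ) : Prop := a + 2 ≤ b ∨ b + 2 ≤ a

section Core

variable {V : Type*} (σ : Equiv.Perm V) (p : V → V) (τ : V → Let)

/-- the hypotheses of the core theorem -/
structure Good : Prop where
  pp : ∀ v, p (p v) = v
  pσ : ∀ v, p v ≠ σ v
  tr : ∀ v, Tr (τ v) (τ (σ v))
  d1 : ∀ d e, τ d = .D → τ e = .D → d ≠ e → e ≠ p d
  d2 : ∀ d e, τ d = .D → τ e = .D → d ≠ e → e ≠ σ (p d)
  d3 : ∀ d e, τ d = .D → τ e = .D → d ≠ e → e ≠ σ.symm (p d)
  d4 : ∀ d e, τ d = .D → τ e = .D → d ≠ e → e ≠ σ.symm (p (σ d))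
  d5 : ∀ d e, τ d = .D → τ e = .D → d ≠ e → e ≠ σ.symm (σ.symm (p (σ d)))

open Classical in
/-- the same-letter partner -/
noncomputable def psi (u : V) : V :=
  if τ (p u) = τ u then p u
  else if τ (σ (p u)) = τ u then σ (p u)
  else if τ (σ.symm (p u)) = τ u then σ.symm (p u)
  else u

variable {σ p τ}

theorem Good.tr' (h : Good σ p τ) (v : V) : Tr (τ (σ.symm v)) (τ v) := by
  have := h.tr (σ.symm v)
  rwa [Equiv.apply_symm_apply] at this

theorem Good.ne_succ (h : Good σ p τ) (v : V) : τ (σ v) ≠ τ v := by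
  have := h.tr v
  intro he
  rw [he] at this
  cases hv : τ v <;> rw [hv] at this <;> exact this

theorem Good.ne_pred (h : Good σ p τ) (v : V) : τ (σ.symm v) ≠ τ v := by
  have := h.ne_succ (σ.symm v)
  rw [Equiv.apply_symm_apply] at this
  exact this.symm

theorem Tr.ne2 {a b c : Let} (h1 : Tr a b) (h2 : Tr b c) : a ≠ c := by
  cases a <;> cases b <;> cases c <;> simp_all [Tr]

theorem Good.ne_two (h : Good σ p τ) (v : V) : τ (σ (σ v)) ≠ τ v :=
  (Tr.ne2 (h.tr v) (h.tr (σ v))).symm

theorem Good.ne_around (h : Good σ p τ) (v : V) : τ (σ v) ≠ τ (σ.symm v) :=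
  (Tr.ne2 (h.tr' v) (h.tr v)).symm

theorem Good.σ_ne (h : Good σ p τ) (v : V) : σ v ≠ v := fun he => h.ne_succ v (by rw [he])

theorem Good.p_ne_pred (h : Good σ p τ) (v : V) : p v ≠ σ.symm v := by
  intro he
  have h1 := h.pσ (σ.symm v)
  rw [Equiv.apply_symm_apply, ← he, h.pp] at h1
  exact h1 rfl

theorem Good.σp_ne (h : Good σ p τ) (v : V) : σ (p v) ≠ v := by
  intro he
  have h1 := h.pσ (p v)
  rw [h.pp] at h1
  exact h1 he.symm

theorem Good.tp_ne (h : Good σ p τ) (v : V) : σ.symm (p v) ≠ v := by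
  intro he
  have h1 := h.p_ne_pred (p v)
  rw [h.pp] at h1
  exact h1 he.symm

theorem psi_of_p {u : V} (hu : τ (p u) = τ u) : psi σ p τ u = p u := by
  unfold psi
  rw [if_pos hu]

theorem Good.psi_of_s (h : Good σ p τ) {u : V} (hu : τ (σ (p u)) = τ u) :
    psi σ p τ u = σ (p u) := by
  unfold psi
  have h1 : τ (p u) ≠ τ u := fun he => h.ne_succ (p u) (hu.trans he.symm)
  rw [if_neg h1, if_pos hu]

theorem Good.psi_of_t (h : Good σ p τ) {u : V} (hu : τ (σ.symm (p u)) = τ u) :
    psi σ p τ u = σ.symm (p u) := by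
  unfold psi
  have h1 : τ (p u) ≠ τ u := fun he => h.ne_pred (p u) (hu.trans he.symm)
  have h2 : τ (σ (p u)) ≠ τ u := fun he => h.ne_around (p u) (he.trans hu.symm)
  rw [if_neg h1, if_neg h2, if_pos hu]

theorem psi_cases (u : V) :
    (psi σ p τ u = p u ∧ τ (p u) = τ u) ∨ (psi σ p τ u = σ (p u) ∧ τ (σ (p u)) = τ u) ∨
      (psi σ p τ u = σ.symm (p u) ∧ τ (σ.symm (p u)) = τ u) ∨ psi σ p τ u = u := by
  unfold psi
  split_ifs with h1 h2 h3
  · exact Or.inl ⟨rfl, h1⟩
  · exact Or.inr (Or.inl ⟨rfl, h2⟩)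
  · exact Or.inr (Or.inr (Or.inl ⟨rfl, h3⟩))
  · exact Or.inr (Or.inr (Or.inr rfl))

theorem τ_psi (u : V) : τ (psi σ p τ u) = τ u := by
  rcases psi_cases (σ := σ) (p := p) (τ := τ) u with ⟨h1, h2⟩ | ⟨h1, h2⟩ | ⟨h1, h2⟩ | h1
  · rw [h1, h2]
  · rw [h1, h2]
  · rw [h1, h2]
  · rw [h1]

theorem τ_iter (u : V) (n : ℕ) : τ ((psi σ p τ)^[n] u) = τ u := by
  induction n with
  | zero => rfl
  | succ n ih => rw [iterate_succ_apply', τ_psi (σ := σ) (p := p) (τ := τ), ih]

theorem Good.psi_D (h : Good σ p τ) {u : V} (hu : τ u = .D) : psi σ p τ u = u := by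
  rcases psi_cases (σ := σ) (p := p) (τ := τ) u with ⟨h1, h2⟩ | ⟨h1, h2⟩ | ⟨h1, h2⟩ | h1
  · rw [h1]
    by_contra hne
    exact h.d1 u (p u) hu (h2.trans hu) (fun e => hne e.symm) rfl
  · exact absurd rfl (h.d2 u (σ (p u)) hu (h2.trans hu) (fun e => h.σp_ne u e.symm))
  · exact absurd rfl (h.d3 u (σ.symm (p u)) hu (h2.trans hu) (fun e => h.tp_ne u e.symm))
  · exact h1

/-- a `B` whose partner is a `D` is absorbing -/
theorem Good.psi_BD (h : Good σ p τ) {u : V} (hu : τ u = .B) (hp : τ (p u) = .D) :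
    psi σ p τ u = u := by
  rcases psi_cases (σ := σ) (p := p) (τ := τ) u with ⟨h1, h2⟩ | ⟨h1, h2⟩ | ⟨h1, h2⟩ | h1
  · rw [hp, hu] at h2; cases h2
  · have := h.tr (p u)
    rw [hp, h2, hu] at this
    exact this.elim
  · have := h.tr' (p u)
    rw [hp, h2, hu] at this
    exact this.elim
  · exact h1

/-- the special vertices: those on an odd cycle of `psi`, or matched inside their letter -/
def Spec (σ : Equiv.Perm V) (p : V → V) (τ : V → Let) (u : V) : Prop :=
  u ∈ periodicPts (psi σ p τ) ∧ psi σ p τ u ≠ u ∧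
    (Odd (minimalPeriod (psi σ p τ) u) ∨ τ (p u) = τ u)

theorem Good.N_two (h : Good σ p τ) {u : V} (hu : τ (p u) = τ u) (n : ℕ) :
    (psi σ p τ)^[n] u = u ∨ (psi σ p τ)^[n] u = p u := by
  induction n with
  | zero => exact Or.inl rfl
  | succ n ih =>
    rw [iterate_succ_apply']
    rcases ih with ih | ih
    · rw [ih, psi_of_p hu]; exact Or.inr rfl
    · rw [ih, psi_of_p (by rw [h.pp]; exact hu.symm), h.pp]; exact Or.inl rfl

theorem Good.spec_of_N (h : Good σ p τ) {u : V} (hu : τ (p u) = τ u) (hne : p u ≠ u) :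
    Spec σ p τ u := by
  refine ⟨?_, ?_, Or.inr hu⟩
  · refine mem_periodicPts.mpr ⟨2, by norm_num, ?_⟩
    show psi σ p τ (psi σ p τ u) = u
    rw [psi_of_p hu, psi_of_p (by rw [h.pp]; exact hu.symm), h.pp]
  · rw [psi_of_p hu]; exact hne

theorem Good.spec_psi (h : Good σ p τ) {u : V} (hu : Spec σ p τ u) :
    Spec σ p τ (psi σ p τ u) := by
  obtain ⟨h1, h2, h3⟩ := hu
  refine ⟨?_, ?_, ?_⟩
  · obtain ⟨n, hn, hper⟩ := mem_periodicPts.mp h1
    exact mem_periodicPts.mpr ⟨n, hn, hper.apply⟩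
  · intro he
    obtain ⟨n, hn, hper⟩ := mem_periodicPts.mp h1
    have h4 : ∀ k, (psi σ p τ)^[k] (psi σ p τ u) = psi σ p τ u := fun k => iterate_fixed he k
    have h5 : (psi σ p τ)^[n - 1 + 1] u = u := by
      rw [Nat.sub_add_cancel hn]; exact hper
    rw [iterate_succ_apply, h4] at h5
    exact h2 h5
  · rcases h3 with h3 | h3
    · left
      rw [minimalPeriod_apply h1]; exact h3
    · right
      rw [psi_of_p h3, h.pp]; exact h3.symm

theorem Good.spec_iter (h : Good σ p τ) {u : V} (hu : Spec σ p τ u) (n : ℕ) :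
    Spec σ p τ ((psi σ p τ)^[n] u) := by
  induction n with
  | zero => exact hu
  | succ n ih => rw [iterate_succ_apply']; exact h.spec_psi ih

/-- the classes: special cycles, and singletons -/
def Rel (σ : Equiv.Perm V) (p : V → V) (τ : V → Let) (u v : V) : Prop :=
  u = v ∨ (Spec σ p τ u ∧ ∃ n, (psi σ p τ)^[n] u = v)

theorem Good.rel_symm (h : Good σ p τ) {u v : V} (huv : Rel σ p τ u v) : Rel σ p τ v u := by
  rcases huv with rfl | ⟨hs, n, hn⟩
  · exact Or.inl rfl
  · right
    refine ⟨hn ▸ h.spec_iter hs n, ?_⟩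
    obtain ⟨m, hm, hper⟩ := mem_periodicPts.mp hs.1
    refine ⟨n * m - n, ?_⟩
    rw [← hn, ← iterate_add_apply, Nat.sub_add_cancel (Nat.le_mul_of_pos_right n hm), mul_comm]
    exact hper.mul_const n

theorem Good.rel_trans (_ : Good σ p τ) {u v w : V} (huv : Rel σ p τ u v)
    (hvw : Rel σ p τ v w) : Rel σ p τ u w := by
  rcases huv with rfl | ⟨hs, n, hn⟩
  · exact hvw
  · rcases hvw with rfl | ⟨_, m, hm⟩
    · exact Or.inr ⟨hs, n, hn⟩
    · exact Or.inr ⟨hs, m + n, by rw [iterate_add_apply, hn, hm]⟩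

/-- the setoid of classes -/
def Good.setoid (h : Good σ p τ) : Setoid V where
  r := Rel σ p τ
  iseqv := ⟨fun _ => Or.inl rfl, fun hab => h.rel_symm hab, fun hab hbc => h.rel_trans hab hbc⟩

/-- the class map -/
def Good.κ (h : Good σ p τ) (v : V) : Quotient h.setoid := Quotient.mk h.setoid v

theorem Good.κ_eq (h : Good σ p τ) {u v : V} : h.κ u = h.κ v ↔ Rel σ p τ u v :=
  Quotient.eq (r := h.setoid)

theorem Good.κ_psi (h : Good σ p τ) {u : V} (hu : Spec σ p τ u) : h.κ (psi σ p τ u) = h.κ u :=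
  (h.κ_eq.mpr (Or.inr ⟨hu, 1, rfl⟩)).symm

theorem Rel.τ_eq {u v : V} (huv : Rel σ p τ u v) : τ v = τ u := by
  rcases huv with rfl | ⟨_, n, hn⟩
  · rfl
  · rw [← hn, τ_iter (σ := σ) (p := p) (τ := τ)]

theorem Good.rel_spec (h : Good σ p τ) {u v : V} (huv : Rel σ p τ u v) (hu : Spec σ p τ u) :
    Spec σ p τ v := by
  rcases huv with rfl | ⟨_, n, hn⟩
  · exact hu
  · exact hn ▸ h.spec_iter hu n

/-- a special class is not contained in a pair `{x, y}` such that `p` maps neither point of the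
class-letter onto the other one. -/
theorem Good.exists_not_pair (h : Good σ p τ) {u : V} (hu : Spec σ p τ u) (x y : V)
    (hxy : τ (p y) ≠ τ u) : ∃ v, Rel σ p τ u v ∧ v ≠ x ∧ v ≠ y := by
  obtain ⟨hper, hne, hcase⟩ := id hu
  have hr : ∀ n, Rel σ p τ u ((psi σ p τ)^[n] u) := fun n => Or.inr ⟨hu, n, rfl⟩
  rcases hcase with hodd | hN
  · -- three distinct points `u, ψ u, ψ² u`
    set m := minimalPeriod (psi σ p τ) u with hm
    have hm1 : m ≠ 1 := by
      intro h1
      apply hne
      have := isPeriodicPt_minimalPeriod (psi σ p τ) u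
      rw [← hm, h1] at this
      exact this
    have hm3 : 3 ≤ m := by
      obtain ⟨k, hk⟩ := hodd
      omega
    have hinj : ∀ i j, i < 3 → j < 3 → (psi σ p τ)^[i] u = (psi σ p τ)^[j] u → i = j := by
      intro i j hi hj he
      exact (iterate_eq_iterate_iff_of_lt_minimalPeriod (by omega) (by omega)).mp he
    by_contra hcon
    push Not at hcon
    have h0 := hcon _ (hr 0)
    have h1 := hcon _ (hr 1)
    have h2 := hcon _ (hr 2)
    by_cases e0 : (psi σ p τ)^[0] u = x
    · have n1 : (psi σ p τ)^[1] u ≠ x := fun e => by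
        have := hinj 1 0 (by norm_num) (by norm_num) (e.trans e0.symm); omega
      have n2 : (psi σ p τ)^[2] u ≠ x := fun e => by
        have := hinj 2 0 (by norm_num) (by norm_num) (e.trans e0.symm); omega
      have := hinj 1 2 (by norm_num) (by norm_num) ((h1 n1).trans (h2 n2).symm)
      omega
    · by_cases e1 : (psi σ p τ)^[1] u = x
      · have n2 : (psi σ p τ)^[2] u ≠ x := fun e => by
          have := hinj 2 1 (by norm_num) (by norm_num) (e.trans e1.symm); omega
        have := hinj 0 2 (by norm_num) (by norm_num) ((h0 e0).trans (h2 n2).symm)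
        omega
      · have := hinj 0 1 (by norm_num) (by norm_num) ((h0 e0).trans (h1 e1).symm)
        omega
  · have hpu : psi σ p τ u = p u := psi_of_p hN
    rw [hpu] at hne
    have hyu : u ≠ y := fun e => hxy (e ▸ hN)
    have hyp : p u ≠ y := fun e => hxy (by rw [← e, h.pp])
    by_cases e : u = x
    · refine ⟨p u, ?_, fun e' => hne (e'.trans e.symm), hyp⟩
      have := hr 1
      rwa [iterate_one, hpu] at this
    · exact ⟨u, Or.inl rfl, e, hyu⟩

/-! ### the `A` classes -/

/-- preceded by a `D` -/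
def XA (σ : Equiv.Perm V) (τ : V → Let) (a : V) : Prop := τ (σ.symm a) = .D

/-- matched to a `D` -/
def YA (p : V → V) (τ : V → Let) (a : V) : Prop := τ (p a) = .D

/-- `X` never maps to `X` -/
theorem Good.XX (h : Good σ p τ) {a : V} (hx : XA σ τ a)
    (hne : psi σ p τ a ≠ a) : ¬ XA σ τ (psi σ p τ a) := by
  intro hx'
  set b := psi σ p τ a with hb
  have hdd : σ.symm a ≠ σ.symm b := fun e => hne (σ.symm.injective e).symm
  rcases psi_cases (σ := σ) (p := p) (τ := τ) a with ⟨h1, _⟩ | ⟨h1, _⟩ | ⟨h1, _⟩ | h1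
  · apply h.d4 (σ.symm a) (σ.symm b) hx hx' hdd
    rw [Equiv.apply_symm_apply, hb, h1]
  · apply h.d3 (σ.symm b) (σ.symm a) hx' hx hdd.symm
    rw [hb, h1, Equiv.symm_apply_apply, h.pp]
  · apply h.d5 (σ.symm a) (σ.symm b) hx hx' hdd
    rw [Equiv.apply_symm_apply, hb, h1]
  · exact hne h1

/-- `Y` maps to `X` -/
theorem Good.YX (h : Good σ p τ) {a : V} (ha : τ a = .A) (hy : YA p τ a) :
    XA σ τ (psi σ p τ a) := by
  have h1 : τ (σ (p a)) = .A := by
    have := h.tr (p a)
    rw [show τ (p a) = .D from hy] at this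
    cases hh : τ (σ (p a)) <;> rw [hh] at this <;> exact this.elim
  have h2 : psi σ p τ a = σ (p a) := h.psi_of_s (h1.trans ha.symm)
  unfold XA
  rw [h2, Equiv.symm_apply_apply]
  exact hy

/-- every special `A` class has a vertex which is not adjacent to a `D` -/
theorem Good.exists_A (h : Good σ p τ) {u : V} (hu : Spec σ p τ u) (ha : τ u = .A) :
    ∃ v, Rel σ p τ u v ∧ ¬ XA σ τ v ∧ ¬ YA p τ v := by
  by_contra hcon
  push Not at hcon
  have hr : ∀ n, Rel σ p τ u ((psi σ p τ)^[n] u) := fun n => Or.inr ⟨hu, n, rfl⟩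
  have hA : ∀ n, τ ((psi σ p τ)^[n] u) = .A := fun n => (Rel.τ_eq (hr n)).trans ha
  have hxy : ∀ n, ¬ XA σ τ ((psi σ p τ)^[n] u) → YA p τ ((psi σ p τ)^[n] u) :=
    fun n => hcon _ (hr n)
  have hstep : ∀ n, XA σ τ ((psi σ p τ)^[n + 1] u) ↔ ¬ XA σ τ ((psi σ p τ)^[n] u) := by
    intro n
    rw [iterate_succ_apply']
    constructor
    · intro h1 h2
      exact h.XX h2 (h.spec_iter hu n).2.1 h1
    · intro h1
      exact h.YX (hA n) (hxy n h1)
  have hpar : ∀ n, XA σ τ ((psi σ p τ)^[n] u) ↔ (XA σ τ u ↔ Even n) := by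
    intro n
    induction n with
    | zero => simp
    | succ n ih =>
      rw [hstep n, ih, Nat.even_add_one]
      tauto
  obtain ⟨hper, hne, hcase⟩ := hu
  rcases hcase with hodd | hN
  · have h1 := hpar (minimalPeriod (psi σ p τ) u)
    rw [isPeriodicPt_minimalPeriod (psi σ p τ) u] at h1
    have h2 : ¬ Even (minimalPeriod (psi σ p τ) u) := Nat.not_even_iff_odd.mpr hodd
    tauto
  · have h1 : ¬ YA p τ u := by
      intro hy
      unfold YA at hy
      rw [hN, ha] at hy
      cases hy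
    have h2 : XA σ τ u := by
      by_contra hx
      exact h1 (hxy 0 hx)
    have h3 : ¬ XA σ τ ((psi σ p τ)^[1] u) := by
      rw [hpar 1]
      simp [h2]
    have h4 := hxy 1 h3
    rw [iterate_one, psi_of_p hN] at h4
    unfold YA at h4
    rw [h.pp, ha] at h4
    cases h4

/-! ### the choice of representatives -/

/-- the adjacency between a `B` and a `C` -/
def AdjBC (σ : Equiv.Perm V) (p : V → V) (b c : V) : Prop := c = σ b ∨ c = p b

theorem Good.tokens (h : Good σ p τ) {b c : V} (hb : Spec σ p τ b) (hbB : τ b = .B)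
    (hc : Spec σ p τ c) (hcC : τ c = .C) (hadj : AdjBC σ p b c) :
    h.κ (σ b) = h.κ c ∧ h.κ (σ.symm c) = h.κ b := by
  rcases hadj with rfl | rfl
  · exact ⟨rfl, by rw [Equiv.symm_apply_apply]⟩
  · have h1 : τ (σ.symm (p b)) = .B := by
      have := h.tr' (p b)
      rw [hcC] at this
      cases hh : τ (σ.symm (p b)) <;> rw [hh] at this <;> exact this.elim
    have h2 : psi σ p τ b = σ.symm (p b) := h.psi_of_t (h1.trans hbB.symm)
    have h3 : τ (σ b) = .C := by
      have := h.tr b
      rw [hbB] at this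
      cases hh : τ (σ b) <;> rw [hh] at this <;> exact this.elim
    have h4 : psi σ p τ (p b) = σ b := by
      have := h.psi_of_s (u := p b) (by rw [h.pp, h3, hcC])
      rwa [h.pp] at this
    constructor
    · rw [← h4]; exact h.κ_psi hc
    · rw [← h2]; exact h.κ_psi hb

theorem Good.reps [Finite V] [Nonempty V] (h : Good σ p τ) :
    ∃ ρ : V → V, (∀ u, Spec σ p τ u → Rel σ p τ u (ρ u)) ∧
      (∀ u v, Spec σ p τ u → Rel σ p τ u v → ρ v = ρ u) ∧
      (∀ u, Spec σ p τ u → τ u = .A → ¬ XA σ τ (ρ u) ∧ ¬ YA p τ (ρ u)) ∧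
      (∀ b c, Spec σ p τ b → τ b = .B → Spec σ p τ c → τ c = .C → ¬ AdjBC σ p (ρ b) (ρ c)) := by
  classical
  -- the A-part
  have hAex : ∀ q : Quotient h.setoid, ∃ v : V, ∀ u, Spec σ p τ u → τ u = .A → h.κ u = q →
      Rel σ p τ u v ∧ ¬ XA σ τ v ∧ ¬ YA p τ v := by
    intro q
    by_cases hq : ∃ u, Spec σ p τ u ∧ τ u = .A ∧ h.κ u = q
    · obtain ⟨u, hu, hA, hκ⟩ := hq
      obtain ⟨v, hv1, hv2, hv3⟩ := h.exists_A hu hA
      refine ⟨v, fun w hw hwA hwκ => ⟨?_, hv2, hv3⟩⟩
      exact h.rel_trans (h.κ_eq.mp (hwκ.trans hκ.symm)) hv1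
    · exact ⟨Classical.arbitrary V, fun u h1 h2 h3 => absurd ⟨u, h1, h2, h3⟩ hq⟩
  choose α hα using hAex
  -- the B, C part
  obtain ⟨f, g, hf, hg, hfg⟩ := selection h.κ (fun b => Spec σ p τ b ∧ τ b = .B)
    (fun c => Spec σ p τ c ∧ τ c = .C) (AdjBC σ p) (fun b => h.κ (σ b))
    (fun c => h.κ (σ.symm c))
    (fun b c hb hc hadj => h.tokens hb.1 hb.2 hc.1 hc.2 hadj)
    (by
      intro b c hb hc
      obtain ⟨v, hv1, hv2, hv3⟩ := h.exists_not_pair hb.1 (σ.symm c) (p c)
        (by rw [h.pp, hc.2, hb.2]; exact fun e => by cases e)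
      refine ⟨v, ⟨h.rel_spec hv1 hb.1, (Rel.τ_eq hv1).trans hb.2⟩, (h.κ_eq.mpr hv1).symm, ?_⟩
      rintro (e | e)
      · exact hv2 (by rw [e, Equiv.symm_apply_apply])
      · exact hv3 (by rw [e, h.pp]))
    (by
      intro b c hb hc
      obtain ⟨v, hv1, hv2, hv3⟩ := h.exists_not_pair hc.1 (σ b) (p b)
        (by rw [h.pp, hc.2, hb.2]; exact fun e => by cases e)
      refine ⟨v, ⟨h.rel_spec hv1 hc.1, (Rel.τ_eq hv1).trans hc.2⟩, (h.κ_eq.mpr hv1).symm, ?_⟩
      rintro (e | e)
      · exact hv2 e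
      · exact hv3 e)
  refine ⟨fun u => if τ u = .A then α (h.κ u) else if τ u = .B then f (h.κ u) else
    if τ u = .C then g (h.κ u) else u, ?_, ?_, ?_, ?_⟩
  · intro u hu
    cases hτ : τ u
    · simp only [hτ, if_true]
      exact (hα (h.κ u) u hu hτ rfl).1
    · simp only [hτ, reduceCtorEq, if_false, if_true]
      exact h.κ_eq.mp (hf u ⟨hu, hτ⟩).2.symm
    · simp only [hτ, reduceCtorEq, if_false, if_true]
      exact h.κ_eq.mp (hg u ⟨hu, hτ⟩).2.symm
    · exact absurd (h.psi_D hτ) hu.2.1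
  · intro u v hu huv
    have h1 : τ v = τ u := Rel.τ_eq huv
    have h2 : h.κ v = h.κ u := (h.κ_eq.mpr huv).symm
    simp only [h1, h2]
    cases hτ : τ u
    · simp
    · simp
    · simp
    · exact absurd (h.psi_D hτ) hu.2.1
  · intro u hu hA
    simp only [hA, if_pos]
    exact (hα (h.κ u) u hu hA rfl).2
  · intro b c hb hbB hc hcC
    simp only [hbB, hcC, reduceCtorEq, if_false, if_true]
    exact hfg b c ⟨hb, hbB⟩ ⟨hc, hcC⟩

/-! ### the labelling -/

theorem lab_le (X : Let) (a b : Bool) : lab X a b ≤ 9 := by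
  cases X <;> cases a <;> cases b <;> simp [lab]

theorem lab_ne {X Y : Let} (hXY : X ≠ Y) (a b c d : Bool) : lab X a b ≠ lab Y c d := by
  cases X <;> cases Y <;> cases a <;> cases b <;> cases c <;> cases d <;> simp_all [lab]

theorem Far.symm {a b : ℕ} (h : Far a b) : Far b a := Or.symm h

/-- **Core theorem.** -/
theorem Good.label [Finite V] (h : Good σ p τ) :
    ∃ f : V → ℕ, (∀ v, f v ≤ 9) ∧ (∀ v, Far (f (σ v)) (f v)) ∧
      (∀ v, p v ≠ v → Far (f (p v)) (f v)) ∧ (∀ v, f (σ (σ v)) ≠ f v) ∧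
      (∀ v, p v ≠ v → f (σ (p v)) ≠ f v) ∧ (∀ v, p v ≠ v → f (σ.symm (p v)) ≠ f v) := by
  classical
  rcases isEmpty_or_nonempty V with hV | hV
  · exact ⟨fun _ => 0, fun v => (hV.false v).elim, fun v => (hV.false v).elim,
      fun v => (hV.false v).elim, fun v => (hV.false v).elim, fun v => (hV.false v).elim,
      fun v => (hV.false v).elim⟩
  obtain ⟨ρ, hρ1, hρ2, hρA, hρBC⟩ := h.reps
  set ψ := psi σ p τ with hψ
  let R : V → Prop := fun u => Spec σ p τ u ∧ ρ u = u
  have hRψ : ∀ u, R u → ¬ R (ψ u) := by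
    rintro u ⟨h1, h2⟩ ⟨_, h4⟩
    rw [hρ2 u (ψ u) h1 (Or.inr ⟨h1, 1, rfl⟩), h2] at h4
    exact h1.2.1 h4.symm
  have hRρ : ∀ u, Spec σ p τ u → R (ρ u) := by
    intro u hu
    exact ⟨h.rel_spec (hρ1 u hu) hu, hρ2 u (ρ u) hu (hρ1 u hu)⟩
  let φ : V → V := fun u => if R u ∨ R (ψ u) then u else ψ u
  have hφ : ∀ x, φ x ≠ x → φ x = ψ x ∧ ¬ R x := by
    intro x hx
    by_cases hR : R x ∨ R (ψ x)
    · exact absurd (if_pos hR) hx
    · exact ⟨if_neg hR, fun hr => hR (Or.inl hr)⟩
  have hev : ∀ x, x ∈ periodicPts φ → φ x ≠ x → Even (minimalPeriod φ x) := by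
    intro x hx hne
    have hnf : ∀ n, φ (φ^[n] x) ≠ φ^[n] x := by
      intro n hfix
      obtain ⟨m, hm, hper⟩ := mem_periodicPts.mp hx
      have h1 : φ^[n * m] x = x := by
        have := hper.const_mul n
        exact this
      have h2 : φ^[n * m] x = φ^[n] x := by
        have h3 : n * m = (n * m - n) + n :=
          (Nat.sub_add_cancel (Nat.le_mul_of_pos_right n hm)).symm
        rw [h3, iterate_add_apply]
        exact iterate_fixed hfix _
      rw [← h2, h1] at hfix
      exact hne hfix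
    have heq : ∀ n, φ^[n] x = ψ^[n] x := by
      intro n
      induction n with
      | zero => rfl
      | succ n ih => rw [iterate_succ_apply', iterate_succ_apply', (hφ _ (hnf n)).1, ih]
    have hmin : minimalPeriod φ x = minimalPeriod ψ x := by
      rw [minimalPeriod_eq_minimalPeriod_iff]
      intro n
      unfold IsPeriodicPt IsFixedPt
      rw [heq n]
    by_contra hodd
    rw [Nat.not_even_iff_odd, hmin] at hodd
    have hxψ : x ∈ periodicPts ψ := by
      obtain ⟨m, hm, hper⟩ := mem_periodicPts.mp hx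
      refine mem_periodicPts.mpr ⟨m, hm, ?_⟩
      unfold IsPeriodicPt IsFixedPt at hper ⊢
      rwa [← heq m]
    have hS : Spec σ p τ x := by
      refine ⟨hxψ, ?_, Or.inl hodd⟩
      rw [← hψ, ← (hφ x hne).1]
      exact hne
    rcases hρ1 x hS with he | ⟨_, n, hn⟩
    · have := hRρ x hS
      rw [← he] at this
      exact (hφ x hne).2 this
    · have h5 := (hφ _ (hnf n)).2
      rw [heq n, hψ, hn] at h5
      exact h5 (hRρ x hS)
  obtain ⟨g, hg1, hg2⟩ := parity φ (fun u => decide (τ (p u) = .D)) hev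
  have hg3 : ∀ u, ψ u = u → g u = decide (τ (p u) = .D) := by
    intro u hu
    apply hg2
    show (if R u ∨ R (ψ u) then u else ψ u) = u
    split_ifs
    · rfl
    · exact hu
  have hg4 : ∀ u, R (ψ u) → g u = decide (τ (p u) = .D) := by
    intro u hu
    exact hg2 u (if_pos (Or.inr hu))
  have hg5 : ∀ u, ψ u ≠ u → ¬ R u → ¬ R (ψ u) → g (ψ u) = !(g u) := by
    intro u hu h1 h2
    have h3 : φ u = ψ u := if_neg (by tauto)
    rw [← h3]
    exact hg1 u (by rw [h3]; exact hu)
  let f : V → ℕ := fun v => lab (τ v) (decide (R v)) (g v)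
  have hf : ∀ v, f v = lab (τ v) (decide (R v)) (g v) := fun _ => rfl
  -- same-letter pairs
  have K1 : ∀ v, ψ v ≠ v → f (ψ v) ≠ f v := by
    intro v hv
    have hD : τ v ≠ .D := fun hD => hv (h.psi_D hD)
    rw [hf, hf, τ_psi (σ := σ) (p := p) (τ := τ)]
    by_cases h1 : R v
    · have h2 := hRψ v h1
      simp only [h1, h2, decide_true, decide_false]
      cases hτ : τ v <;> cases g v <;> cases g (ψ v) <;> simp_all [lab]
    · by_cases h2 : R (ψ v)
      · simp only [h1, h2, decide_true, decide_false]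
        cases hτ : τ v <;> cases g v <;> cases g (ψ v) <;> simp_all [lab]
      · rw [hg5 v hv h1 h2]
        simp only [h1, h2, decide_false]
        cases hτ : τ v <;> cases g v <;> simp_all [lab]
  -- matched pairs with the same letter
  have K2 : ∀ v, τ (p v) = τ v → p v ≠ v → R v → Far (f (p v)) (f v) := by
    intro v hN hne hR
    have hD : τ v ≠ .D := fun hD => h.d1 v (p v) hD (hN.trans hD) hne.symm rfl
    have hψv : ψ v = p v := psi_of_p hN
    have hψp : ψ (p v) = v := by
      have := psi_of_p (σ := σ) (p := p) (τ := τ) (u := p v) (by rw [h.pp]; exact hN.symm)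
      rwa [h.pp] at this
    have h1 : ¬ R (p v) := hψv ▸ hRψ v hR
    have h2 : g (p v) = false := by
      rw [hg4 (p v) (by rw [hψp]; exact hR), h.pp]
      simpa using hD
    rw [hf, hf, hN, h2]
    simp only [hR, h1, decide_true, decide_false]
    cases hτ : τ v <;> simp_all [lab, Far]
  have K3 : ∀ v, τ (p v) = τ v → p v ≠ v → Far (f (p v)) (f v) := by
    intro v hN hne
    have hS := h.spec_of_N hN hne
    have h1 : ρ v = v ∨ ρ v = p v := by
      rcases hρ1 v hS with he | ⟨_, n, hn⟩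
      · exact Or.inl he.symm
      · rcases h.N_two hN n with e | e
        · exact Or.inl (hn.symm.trans e)
        · exact Or.inr (hn.symm.trans e)
    rcases h1 with h1 | h1
    · exact K2 v hN hne ⟨hS, h1⟩
    · have h2 : R (p v) := h1 ▸ hRρ v hS
      have h3 := K2 (p v) (by rw [h.pp]; exact hN.symm) (by rw [h.pp]; exact hne.symm) h2
      rw [h.pp] at h3
      exact h3.symm
  -- the B – D pairs
  have K4 : ∀ v, τ v = .B → τ (p v) = .D → Far (f (p v)) (f v) := by
    intro v hB hD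
    have h1 : ψ v = v := h.psi_BD hB hD
    have h2 : ¬ R v := fun hR => hR.1.2.1 h1
    rw [hf, hf, hB, hD, hg3 v h1, hD]
    simp [h2, lab, Far]
  -- the A – D pairs
  have K5 : ∀ v, τ v = .A → τ (p v) = .D → Far (f (p v)) (f v) := by
    intro v hA hD
    have h2 : ¬ R v := by
      rintro ⟨h3, h4⟩
      have := (hρA v h3 hA).2
      rw [h4] at this
      exact this hD
    rw [hf, hf, hA, hD]
    simp only [h2, decide_false]
    cases g v <;> simp [lab, Far]
  -- the B – C pairs
  have K6 : ∀ b c, τ b = .B → τ c = .C → AdjBC σ p b c → Far (f c) (f b) := by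
    intro b c hB hC hadj
    have h2 : ¬ (R b ∧ R c) := by
      rintro ⟨⟨h3, h4⟩, ⟨h5, h6⟩⟩
      have := hρBC b c h3 hB h5 hC
      rw [h4, h6] at this
      exact this hadj
    rw [hf, hf, hB, hC]
    by_cases h3 : R b
    · have h4 : ¬ R c := fun h4 => h2 ⟨h3, h4⟩
      simp only [h3, h4, decide_true, decide_false]
      cases g b <;> cases g c <;> simp [lab, Far]
    · simp only [h3, decide_false]
      cases g b <;> cases g c <;> by_cases h4 : R c <;> simp [lab, Far, h4]
  -- a matched pair in one of the two orders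
  have K7 : ∀ v, p v ≠ v → (τ v = τ (p v) ∨ (τ v = .A ∧ τ (p v) ≠ .A) ∨
      (τ v = .B ∧ (τ (p v) = .C ∨ τ (p v) = .D)) ∨ (τ v = .C ∧ τ (p v) = .D)) →
      Far (f (p v)) (f v) := by
    rintro v hne (h1 | ⟨h1, h2⟩ | ⟨h1, h2 | h2⟩ | ⟨h1, h2⟩)
    · exact K3 v h1.symm hne
    · cases hp : τ (p v)
      · exact absurd hp h2
      · rw [hf, hf, h1, hp]
        generalize decide (R v) = a; generalize g v = b
        generalize decide (R (p v)) = c; generalize g (p v) = d
        cases a <;> cases b <;> cases c <;> cases d <;> simp [lab, Far]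
      · rw [hf, hf, h1, hp]
        generalize decide (R v) = a; generalize g v = b
        generalize decide (R (p v)) = c; generalize g (p v) = d
        cases a <;> cases b <;> cases c <;> cases d <;> simp [lab, Far]
      · exact K5 v h1 hp
    · exact K6 v (p v) h1 h2 (Or.inr rfl)
    · exact K4 v h1 h2
    · rw [hf, hf, h1, h2]
      generalize decide (R v) = a; generalize g v = b
      generalize decide (R (p v)) = c; generalize g (p v) = d
      cases a <;> cases b <;> cases c <;> cases d <;> simp [lab, Far]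
  refine ⟨f, fun v => lab_le _ _ _, ?_, ?_, ?_, ?_, ?_⟩
  · intro v
    have ht := h.tr v
    cases h1 : τ v <;> cases h2 : τ (σ v) <;> rw [h1, h2] at ht <;>
      first | exact ht.elim | skip
    · rw [hf, hf, h1, h2]
      generalize decide (R v) = a; generalize g v = b
      generalize decide (R (σ v)) = c; generalize g (σ v) = d
      cases a <;> cases b <;> cases c <;> cases d <;> simp [lab, Far]
    · exact K6 v (σ v) h1 h2 (Or.inl rfl)
    · rw [hf, hf, h1, h2]
      generalize decide (R v) = a; generalize g v = b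
      generalize decide (R (σ v)) = c; generalize g (σ v) = d
      cases a <;> cases b <;> cases c <;> cases d <;> simp [lab, Far]
    · rw [hf, hf, h1, h2]
      generalize decide (R v) = a; generalize g v = b
      generalize decide (R (σ v)) = c; generalize g (σ v) = d
      cases a <;> cases b <;> cases c <;> cases d <;> simp [lab, Far]
    · have h3 : ¬ R (σ v) := by
        rintro ⟨h3, h4⟩
        have := (hρA (σ v) h3 h2).1
        rw [h4] at this
        apply this
        unfold XA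
        rw [Equiv.symm_apply_apply]
        exact h1
      rw [hf, hf, h1, h2]
      simp only [h3, decide_false]
      cases g (σ v) <;> simp [lab, Far]
  · intro v hne
    have hne' : p (p v) ≠ p v := by rw [h.pp]; exact hne.symm
    have hrev : Far (f (p (p v))) (f (p v)) → Far (f (p v)) (f v) := by
      rw [h.pp]; exact Far.symm
    have hor : (τ v = τ (p v) ∨ (τ v = .A ∧ τ (p v) ≠ .A) ∨
        (τ v = .B ∧ (τ (p v) = .C ∨ τ (p v) = .D)) ∨ (τ v = .C ∧ τ (p v) = .D)) ∨
        (τ (p v) = τ v ∨ (τ (p v) = .A ∧ τ v ≠ .A) ∨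
        (τ (p v) = .B ∧ (τ v = .C ∨ τ v = .D)) ∨ (τ (p v) = .C ∧ τ v = .D)) := by
      cases τ v <;> cases τ (p v) <;> simp
    rcases hor with h1 | h1
    · exact K7 v hne h1
    · exact hrev (K7 (p v) hne' (by rw [h.pp]; exact h1))
  · intro v
    exact lab_ne (h.ne_two v) _ _ _ _
  · intro v hne
    by_cases hτ : τ (σ (p v)) = τ v
    · have h1 : ψ v = σ (p v) := h.psi_of_s hτ
      rw [← h1]
      exact K1 v (by rw [h1]; exact h.σp_ne v)
    · exact lab_ne hτ _ _ _ _
  · intro v hne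
    by_cases hτ : τ (σ.symm (p v)) = τ v
    · have h1 : ψ v = σ.symm (p v) := h.psi_of_t hτ
      rw [← h1]
      exact K1 v (by rw [h1]; exact h.tp_ne v)
    · exact lab_ne hτ _ _ _ _

end Core

end GY64
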