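import Pool.Agent.Lib_helper64.GY.Core

set_option autoImplicit false

/-!
# The core theorem with extra rare vertices

`Z` is a sparse set of `A`-vertices which receive the rare label `2`.
-/

namespace GY64

open Function

section CoreZ

variable {V : Type*} {σ : Equiv.Perm V} {p : V → V} {τ : V → Let}

/-- the hypotheses on the extra rare vertices -/
structure ZGood (σ : Equiv.Perm V) (p : V → V) (τ : V → Let) (Z : Set V) : Prop where
  zA : ∀ z ∈ Z, τ z = .A
  zX : ∀ z ∈ Z, ¬ XA σ τ z ∧ ¬ YA p τ z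
  z1 : ∀ z ∈ Z, psi σ p τ z ≠ z → psi σ p τ z ∉ Z
  z2 : ∀ z ∈ Z, psi σ p τ (psi σ p τ z) ≠ psi σ p τ z →
    ¬ XA σ τ (psi σ p τ (psi σ p τ z)) ∧ ¬ YA p τ (psi σ p τ (psi σ p τ z)) ∧
      ∀ z' ∈ Z, psi σ p τ z' ≠ psi σ p τ (psi σ p τ z)

theorem Good.exists_AZ (h : Good σ p τ) {Z : Set V} (hZ : ZGood σ p τ Z) {u : V}
    (hu : Spec σ p τ u) (ha : τ u = .A) :
    ∃ v, Rel σ p τ u v ∧ ¬ XA σ τ v ∧ ¬ YA p τ v ∧ ∀ z ∈ Z, psi σ p τ z ≠ v := by
  by_cases hc : ∃ z ∈ Z, Rel σ p τ u (psi σ p τ z)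
  · obtain ⟨z, hz, hrel⟩ := hc
    have h1 : Spec σ p τ (psi σ p τ z) := h.rel_spec hrel hu
    have h2 : psi σ p τ (psi σ p τ z) ≠ psi σ p τ z := h1.2.1
    obtain ⟨h3, h4, h5⟩ := hZ.z2 z hz h2
    exact ⟨_, h.rel_trans hrel (Or.inr ⟨h1, 1, rfl⟩), h3, h4, h5⟩
  · obtain ⟨v, hv1, hv2, hv3⟩ := h.exists_A hu ha
    refine ⟨v, hv1, hv2, hv3, fun z hz he => hc ⟨z, hz, ?_⟩⟩
    rw [he]; exact hv1

theorem Good.repsZ [Finite V] [Nonempty V] (h : Good σ p τ) {Z : Set V}
    (hZ : ZGood σ p τ Z) :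
    ∃ ρ : V → V, (∀ u, Spec σ p τ u → Rel σ p τ u (ρ u)) ∧
      (∀ u v, Spec σ p τ u → Rel σ p τ u v → ρ v = ρ u) ∧
      (∀ u, Spec σ p τ u → τ u = .A → ¬ XA σ τ (ρ u) ∧ ¬ YA p τ (ρ u) ∧
        ∀ z ∈ Z, psi σ p τ z ≠ ρ u) ∧
      (∀ b c, Spec σ p τ b → τ b = .B → Spec σ p τ c → τ c = .C → ¬ AdjBC σ p (ρ b) (ρ c)) := by
  classical
  -- the A-part
  have hAex : ∀ q : Quotient h.setoid, ∃ v : V, ∀ u, Spec σ p τ u → τ u = .A → h.κ u = q →
      Rel σ p τ u v ∧ ¬ XA σ τ v ∧ ¬ YA p τ v ∧ ∀ z ∈ Z, psi σ p τ z ≠ v := by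
    intro q
    by_cases hq : ∃ u, Spec σ p τ u ∧ τ u = .A ∧ h.κ u = q
    · obtain ⟨u, hu, hA, hκ⟩ := hq
      obtain ⟨v, hv1, hv2, hv3⟩ := h.exists_AZ hZ hu hA
      refine ⟨v, fun w hw hwA hwκ => ⟨?_, hv2, hv3⟩⟩
      exact h.rel_trans (h.κ_eq.mp (hwκ.trans hκ.symm)) hv1
    · exact ⟨Classical.arbitrary V, fun u h1 h2 h3 => absurd ⟨u, h1, h2, h3⟩ hq⟩
  choose α hα using hAex
  -- the B, C part
  obtain ⟨f, g, hf, hg, hfg⟩ := selection h.κ (fun b => Spec σ p τ b ∧ τ b = .B)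
    (fun c => Spec σ p τ c ∧ τ c = .C) (AdjBC σ p) (fun b => h.κ (σ b))
    (fun c => h.κ (σ.symm c))
    (fun b c hb hc hadj => h.tokens hb.1 hb.2 hc.1 hc.2 hadj)
    (by
      intro b c hb hc
      obtain ⟨v, hv1, hv2, hv3⟩ := h.exists_not_pair hb.1 (σ.symm c) (p c)
        (by rw [h.pp, hc.2, hb.2]; exact fun e => by cases e)
      refine ⟨v, ⟨h.rel_spec hv1 hb.1, (Rel.τ_eq hv1).trans hb.2⟩, (h.κ_eq.mpr hv1).symm, ?_⟩
      rintro (e | e)
      · exact hv2 (by rw [e, Equiv.symm_apply_apply])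
      · exact hv3 (by rw [e, h.pp]))
    (by
      intro b c hb hc
      obtain ⟨v, hv1, hv2, hv3⟩ := h.exists_not_pair hc.1 (σ b) (p b)
        (by rw [h.pp, hc.2, hb.2]; exact fun e => by cases e)
      refine ⟨v, ⟨h.rel_spec hv1 hc.1, (Rel.τ_eq hv1).trans hc.2⟩, (h.κ_eq.mpr hv1).symm, ?_⟩
      rintro (e | e)
      · exact hv2 e
      · exact hv3 e)
  refine ⟨fun u => if τ u = .A then α (h.κ u) else if τ u = .B then f (h.κ u) else
    if τ u = .C then g (h.κ u) else u, ?_, ?_, ?_, ?_⟩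
  · intro u hu
    cases hτ : τ u
    · simp only [hτ, if_true]
      exact (hα (h.κ u) u hu hτ rfl).1
    · simp only [hτ, reduceCtorEq, if_false, if_true]
      exact h.κ_eq.mp (hf u ⟨hu, hτ⟩).2.symm
    · simp only [hτ, reduceCtorEq, if_false, if_true]
      exact h.κ_eq.mp (hg u ⟨hu, hτ⟩).2.symm
    · exact absurd (h.psi_D hτ) hu.2.1
  · intro u v hu huv
    have h1 : τ v = τ u := Rel.τ_eq huv
    have h2 : h.κ v = h.κ u := (h.κ_eq.mpr huv).symm
    simp only [h1, h2]
    cases hτ : τ u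
    · simp
    · simp
    · simp
    · exact absurd (h.psi_D hτ) hu.2.1
  · intro u hu hA
    simp only [hA, if_pos]
    exact (hα (h.κ u) u hu hA rfl).2
  · intro b c hb hbB hc hcC
    simp only [hbB, hcC, reduceCtorEq, if_false, if_true]
    exact hfg b c ⟨hb, hbB⟩ ⟨hc, hcC⟩

/-- **Core theorem with extra rare vertices.** -/
theorem Good.labelZ [Finite V] (h : Good σ p τ) {Z : Set V} (hZ : ZGood σ p τ Z) :
    ∃ f : V → ℕ, (∀ v, f v ≤ 9) ∧ (∀ v, Far (f (σ v)) (f v)) ∧
      (∀ v, p v ≠ v → Far (f (p v)) (f v)) ∧ (∀ v, f (σ (σ v)) ≠ f v) ∧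
      (∀ v, p v ≠ v → f (σ (p v)) ≠ f v) ∧ (∀ v, p v ≠ v → f (σ.symm (p v)) ≠ f v) ∧
      (∀ u v, τ u ≠ τ v → f u ≠ f v) ∧ (∀ z ∈ Z, f z = 2) ∧
      (∀ w, τ w = .A → p w = w → w ∉ Z → f w = 0) := by
  classical
  rcases isEmpty_or_nonempty V with hV | hV
  · exact ⟨fun _ => 0, fun v => (hV.false v).elim, fun v => (hV.false v).elim,
      fun v => (hV.false v).elim, fun v => (hV.false v).elim, fun v => (hV.false v).elim,
      fun v => (hV.false v).elim, fun v => (hV.false v).elim, fun v _ => (hV.false v).elim,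
      fun v => (hV.false v).elim⟩
  obtain ⟨ρ, hρ1, hρ2, hρA, hρBC⟩ := h.repsZ hZ
  set ψ := psi σ p τ with hψ
  let R : V → Prop := fun u => u ∈ Z ∨ (Spec σ p τ u ∧ ρ u = u ∧ ∀ z ∈ Z, ¬ Rel σ p τ u z)
  have hRZ : ∀ u, τ u ≠ .A → R u → Spec σ p τ u ∧ ρ u = u := by
    rintro u hu (h1 | ⟨h1, h2, _⟩)
    · exact absurd (hZ.zA u h1) hu
    · exact ⟨h1, h2⟩
  have hRψ : ∀ u, ψ u ≠ u → R u → ¬ R (ψ u) := by
    rintro u hne (h1 | ⟨h1, h2, h3⟩) (h4 | ⟨h4, h5, h6⟩)
    · exact hZ.z1 u h1 hne h4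
    · have hA : τ (ψ u) = .A := (τ_psi (σ := σ) (p := p) (τ := τ) u).trans (hZ.zA u h1)
      exact (hρA (ψ u) h4 hA).2.2 u h1 h5.symm
    · exact h3 (ψ u) h4 (Or.inr ⟨h1, 1, rfl⟩)
    · rw [hρ2 u (ψ u) h1 (Or.inr ⟨h1, 1, rfl⟩), h2] at h5
      exact h1.2.1 h5.symm
  have hRρ : ∀ u, Spec σ p τ u → ∃ n, R (ψ^[n] u) := by
    intro u hu
    by_cases hc : ∃ z ∈ Z, Rel σ p τ u z
    · obtain ⟨z, hz, hrel⟩ := hc
      rcases hrel with rfl | ⟨_, n, hn⟩
      · exact ⟨0, Or.inl hz⟩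
      · exact ⟨n, Or.inl (hn ▸ hz)⟩
    · have hR : R (ρ u) := Or.inr ⟨h.rel_spec (hρ1 u hu) hu, hρ2 u (ρ u) hu (hρ1 u hu),
        fun z hz hrel => hc ⟨z, hz, h.rel_trans (hρ1 u hu) hrel⟩⟩
      rcases hρ1 u hu with he | ⟨_, n, hn⟩
      · exact ⟨0, by rw [← he] at hR; exact hR⟩
      · exact ⟨n, by rw [← hn] at hR; exact hR⟩
  let φ : V → V := fun u => if R u ∨ R (ψ u) then u else ψ u
  have hφ : ∀ x, φ x ≠ x → φ x = ψ x ∧ ¬ R x := by
    intro x hx
    by_cases hR : R x ∨ R (ψ x)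
    · exact absurd (if_pos hR) hx
    · exact ⟨if_neg hR, fun hr => hR (Or.inl hr)⟩
  have hev : ∀ x, x ∈ periodicPts φ → φ x ≠ x → Even (minimalPeriod φ x) := by
    intro x hx hne
    have hnf : ∀ n, φ (φ^[n] x) ≠ φ^[n] x := by
      intro n hfix
      obtain ⟨m, hm, hper⟩ := mem_periodicPts.mp hx
      have h1 : φ^[n * m] x = x := by
        have := hper.const_mul n
        exact this
      have h2 : φ^[n * m] x = φ^[n] x := by
        have h3 : n * m = (n * m - n) + n :=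
          (Nat.sub_add_cancel (Nat.le_mul_of_pos_right n hm)).symm
        rw [h3, iterate_add_apply]
        exact iterate_fixed hfix _
      rw [← h2, h1] at hfix
      exact hne hfix
    have heq : ∀ n, φ^[n] x = ψ^[n] x := by
      intro n
      induction n with
      | zero => rfl
      | succ n ih => rw [iterate_succ_apply', iterate_succ_apply', (hφ _ (hnf n)).1, ih]
    have hmin : minimalPeriod φ x = minimalPeriod ψ x := by
      rw [minimalPeriod_eq_minimalPeriod_iff]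
      intro n
      unfold IsPeriodicPt IsFixedPt
      rw [heq n]
    by_contra hodd
    rw [Nat.not_even_iff_odd, hmin] at hodd
    have hxψ : x ∈ periodicPts ψ := by
      obtain ⟨m, hm, hper⟩ := mem_periodicPts.mp hx
      refine mem_periodicPts.mpr ⟨m, hm, ?_⟩
      unfold IsPeriodicPt IsFixedPt at hper ⊢
      rwa [← heq m]
    have hS : Spec σ p τ x := by
      refine ⟨hxψ, ?_, Or.inl hodd⟩
      rw [← hψ, ← (hφ x hne).1]
      exact hne
    obtain ⟨n, hn⟩ := hRρ x hS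
    have h5 := (hφ _ (hnf n)).2
    rw [heq n] at h5
    exact h5 hn
  obtain ⟨g, hg1, hg2⟩ := parity φ (fun u => decide (τ (p u) = .D)) hev
  have hg3 : ∀ u, ψ u = u → g u = decide (τ (p u) = .D) := by
    intro u hu
    apply hg2
    show (if R u ∨ R (ψ u) then u else ψ u) = u
    split_ifs
    · rfl
    · exact hu
  have hg4 : ∀ u, R (ψ u) → g u = decide (τ (p u) = .D) := by
    intro u hu
    exact hg2 u (if_pos (Or.inr hu))
  have hg5 : ∀ u, ψ u ≠ u → ¬ R u → ¬ R (ψ u) → g (ψ u) = !(g u) := by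
    intro u hu h1 h2
    have h3 : φ u = ψ u := if_neg (by tauto)
    rw [← h3]
    exact hg1 u (by rw [h3]; exact hu)
  let f : V → ℕ := fun v => lab (τ v) (decide (R v)) (g v)
  have hf : ∀ v, f v = lab (τ v) (decide (R v)) (g v) := fun _ => rfl
  -- same-letter pairs
  have K1 : ∀ v, ψ v ≠ v → f (ψ v) ≠ f v := by
    intro v hv
    have hD : τ v ≠ .D := fun hD => hv (h.psi_D hD)
    rw [hf, hf, τ_psi (σ := σ) (p := p) (τ := τ)]
    by_cases h1 : R v
    · have h2 := hRψ v hv h1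
      simp only [h1, h2, decide_true, decide_false]
      cases hτ : τ v <;> cases g v <;> cases g (ψ v) <;> simp_all [lab]
    · by_cases h2 : R (ψ v)
      · simp only [h1, h2, decide_true, decide_false]
        cases hτ : τ v <;> cases g v <;> cases g (ψ v) <;> simp_all [lab]
      · rw [hg5 v hv h1 h2]
        simp only [h1, h2, decide_false]
        cases hτ : τ v <;> cases g v <;> simp_all [lab]
  -- matched pairs with the same letter
  have K2 : ∀ v, τ (p v) = τ v → p v ≠ v → R v → Far (f (p v)) (f v) := by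
    intro v hN hne hR
    have hD : τ v ≠ .D := fun hD => h.d1 v (p v) hD (hN.trans hD) hne.symm rfl
    have hψv : ψ v = p v := psi_of_p hN
    have hψp : ψ (p v) = v := by
      have := psi_of_p (σ := σ) (p := p) (τ := τ) (u := p v) (by rw [h.pp]; exact hN.symm)
      rwa [h.pp] at this
    have h1 : ¬ R (p v) := by
      have := hRψ v (by rw [hψv]; exact hne) hR
      rwa [hψv] at this
    have h2 : g (p v) = false := by
      rw [hg4 (p v) (by rw [hψp]; exact hR), h.pp]
      simpa using hD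
    rw [hf, hf, hN, h2]
    simp only [hR, h1, decide_true, decide_false]
    cases hτ : τ v <;> simp_all [lab, Far]
  have K3 : ∀ v, τ (p v) = τ v → p v ≠ v → Far (f (p v)) (f v) := by
    intro v hN hne
    have hS := h.spec_of_N hN hne
    have h1 : R v ∨ R (p v) := by
      obtain ⟨n, hn⟩ := hRρ v hS
      rcases h.N_two hN n with e | e
      · exact Or.inl (by rw [hψ, e] at hn; exact hn)
      · exact Or.inr (by rw [hψ, e] at hn; exact hn)
    rcases h1 with h1 | h2
    · exact K2 v hN hne h1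
    · have h3 := K2 (p v) (by rw [h.pp]; exact hN.symm) (by rw [h.pp]; exact hne.symm) h2
      rw [h.pp] at h3
      exact h3.symm
  -- the B – D pairs
  have K4 : ∀ v, τ v = .B → τ (p v) = .D → Far (f (p v)) (f v) := by
    intro v hB hD
    have h1 : ψ v = v := h.psi_BD hB hD
    have h2 : ¬ R v := fun hR => (hRZ v (by rw [hB]; exact fun e => by cases e) hR).1.2.1 h1
    rw [hf, hf, hB, hD, hg3 v h1, hD]
    simp [h2, lab, Far]
  -- the A – D pairs
  have K5 : ∀ v, τ v = .A → τ (p v) = .D → Far (f (p v)) (f v) := by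
    intro v hA hD
    have h2 : ¬ R v := by
      rintro (h3 | ⟨h3, h4, _⟩)
      · exact (hZ.zX v h3).2 hD
      · have := (hρA v h3 hA).2.1
        rw [h4] at this
        exact this hD
    rw [hf, hf, hA, hD]
    simp only [h2, decide_false]
    cases g v <;> simp [lab, Far]
  -- the B – C pairs
  have K6 : ∀ b c, τ b = .B → τ c = .C → AdjBC σ p b c → Far (f c) (f b) := by
    intro b c hB hC hadj
    have h2 : ¬ (R b ∧ R c) := by
      rintro ⟨hRb, hRc⟩
      obtain ⟨h3, h4⟩ := hRZ b (by rw [hB]; exact fun e => by cases e) hRb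
      obtain ⟨h5, h6⟩ := hRZ c (by rw [hC]; exact fun e => by cases e) hRc
      have := hρBC b c h3 hB h5 hC
      rw [h4, h6] at this
      exact this hadj
    rw [hf, hf, hB, hC]
    by_cases h3 : R b
    · have h4 : ¬ R c := fun h4 => h2 ⟨h3, h4⟩
      simp only [h3, h4, decide_true, decide_false]
      cases g b <;> cases g c <;> simp [lab, Far]
    · simp only [h3, decide_false]
      cases g b <;> cases g c <;> by_cases h4 : R c <;> simp [lab, Far, h4]
  -- a matched pair in one of the two orders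
  have K7 : ∀ v, p v ≠ v → (τ v = τ (p v) ∨ (τ v = .A ∧ τ (p v) ≠ .A) ∨
      (τ v = .B ∧ (τ (p v) = .C ∨ τ (p v) = .D)) ∨ (τ v = .C ∧ τ (p v) = .D)) →
      Far (f (p v)) (f v) := by
    rintro v hne (h1 | ⟨h1, h2⟩ | ⟨h1, h2 | h2⟩ | ⟨h1, h2⟩)
    · exact K3 v h1.symm hne
    · cases hp : τ (p v)
      · exact absurd hp h2
      · rw [hf, hf, h1, hp]
        generalize decide (R v) = a; generalize g v = b
        generalize decide (R (p v)) = c; generalize g (p v) = d
        cases a <;> cases b <;> cases c <;> cases d <;> simp [lab, Far]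
      · rw [hf, hf, h1, hp]
        generalize decide (R v) = a; generalize g v = b
        generalize decide (R (p v)) = c; generalize g (p v) = d
        cases a <;> cases b <;> cases c <;> cases d <;> simp [lab, Far]
      · exact K5 v h1 hp
    · exact K6 v (p v) h1 h2 (Or.inr rfl)
    · exact K4 v h1 h2
    · rw [hf, hf, h1, h2]
      generalize decide (R v) = a; generalize g v = b
      generalize decide (R (p v)) = c; generalize g (p v) = d
      cases a <;> cases b <;> cases c <;> cases d <;> simp [lab, Far]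
  refine ⟨f, fun v => lab_le _ _ _, ?_, ?_, ?_, ?_, ?_, fun u v huv => lab_ne huv _ _ _ _,
    ?_, ?_⟩
  · intro v
    have ht := h.tr v
    cases h1 : τ v <;> cases h2 : τ (σ v) <;> rw [h1, h2] at ht <;>
      first | exact ht.elim | skip
    · rw [hf, hf, h1, h2]
      generalize decide (R v) = a; generalize g v = b
      generalize decide (R (σ v)) = c; generalize g (σ v) = d
      cases a <;> cases b <;> cases c <;> cases d <;> simp [lab, Far]
    · exact K6 v (σ v) h1 h2 (Or.inl rfl)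
    · rw [hf, hf, h1, h2]
      generalize decide (R v) = a; generalize g v = b
      generalize decide (R (σ v)) = c; generalize g (σ v) = d
      cases a <;> cases b <;> cases c <;> cases d <;> simp [lab, Far]
    · rw [hf, hf, h1, h2]
      generalize decide (R v) = a; generalize g v = b
      generalize decide (R (σ v)) = c; generalize g (σ v) = d
      cases a <;> cases b <;> cases c <;> cases d <;> simp [lab, Far]
    · have h3 : ¬ R (σ v) := by
        have hXA : XA σ τ (σ v) := by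
          unfold XA
          rw [Equiv.symm_apply_apply]
          exact h1
        rintro (h3 | ⟨h3, h4, _⟩)
        · exact (hZ.zX _ h3).1 hXA
        · have := (hρA (σ v) h3 h2).1
          rw [h4] at this
          exact this hXA
      rw [hf, hf, h1, h2]
      simp only [h3, decide_false]
      cases g (σ v) <;> simp [lab, Far]
  · intro v hne
    have hne' : p (p v) ≠ p v := by rw [h.pp]; exact hne.symm
    have hrev : Far (f (p (p v))) (f (p v)) → Far (f (p v)) (f v) := by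
      rw [h.pp]; exact Far.symm
    have hor : (τ v = τ (p v) ∨ (τ v = .A ∧ τ (p v) ≠ .A) ∨
        (τ v = .B ∧ (τ (p v) = .C ∨ τ (p v) = .D)) ∨ (τ v = .C ∧ τ (p v) = .D)) ∨
        (τ (p v) = τ v ∨ (τ (p v) = .A ∧ τ v ≠ .A) ∨
        (τ (p v) = .B ∧ (τ v = .C ∨ τ v = .D)) ∨ (τ (p v) = .C ∧ τ v = .D)) := by
      cases τ v <;> cases τ (p v) <;> simp
    rcases hor with h1 | h1
    · exact K7 v hne h1
    · exact hrev (K7 (p v) hne' (by rw [h.pp]; exact h1))
  · intro v
    exact lab_ne (h.ne_two v) _ _ _ _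
  · intro v hne
    by_cases hτ : τ (σ (p v)) = τ v
    · have h1 : ψ v = σ (p v) := h.psi_of_s hτ
      rw [← h1]
      exact K1 v (by rw [h1]; exact h.σp_ne v)
    · exact lab_ne hτ _ _ _ _
  · intro v hne
    by_cases hτ : τ (σ.symm (p v)) = τ v
    · have h1 : ψ v = σ.symm (p v) := h.psi_of_t hτ
      rw [← h1]
      exact K1 v (by rw [h1]; exact h.tp_ne v)
    · exact lab_ne hτ _ _ _ _
  · intro z hz
    have hR : R z := Or.inl hz
    rw [hf, hZ.zA z hz]
    simp only [hR, decide_true]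
    cases g z <;> rfl
  · intro w hA hpw hwZ
    have h1 : ψ w = w := by
      rw [hψ, psi_of_p (by rw [hpw]), hpw]
    have h2 : ¬ R w := by
      rintro (h3 | ⟨h3, _⟩)
      · exact hwZ h3
      · exact h3.2.1 h1
    have h4 : g w = false := by
      rw [hg3 w h1, hpw, hA]
      rfl
    rw [hf, hA, h4]
    simp only [h2, decide_false]
    rfl

end CoreZ

end GY64
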