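import Mathlib

set_option autoImplicit false

/-!
# Matchings covering a prescribed set of vertices
-/

namespace GY64

open SimpleGraph

/-- the auxiliary graph: all vertices outside `T`, and `k` new vertices, become a clique -/
def augGraph {V : Type} (G : SimpleGraph V) (T : Set V) (k : ℕ) : SimpleGraph (V ⊕ Fin k) where
  Adj x y := x ≠ y ∧ (((∀ a ∈ T, x ≠ Sum.inl a) ∧ (∀ a ∈ T, y ≠ Sum.inl a)) ∨
    ∃ a b, x = Sum.inl a ∧ y = Sum.inl b ∧ G.Adj a b)
  symm := ⟨by
    rintro x y ⟨h1, h2 | ⟨a, b, ha, hb, hab⟩⟩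
    · exact ⟨h1.symm, Or.inl ⟨h2.2, h2.1⟩⟩
    · exact ⟨h1.symm, Or.inr ⟨b, a, hb, ha, hab.symm⟩⟩⟩
  loopless := ⟨fun x h => h.1 rfl⟩

/-- **A matching covering `T`**, from the sufficient condition on families of disjoint odd
closed sets inside `T`. -/
theorem exists_matching_covering {V : Type} [Finite V] (G : SimpleGraph V) (T : Set V)
    (hT : ∀ (S : Set V) (F : Set (Set V)), (∀ K ∈ F, K ⊆ T ∧ Odd K.ncard ∧
      ∀ a ∈ K, a ∉ S ∧ ∀ b, G.Adj a b → b ∈ K ∨ b ∈ S) →
      (∀ K ∈ F, ∀ L ∈ F, K ≠ L → Disjoint K L) → F.ncard ≤ S.ncard) :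
    ∃ M : G.Subgraph, M.IsMatching ∧ T ⊆ M.verts := by
  classical
  set k := Nat.card V % 2 with hk
  set A := augGraph G T k with hA
  have hAinl : ∀ a b, G.Adj a b → A.Adj (Sum.inl a) (Sum.inl b) := by
    intro a b hab
    refine ⟨fun h => hab.ne (Sum.inl.inj h), Or.inr ⟨a, b, rfl, rfl, hab⟩⟩
  have hcard : Even (Nat.card (V ⊕ Fin k)) := by
    rw [Nat.card_sum, Nat.card_eq_fintype_card (α := Fin k), Fintype.card_fin, hk]
    rcases Nat.even_or_odd (Nat.card V) with h | h
    · rw [Nat.even_iff.mp h]; simpa using h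
    · rw [Nat.odd_iff.mp h]; exact h.add_one
  have hpm : ∃ M : A.Subgraph, M.IsPerfectMatching := by
    rw [SimpleGraph.tutte]
    intro S' hviol
    unfold SimpleGraph.IsTutteViolator at hviol
    set G' := ((⊤ : A.Subgraph).deleteVerts S').coe with hG'
    -- vertices of G'
    have hmem : ∀ x, x ∈ ((⊤ : A.Subgraph).deleteVerts S').verts ↔ x ∉ S' := by
      intro x
      simp
    have hadj' : ∀ x y : ((⊤ : A.Subgraph).deleteVerts S').verts, G'.Adj x y ↔
        A.Adj x.1 y.1 := by
      intro x y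
      simp [hG', SimpleGraph.Subgraph.coe_adj]
    have hcard' : Nat.card ((⊤ : A.Subgraph).deleteVerts S').verts + S'.ncard =
        Nat.card (V ⊕ Fin k) := by
      have h1 : ((⊤ : A.Subgraph).deleteVerts S').verts = S'ᶜ := by
        ext x; rw [hmem]; rfl
      rw [h1, Nat.card_coe_set_eq, add_comm]
      exact Set.ncard_add_ncard_compl S'
    have hpar : Odd G'.oddComponents.ncard ↔ Odd S'.ncard := by
      rw [SimpleGraph.odd_ncard_oddComponents]
      rw [← hcard'] at hcard
      constructor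
      · intro h
        by_contra h2
        exact (Nat.not_even_iff_odd.mpr (h.add_even (Nat.not_odd_iff_even.mp h2))) hcard
      · intro h
        by_contra h2
        exact (Nat.not_even_iff_odd.mpr ((Nat.not_odd_iff_even.mp h2).add_odd h)) hcard
    have h2 : S'.ncard + 2 ≤ G'.oddComponents.ncard := by
      by_contra hlt
      have : G'.oddComponents.ncard = S'.ncard + 1 := by omega
      rw [this] at hpar
      rcases Nat.even_or_odd S'.ncard with h | h
      · exact (Nat.not_odd_iff_even.mpr h) (hpar.mp h.add_one)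
      · exact (Nat.not_odd_iff_even.mpr h.add_one) (hpar.mpr h)
    -- the components meeting the clique
    let U : Set (V ⊕ Fin k) := {x | ∀ a ∈ T, x ≠ Sum.inl a}
    let C1 : Set G'.ConnectedComponent := {c | c ∈ G'.oddComponents ∧ ∀ x ∈ c.supp, x.1 ∉ U}
    let C2 : Set G'.ConnectedComponent := {c | ∃ x ∈ c.supp, x.1 ∈ U}
    have hC2 : C2.ncard ≤ 1 := by
      rw [Set.ncard_le_one_iff]
      rintro c d ⟨x, hx, hxU⟩ ⟨y, hy, hyU⟩
      rw [← (SimpleGraph.ConnectedComponent.mem_supp_iff c x).mp hx,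
        ← (SimpleGraph.ConnectedComponent.mem_supp_iff d y).mp hy]
      by_cases hxy : x = y
      · rw [hxy]
      · apply SimpleGraph.ConnectedComponent.sound
        apply SimpleGraph.Adj.reachable
        rw [hadj']
        exact ⟨fun h => hxy (Subtype.ext h), Or.inl ⟨hxU, hyU⟩⟩
    have hC1 : S'.ncard + 1 ≤ C1.ncard := by
      have h3 : G'.oddComponents ⊆ C1 ∪ C2 := by
        intro c hc
        by_cases h : ∃ x ∈ c.supp, x.1 ∈ U
        · exact Or.inr h
        · push Not at h
          exact Or.inl ⟨hc, h⟩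
      have h4 := (Set.ncard_le_ncard h3 (Set.toFinite _)).trans (Set.ncard_union_le _ _)
      omega
    -- the corresponding sets of vertices of G
    let κ : G'.ConnectedComponent → Set V := fun c => {a | ∃ x ∈ c.supp, x.1 = Sum.inl a}
    have hκinl : ∀ c ∈ C1, ∀ x ∈ c.supp, ∃ a ∈ T, x.1 = Sum.inl a := by
      intro c hc x hx
      have h3 := hc.2 x hx
      simp only [U, Set.mem_ofPred_eq, not_forall, not_not] at h3
      obtain ⟨a, ha, he⟩ := h3
      exact ⟨a, ha, he⟩
    have hκcard : ∀ c ∈ C1, (κ c).ncard = c.supp.ncard := by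
      intro c hc
      symm
      apply Set.ncard_congr (fun x hx => (hκinl c hc x hx).choose)
      · intro x hx
        exact ⟨x, hx, (hκinl c hc x hx).choose_spec.2⟩
      · intro x y hx hy he
        have h3 := (hκinl c hc x hx).choose_spec.2
        have h4 := (hκinl c hc y hy).choose_spec.2
        exact Subtype.ext (by rw [h3, h4, he])
      · rintro a ⟨x, hx, he⟩
        refine ⟨x, hx, ?_⟩
        have h3 := (hκinl c hc x hx).choose_spec.2
        exact Sum.inl.inj (h3.symm.trans he)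
    have hκdisj : ∀ c d a, a ∈ κ c → a ∈ κ d → c = d := by
      rintro c d a ⟨x, hx, hxa⟩ ⟨y, hy, hya⟩
      have : x = y := Subtype.ext (hxa.trans hya.symm)
      subst this
      rw [← (SimpleGraph.ConnectedComponent.mem_supp_iff c x).mp hx,
        ← (SimpleGraph.ConnectedComponent.mem_supp_iff d x).mp hy]
    have hκne : ∀ c ∈ C1, (κ c).Nonempty := by
      intro c hc
      have h3 : Odd c.supp.ncard := hc.1
      rw [← hκcard c hc] at h3
      exact Set.nonempty_of_ncard_ne_zero h3.pos.ne'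
    have hκinj : Set.InjOn κ C1 := by
      intro c hc d _ he
      obtain ⟨a, ha⟩ := hκne c hc
      exact hκdisj c d a ha (he ▸ ha)
    let S : Set V := {a | Sum.inl a ∈ S'}
    have hScard : S.ncard ≤ S'.ncard := by
      apply Set.ncard_le_ncard_of_injOn (fun a => (Sum.inl a : V ⊕ Fin k))
      · intro a ha; exact ha
      · intro a _ b _ he; exact Sum.inl.inj he
    have hmain := hT S (κ '' C1) (by
      rintro K ⟨c, hc, rfl⟩
      refine ⟨?_, ?_, ?_⟩
      · rintro a ⟨x, hx, hxa⟩
        obtain ⟨b, hb, hxb⟩ := hκinl c hc x hx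
        rw [hxa] at hxb
        rw [Sum.inl.inj hxb]; exact hb
      · rw [hκcard c hc]; exact hc.1
      · rintro a ⟨x, hx, hxa⟩
        refine ⟨fun haS => (hmem x.1).mp x.2 (by rw [hxa]; exact haS), ?_⟩
        intro b hab
        by_cases hbS : Sum.inl b ∈ S'
        · exact Or.inr hbS
        · left
          let y : ((⊤ : A.Subgraph).deleteVerts S').verts := ⟨Sum.inl b, (hmem _).mpr hbS⟩
          refine ⟨y, ?_, rfl⟩
          have h3 : G'.Adj x y := by
            rw [hadj', hxa]
            exact hAinl a b hab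
          exact (SimpleGraph.ConnectedComponent.mem_supp_congr_adj c h3).mp hx) (by
      rintro K ⟨c, hc, rfl⟩ L ⟨d, hd, rfl⟩ hne
      rw [Set.disjoint_left]
      intro a ha ha'
      exact hne (by rw [hκdisj c d a ha ha']))
    rw [Set.InjOn.ncard_image hκinj] at hmain
    omega
  obtain ⟨M', hM'⟩ := hpm
  rw [SimpleGraph.Subgraph.isPerfectMatching_iff] at hM'
  let M : G.Subgraph :=
    { verts := {a | ∃ b, G.Adj a b ∧ M'.Adj (Sum.inl a) (Sum.inl b)}
      Adj := fun a b => G.Adj a b ∧ M'.Adj (Sum.inl a) (Sum.inl b)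
      adj_sub := fun h => h.1
      edge_vert := fun {a b} h => ⟨b, h⟩
      symm := ⟨fun _ _ h => ⟨h.1.symm, h.2.symm⟩⟩ }
  refine ⟨M, ?_, ?_⟩
  · rintro a ⟨b, hab⟩
    refine ⟨b, hab, ?_⟩
    rintro c ⟨_, hc⟩
    obtain ⟨y, hy, huniq⟩ := hM' (Sum.inl a)
    have h1 := huniq _ hab.2
    have h2 := huniq _ hc
    exact Sum.inl.inj (h2.trans h1.symm)
  · intro a ha
    obtain ⟨y, hy, _⟩ := hM' (Sum.inl a)
    have h1 : A.Adj (Sum.inl a) y := hy.adj_sub
    rcases h1.2 with ⟨h2, _⟩ | ⟨a', b, ha', hb, hab⟩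
    · exact absurd rfl (h2 a ha)
    · have : a = a' := Sum.inl.inj ha'
      subst this
      subst hb
      exact ⟨b, hab, hy⟩

end GY64
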