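import Pool.Agent.Lib_helper64.GY.Girth
import Pool.Agent.Lib_helper64.GY.TutteCov

set_option autoImplicit false

/-!
# A matching of a subcubic graph missing only well separated vertices of degree three
-/

namespace GY64

open SimpleGraph Classical

section Cut

variable {V : Type} [Fintype V] (G : SimpleGraph V)

/-- the number of darts leaving `K` -/
noncomputable def outc (K : Set V) : ℕ :=
  ∑ a : V, ∑ b : V, if G.Adj a b ∧ a ∈ K ∧ b ∉ K then 1 else 0

/-- the number of darts with exactly one end in `K` -/
noncomputable def cutc (K : Set V) : ℕ :=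
  ∑ a : V, ∑ b : V, if G.Adj a b ∧ ¬ (a ∈ K ↔ b ∈ K) then 1 else 0

/-- the number of darts inside `K` -/
noncomputable def inc (K : Set V) : ℕ :=
  ∑ a : V, ∑ b : V, if G.Adj a b ∧ a ∈ K ∧ b ∈ K then 1 else 0

theorem cutc_eq (K : Set V) : cutc G K = 2 * outc G K := by
  have h1 : cutc G K = (∑ a : V, ∑ b : V, if G.Adj a b ∧ a ∈ K ∧ b ∉ K then 1 else 0) +
      ∑ a : V, ∑ b : V, if G.Adj b a ∧ b ∈ K ∧ a ∉ K then 1 else 0 := by
    unfold cutc
    rw [← Finset.sum_add_distrib]
    apply Finset.sum_congr rfl
    intro a _
    rw [← Finset.sum_add_distrib]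
    apply Finset.sum_congr rfl
    intro b _
    by_cases hab : G.Adj a b
    · have hba := hab.symm
      by_cases ha : a ∈ K <;> by_cases hb : b ∈ K <;> simp [hab, hba, ha, hb]
    · have hba : ¬ G.Adj b a := fun h => hab h.symm
      simp [hab, hba]
  rw [h1, Finset.sum_comm (f := fun a b => if G.Adj b a ∧ b ∈ K ∧ a ∉ K then 1 else 0)]
  unfold outc
  ring

theorem cutc_posimod (K L : Set V) :
    cutc G (K \ L) + cutc G (L \ K) ≤ cutc G K + cutc G L := by
  unfold cutc
  rw [← Finset.sum_add_distrib, ← Finset.sum_add_distrib]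
  apply Finset.sum_le_sum
  intro a _
  rw [← Finset.sum_add_distrib, ← Finset.sum_add_distrib]
  apply Finset.sum_le_sum
  intro b _
  by_cases hab : G.Adj a b
  · by_cases h1 : a ∈ K <;> by_cases h2 : b ∈ K <;> by_cases h3 : a ∈ L <;>
      by_cases h4 : b ∈ L <;> simp [hab, h1, h2, h3, h4]
  · simp [hab]

theorem outc_posimod (K L : Set V) :
    outc G (K \ L) + outc G (L \ K) ≤ outc G K + outc G L := by
  have := cutc_posimod G K L
  rw [cutc_eq, cutc_eq, cutc_eq, cutc_eq] at this
  omega

theorem inc_even (K : Set V) : Even (inc G K) := by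
  let G' : SimpleGraph V :=
    { Adj := fun a b => G.Adj a b ∧ a ∈ K ∧ b ∈ K
      symm := ⟨fun _ _ h => ⟨h.1.symm, h.2.2, h.2.1⟩⟩
      loopless := ⟨fun _ h => h.1.ne rfl⟩ }
  have h1 := G'.sum_degrees_eq_twice_card_edges
  have h2 : inc G K = ∑ v : V, G'.degree v := by
    unfold inc
    apply Finset.sum_congr rfl
    intro a _
    rw [← SimpleGraph.card_neighborFinset_eq_degree, SimpleGraph.neighborFinset_eq_filter,
      Finset.card_filter]
  rw [h2, h1]
  exact even_two_mul _

theorem out_add_in (K : Set V) (hK : ∀ a ∈ K, (G.neighborSet a).ncard = 3) :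
    outc G K + inc G K = 3 * K.ncard := by
  unfold outc inc
  rw [← Finset.sum_add_distrib]
  have h1 : ∀ a : V, (∑ b : V, if G.Adj a b ∧ a ∈ K ∧ b ∉ K then 1 else 0) +
      (∑ b : V, if G.Adj a b ∧ a ∈ K ∧ b ∈ K then 1 else 0) = if a ∈ K then 3 else 0 := by
    intro a
    rw [← Finset.sum_add_distrib]
    by_cases ha : a ∈ K
    · rw [if_pos ha]
      have h2 : (G.neighborSet a).ncard = ∑ b : V, if G.Adj a b then 1 else 0 := by
        rw [Set.ncard_eq_toFinset_card', ← Finset.card_filter]
        congr 1
        ext b
        simp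
      rw [hK a ha] at h2
      rw [h2]
      apply Finset.sum_congr rfl
      intro b _
      by_cases hab : G.Adj a b <;> by_cases hb : b ∈ K <;> simp [hab, ha, hb]
    · simp [ha]
  rw [Finset.sum_congr rfl (fun a _ => h1 a)]
  rw [← Finset.sum_filter, Finset.sum_const, smul_eq_mul, mul_comm,
    Set.ncard_eq_toFinset_card']
  congr 1
  congr 1
  ext a
  simp

/-- all vertices of `K` have degree three and at most one dart leaves `K` -/
def Thin (K : Set V) : Prop :=
  K.Nonempty ∧ (∀ a ∈ K, (G.neighborSet a).ncard = 3) ∧ outc G K ≤ 1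

theorem outc_unique {K : Set V} (hK : outc G K ≤ 1) {a b a' b' : V} (hab : G.Adj a b)
    (ha : a ∈ K) (hb : b ∉ K) (hab' : G.Adj a' b') (ha' : a' ∈ K) (hb' : b' ∉ K) :
    a = a' ∧ b = b' := by
  have h1 : outc G K = (Finset.univ.filter fun x : V × V =>
      G.Adj x.1 x.2 ∧ x.1 ∈ K ∧ x.2 ∉ K).card := by
    rw [Finset.card_filter, Fintype.sum_prod_type]
    rfl
  rw [h1, Finset.card_le_one] at hK
  have := hK (a, b) (by simp [hab, ha, hb]) (a', b') (by simp [hab', ha', hb'])
  exact Prod.mk.inj this

omit [Fintype V] in
/-- a walk leaving `K` passes through the unique exit -/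
theorem walk_exit {K : Set V} {y : V} (hy : ∀ a b, G.Adj a b → a ∈ K → b ∉ K → a = y) :
    ∀ {a x : V} (p : G.Walk a x), a ∈ K → x ∉ K → ∃ r : G.Walk a y, r.length + 1 ≤ p.length := by
  intro a x p
  induction p with
  | nil => intro h1 h2; exact absurd h1 h2
  | @cons a b x hab p ih =>
    intro ha hx
    by_cases hb : b ∈ K
    · obtain ⟨r, hr⟩ := ih hb hx
      exact ⟨Walk.cons hab r, by simp only [Walk.length_cons]; omega⟩
    · obtain rfl := hy a b hab ha hb
      exact ⟨Walk.nil, by simp⟩

/-- **Deep vertices.** -/
theorem exists_deep {R : ℕ} (hg : GirthGe G (2 * R + 2)) {K : Set V} (hK : Thin G K) :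
    ∃ w ∈ K, ∀ x, x ∉ K → ∀ p : G.Walk w x, R ≤ p.length := by
  obtain ⟨hne, h3, hout⟩ := hK
  by_cases hex : ∃ y x0, G.Adj y x0 ∧ y ∈ K ∧ x0 ∉ K
  · obtain ⟨y, x0, hyx, hy, hx0⟩ := hex
    have hexit : ∀ a b, G.Adj a b → a ∈ K → b ∉ K → a = y := fun a b hab ha hb =>
      (outc_unique G hout hab ha hb hyx hy hx0).1
    have hexit2 : ∀ a b, G.Adj a b → a ∈ K → b ∉ K → b = x0 := fun a b hab ha hb =>
      (outc_unique G hout hab ha hb hyx hy hx0).2
    -- growing a path inside K
    have hgrow : ∀ n, n ≤ R → ∃ (v : V) (q : G.Walk v y), q.IsPath ∧ q.length = n ∧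
        ∀ a ∈ q.support, a ∈ K := by
      intro n
      induction n with
      | zero =>
        intro _
        exact ⟨y, Walk.nil, Walk.IsPath.nil, rfl, by simpa using hy⟩
      | succ n ih =>
        intro hn
        obtain ⟨v, q, hq, hlen, hsup⟩ := ih (by omega)
        have hv : v ∈ K := hsup v q.start_mem_support
        -- a neighbour of `v` in `K` different from the second vertex of `q`
        have hb : ∃ b, G.Adj v b ∧ b ∈ K ∧ (0 < n → b ≠ q.snd) := by
          by_cases hn0 : n = 0
          · -- all but one neighbours are in K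
            have h5 : ((G.neighborSet v) \ {x0}).Nonempty := by
              apply Set.nonempty_of_ncard_ne_zero
              have h6 := Set.ncard_le_ncard_sdiff_add_ncard (G.neighborSet v) {x0}
                (Set.toFinite _)
              rw [h3 v hv, Set.ncard_singleton] at h6
              omega
            obtain ⟨b, hb1, hb2⟩ := h5
            refine ⟨b, hb1, ?_, fun h => by omega⟩
            by_contra hbK
            exact hb2 (hexit2 v b hb1 hv hbK)
          · have h5 : ((G.neighborSet v) \ {q.snd}).Nonempty := by
              apply Set.nonempty_of_ncard_ne_zero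
              have h6 := Set.ncard_le_ncard_sdiff_add_ncard (G.neighborSet v) {q.snd}
                (Set.toFinite _)
              rw [h3 v hv, Set.ncard_singleton] at h6
              omega
            obtain ⟨b, hb1, hb2⟩ := h5
            refine ⟨b, hb1, ?_, fun _ => hb2⟩
            by_contra hbK
            have hvy : v = y := hexit v b hb1 hv hbK
            subst hvy
            have hnil := Walk.length_eq_zero_iff.mpr (Walk.isPath_iff_nil.mp hq)
            omega
        obtain ⟨b, hvb, hbK, hbs⟩ := hb
        have hbsup : b ∉ q.support := by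
          intro hbq
          have hT : (q.takeUntil b hbq).IsPath := hq.takeUntil hbq
          have hlT := q.length_takeUntil_le_length hbq
          have hS : (Walk.cons hvb Walk.nil : G.Walk v b).IsPath := by
            rw [Walk.cons_isPath_iff]
            exact ⟨Walk.IsPath.nil, by simpa using hvb.ne⟩
          have heq := path_unique hg _ _ hT hS (by
            simp only [Walk.length_cons, Walk.length_nil]; omega)
          have hlen1 : (q.takeUntil b hbq).length = 1 := by rw [heq]; rfl
          have hn0 : 0 < n := by omega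
          apply hbs hn0
          have hspec := q.take_spec hbq
          rw [heq] at hspec
          rw [← hspec]
          simp [Walk.snd]
        refine ⟨b, Walk.cons hvb.symm q, ?_, by simp [hlen], ?_⟩
        · rw [Walk.cons_isPath_iff]
          exact ⟨hq, hbsup⟩
        · intro a ha
          rw [Walk.support_cons, List.mem_cons] at ha
          rcases ha with rfl | ha
          · exact hbK
          · exact hsup a ha
    obtain ⟨w, q, hq, hlen, hsup⟩ := hgrow R le_rfl
    have hw : w ∈ K := hsup w q.start_mem_support
    refine ⟨w, hw, ?_⟩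
    intro x hx p
    by_contra hlt
    push Not at hlt
    obtain ⟨r, hr⟩ := walk_exit G hexit p hw hx
    have hb1 := r.length_bypass_le_length
    have heq := path_unique hg r.bypass q (r.bypass_isPath) hq (by omega)
    rw [heq, hlen] at hb1
    omega
  · push Not at hex
    obtain ⟨w, hw⟩ := hne
    refine ⟨w, hw, ?_⟩
    intro x hx p
    exfalso
    have : ∀ {a x : V} (p : G.Walk a x), a ∈ K → x ∈ K := by
      intro a x p
      induction p with
      | nil => exact id
      | cons hab _ ih => exact fun ha => ih (hex _ _ hab ha)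
    exact hx (this p hw)

/-- **A matching missing only separated vertices of degree three.** -/
theorem exists_sep_matching {R : ℕ} (hR : 2 ≤ R) (hg : GirthGe G (2 * R + 2))
    (hdeg : ∀ v, (G.neighborSet v).ncard ≤ 3) :
    ∃ (M : G.Subgraph) (C : Set V), M.IsMatching ∧
      (∀ v, (G.neighborSet v).ncard = 3 → v ∉ C → v ∈ M.verts) ∧
      (∀ w ∈ C, ∀ w' ∈ C, w ≠ w' → ∀ p : G.Walk w w', R ≤ p.length) ∧
      (∀ w ∈ C, ∀ b, G.Adj w b → (G.neighborSet b).ncard = 3) := by
  -- minimal thin sets
  have hmin : ∀ K, Thin G K → ∃ L ⊆ K, Minimal (Thin G) L := by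
    intro K hK
    obtain ⟨L, hL1, hL2⟩ := exists_minimal_le_of_wellFoundedLT (Thin G) K hK
    exact ⟨L, hL1, hL2⟩
  have hdisj : ∀ K L, Minimal (Thin G) K → Minimal (Thin G) L → K ≠ L → Disjoint K L := by
    intro K L hK hL hne
    rw [Set.disjoint_iff_inter_eq_empty]
    by_contra hint
    obtain ⟨x, hxK, hxL⟩ := Set.nonempty_iff_ne_empty.mpr hint
    have h1 : (K \ L).Nonempty := by
      rw [Set.sdiff_nonempty]
      intro hsub
      exact hne (Set.Subset.antisymm hsub (hL.2 hK.1 hsub))
    have h2 : (L \ K).Nonempty := by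
      rw [Set.sdiff_nonempty]
      intro hsub
      exact hne (Set.Subset.antisymm (hK.2 hL.1 hsub) hsub)
    have h3 := outc_posimod G K L
    have h4 := hK.1.2.2
    have h5 := hL.1.2.2
    rcases Nat.lt_or_ge 1 (outc G (K \ L)) with h6 | h6
    · have h7 : Thin G (L \ K) := ⟨h2, fun a ha => hL.1.2.1 a ha.1, by omega⟩
      exact (hL.2 h7 Set.sdiff_subset hxL).2 hxK
    · have h7 : Thin G (K \ L) := ⟨h1, fun a ha => hK.1.2.1 a ha.1, h6⟩
      exact (hK.2 h7 Set.sdiff_subset hxK).2 hxL
  have hw : ∀ K : {K : Set V // Minimal (Thin G) K}, ∃ w, w ∈ K.1 ∧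
      ∀ x, x ∉ K.1 → ∀ p : G.Walk w x, R ≤ p.length := fun K => exists_deep G hg K.2.1
  choose w hwK hwR using hw
  let C : Set V := Set.range w
  obtain ⟨M, hM, hcov⟩ := exists_matching_covering G
    {v | (G.neighborSet v).ncard = 3 ∧ v ∉ C} (by
      intro S F hF hFd
      have hout3 : ∀ K ∈ F, 3 ≤ outc G K := by
        intro K hK
        obtain ⟨hKT, hodd, hcl⟩ := hF K hK
        have h1 := out_add_in G K (fun a ha => (hKT ha).1)
        obtain ⟨m, hm⟩ := inc_even G K
        obtain ⟨n, hn⟩ := hodd
        have h2 : ¬ outc G K ≤ 1 := by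
          intro h2
          have hthin : Thin G K := ⟨Set.nonempty_of_ncard_ne_zero (by omega),
            fun a ha => (hKT ha).1, h2⟩
          obtain ⟨L, hLK, hL⟩ := hmin K hthin
          exact (hKT (hLK (hwK ⟨L, hL⟩))).2 ⟨⟨L, hL⟩, rfl⟩
        omega
      have hFfin : F.Finite := Set.toFinite F
      let F' : Finset (Set V) := hFfin.toFinset
      have hF' : ∀ K, K ∈ F' ↔ K ∈ F := fun K => hFfin.mem_toFinset
      have hsum : ∑ K ∈ F', outc G K ≤ 3 * S.ncard := by
        calc ∑ K ∈ F', outc G K
            ≤ ∑ K ∈ F', ∑ a : V, ∑ b : V,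
                if G.Adj a b ∧ b ∈ S ∧ a ∈ K then 1 else 0 := by
              apply Finset.sum_le_sum
              intro K hK
              obtain ⟨_, _, hcl⟩ := hF K ((hF' K).mp hK)
              apply Finset.sum_le_sum
              intro a _
              apply Finset.sum_le_sum
              intro b _
              by_cases h : G.Adj a b ∧ a ∈ K ∧ b ∉ K
              · obtain ⟨h1, h2, h3⟩ := h
                have h4 : b ∈ S := ((hcl a h2).2 b h1).resolve_left h3
                simp [h1, h2, h3, h4]
              · simp [h]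
          _ = ∑ a : V, ∑ b : V, ∑ K ∈ F',
                if G.Adj a b ∧ b ∈ S ∧ a ∈ K then 1 else 0 := by
              rw [Finset.sum_comm]
              apply Finset.sum_congr rfl
              intro a _
              rw [Finset.sum_comm]
          _ ≤ ∑ a : V, ∑ b : V, if G.Adj a b ∧ b ∈ S then 1 else 0 := by
              apply Finset.sum_le_sum
              intro a _
              apply Finset.sum_le_sum
              intro b _
              by_cases h : G.Adj a b ∧ b ∈ S
              · have h1 : (∑ K ∈ F', if G.Adj a b ∧ b ∈ S ∧ a ∈ K then 1 else 0) =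
                    (F'.filter fun K => a ∈ K).card := by
                  rw [Finset.card_filter]
                  apply Finset.sum_congr rfl
                  intro K _
                  simp [h.1, h.2]
                rw [h1, if_pos h, Finset.card_le_one]
                intro K hK L hL
                rw [Finset.mem_filter] at hK hL
                by_contra hne
                exact Set.disjoint_left.mp (hFd K ((hF' K).mp hK.1) L ((hF' L).mp hL.1) hne)
                  hK.2 hL.2
              · rw [if_neg h]
                apply le_of_eq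
                apply Finset.sum_eq_zero
                intro K _
                rw [if_neg]
                exact fun h' => h ⟨h'.1, h'.2.1⟩
          _ = ∑ b : V, ∑ a : V, if G.Adj a b ∧ b ∈ S then 1 else 0 := Finset.sum_comm
          _ ≤ ∑ b : V, if b ∈ S then 3 else 0 := by
              apply Finset.sum_le_sum
              intro b _
              by_cases hb : b ∈ S
              · rw [if_pos hb]
                have h2 : (G.neighborSet b).ncard = ∑ a : V, if G.Adj a b ∧ b ∈ S then 1 else 0 := by
                  rw [Set.ncard_eq_toFinset_card', ← Finset.card_filter]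
                  congr 1
                  ext a
                  simp [hb, G.adj_comm]
                rw [← h2]
                exact hdeg b
              · simp [hb]
          _ = 3 * S.ncard := by
              rw [← Finset.sum_filter, Finset.sum_const, smul_eq_mul, mul_comm,
                Set.ncard_eq_toFinset_card']
              congr 1
              congr 1
              ext a
              simp
      have hlow : 3 * F'.card ≤ ∑ K ∈ F', outc G K := by
        rw [mul_comm, ← smul_eq_mul]
        exact Finset.card_nsmul_le_sum _ _ _ (fun K hK => hout3 K ((hF' K).mp hK))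
      have hcard : F.ncard = F'.card := Set.ncard_eq_toFinset_card F hFfin
      rw [hcard]
      omega)
  refine ⟨M, C, hM, fun v h1 h2 => hcov ⟨h1, h2⟩, ?_, ?_⟩
  · rintro _ ⟨K, rfl⟩ _ ⟨L, rfl⟩ hne p
    have hKL : K.1 ≠ L.1 := fun h => hne (by rw [Subtype.ext h])
    apply hwR K _ _ p
    intro hmem
    exact Set.disjoint_left.mp (hdisj K.1 L.1 K.2 L.2 hKL) hmem (hwK L)
  · rintro _ ⟨K, rfl⟩ b hb
    by_cases hbK : b ∈ K.1
    · exact K.2.1.2.1 b hbK
    · have := hwR K b hbK (Walk.cons hb Walk.nil)
      simp only [Walk.length_cons, Walk.length_nil] at this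
      omega

end Cut

end GY64
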