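import Mathlib

set_option autoImplicit false

/-!
# Uniqueness of short paths in graphs of large girth
-/

namespace GY64

open SimpleGraph

/-- all cycles have length at least `g` -/
def GirthGe {V : Type*} (G : SimpleGraph V) (g : ℕ) : Prop :=
  ∀ (v : V) (c : G.Walk v v), c.IsCycle → g ≤ c.length

theorem path_unique {V : Type*} {G : SimpleGraph V} {g : ℕ} (hg : GirthGe G g) {u v : V}
    (p q : G.Walk u v) (hp : p.IsPath) (hq : q.IsPath) (hlen : p.length + q.length < g) :
    p = q := by
  classical
  let E : Set (Sym2 V) := {e | e ∈ p.edges ∨ e ∈ q.edges}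
  let G' := SimpleGraph.fromEdgeSet E
  have hE : ∀ e ∈ E, e ∈ G.edgeSet := by
    rintro e (h | h)
    · exact p.edges_subset_edgeSet h
    · exact q.edges_subset_edgeSet h
  have hG' : ∀ e, e ∈ G'.edgeSet ↔ e ∈ E := by
    intro e
    simp only [G', SimpleGraph.edgeSet_fromEdgeSet, Set.mem_sdiff]
    constructor
    · exact fun h => h.1
    · intro h
      refine ⟨h, ?_⟩
      exact G.not_isDiag_of_mem_edgeSet (hE e h)
  have hpG : ∀ e ∈ p.edges, e ∈ G'.edgeSet := fun e he => (hG' e).mpr (Or.inl he)
  have hqG : ∀ e ∈ q.edges, e ∈ G'.edgeSet := fun e he => (hG' e).mpr (Or.inr he)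
  by_cases hac : G'.IsAcyclic
  · have h1 := hac.path_unique ⟨p.transfer G' hpG, hp.transfer hpG⟩
      ⟨q.transfer G' hqG, hq.transfer hqG⟩
    have h2 : p.transfer G' hpG = q.transfer G' hqG := congrArg Subtype.val h1
    have hb : ∀ e ∈ (p.transfer G' hpG).edges, e ∈ G.edgeSet := by
      intro e he
      rw [Walk.edges_transfer] at he
      exact p.edges_subset_edgeSet he
    have hb' : ∀ e ∈ (q.transfer G' hqG).edges, e ∈ G.edgeSet := by
      intro e he
      rw [Walk.edges_transfer] at he
      exact q.edges_subset_edgeSet he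
    have h3 : (p.transfer G' hpG).transfer G hb = p := by
      rw [Walk.transfer_transfer, Walk.transfer_self]
    have h4 : (q.transfer G' hqG).transfer G hb' = q := by
      rw [Walk.transfer_transfer, Walk.transfer_self]
    rw [← h3, ← h4]
    congr 1
  · exfalso
    unfold SimpleGraph.IsAcyclic at hac
    push Not at hac
    obtain ⟨w, c, hc⟩ := hac
    have hcG : ∀ e ∈ c.edges, e ∈ G.edgeSet := fun e he =>
      hE e ((hG' e).mp (c.edges_subset_edgeSet he))
    have h1 := hg w (c.transfer G hcG) (hc.transfer hcG)
    rw [Walk.length_transfer] at h1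
    have h2 : c.edges ⊆ p.edges ++ q.edges := by
      intro e he
      rw [List.mem_append]
      exact (hG' e).mp (c.edges_subset_edgeSet he)
    have h3 : c.edges.length ≤ (p.edges ++ q.edges).length :=
      (hc.isTrail.edges_nodup.subperm h2).length_le
    rw [List.length_append, Walk.length_edges, Walk.length_edges, Walk.length_edges] at h3
    omega

end GY64
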