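import Pool.Agent.Lib_helper64.GY.Close2
import Pool.Agent.Lib_helper64.GY.Girth

set_option autoImplicit false

/-!
# Geometry of the closed-up permutation
-/

namespace GY64

open Function

/-- injective sequences of adjacent vertices are paths -/
theorem path_of_seq {V : Type*} (H : SimpleGraph V) (v : ℕ → V) (g : ℕ)
    (hadj : ∀ i, i < g → H.Adj (v i) (v (i + 1)))
    (hinj : ∀ i j, i ≤ g → j ≤ g → v i = v j → i = j) :
    ∃ q : H.Walk (v 0) (v g), q.IsPath ∧ q.length = g ∧ ∀ x ∈ q.support, ∃ i, i ≤ g ∧ x = v i := by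
  induction g with
  | zero =>
    exact ⟨SimpleGraph.Walk.nil, SimpleGraph.Walk.IsPath.nil, rfl,
      fun x hx => ⟨0, le_rfl, by simpa using hx⟩⟩
  | succ g ih =>
    obtain ⟨q, hq, hlen, hsup⟩ := ih (fun i hi => hadj i (by omega))
      (fun i j hi hj h => hinj i j (by omega) (by omega) h)
    have hnot : v (g + 1) ∉ q.support := by
      intro h
      obtain ⟨i, hi, he⟩ := hsup _ h
      have := hinj (g + 1) i le_rfl (by omega) he
      omega
    refine ⟨q.concat (hadj g (by omega)), hq.concat hnot _, by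
      rw [SimpleGraph.Walk.length_concat, hlen], ?_⟩
    intro x hx
    rw [SimpleGraph.Walk.support_concat, List.mem_append, List.mem_singleton] at hx
    rcases hx with hx | hx
    · obtain ⟨i, hi, he⟩ := hsup x hx
      exact ⟨i, by omega, he⟩
    · exact ⟨g + 1, le_rfl, hx⟩

section Geo

variable {V : Type} [Finite V] {T : ℕ} (hT : 0 < T) (s : Equiv.Perm V) (P : V → Prop)

/-- a return to the real vertices within `T` steps happens inside the real vertices -/
theorem fill_real (a : V) (g : ℕ) (hg : g ≤ T) (h : ((fillP hT s P)^[g] (a, 0)).2 = 0) :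
    ∀ i, i ≤ g → ((fillP hT s P)^[i] (a, 0)).2 = 0 := by
  classical
  by_contra hcon
  push Not at hcon
  have hex : ∃ i, i ≤ g ∧ ((fillP hT s P)^[i] (a, 0)).2 ≠ 0 := hcon
  obtain ⟨h1, h2⟩ := Nat.find_spec hex
  set i := Nat.find hex with hi
  have hi0 : i ≠ 0 := by
    intro h0
    rw [h0] at h2
    exact h2 rfl
  have h3 : ((fillP hT s P)^[i - 1] (a, 0)).2 = 0 := by
    by_contra h4
    exact Nat.find_min hex (m := i - 1) (by omega) ⟨by omega, h4⟩
  set x := ((fillP hT s P)^[i - 1] (a, 0)).1 with hx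
  have h4 : (fillP hT s P)^[i - 1] (a, 0) = (x, 0) := Prod.ext rfl h3
  have h5 : (fillP hT s P)^[i] (a, 0) = fillS T hT s P (x, 0) := by
    have : i = (i - 1) + 1 := by omega
    rw [this, iterate_succ_apply', h4, fillP_apply]
  have hP : P x := by
    by_contra hP
    rw [h5, fill2 hT s P hP] at h2
    exact h2 rfl
  have h6 : (fillP hT s P)^[g] (a, 0) = (x, ⟨g - (i - 1), by omega⟩) := by
    have h7 : g = (g - (i - 1)) + (i - 1) := by omega
    have h8 := fillP_chain hT s P hP (g - (i - 1)) (by omega)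
    rw [← h8]
    conv_lhs => rw [h7]
    rw [iterate_add_apply, h4]
  rw [h6] at h
  have := congrArg Fin.val h
  simp only [Fin.val_zero] at this
  omega

theorem fill_step {y : V × Fin (T + 1)} (h0 : y.2 = 0) (h1 : ((fillP hT s P) y).2 = 0) :
    ¬ P y.1 ∧ (fillP hT s P) y = (s y.1, 0) := by
  have hy : y = (y.1, 0) := Prod.ext rfl h0
  have hP : ¬ P y.1 := by
    intro hP
    rw [hy, fillP_apply, fill1 hT s P hP] at h1
    have := congrArg Fin.val h1
    simp at this
  refine ⟨hP, ?_⟩
  rw [hy, fillP_apply, fill2 hT s P hP]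

variable {G H : SimpleGraph V}

/-- **All periods are long.** -/
theorem period_ge {L g0 : ℕ} (hLT : L ≤ T) (hLg : L ≤ g0) (hg : GirthGe G g0) (hHG : H ≤ G)
    (hs : ∀ v, ¬ P v → H.Adj v (s v)) (hs2 : ∀ v, ¬ P v → ¬ P (s v) → s (s v) ≠ v)
    (y : V × Fin (T + 1)) (n : ℕ) (hn : 0 < n) (hper : (fillP hT s P)^[n] y = y) : L ≤ n := by
  by_contra hlt
  push Not at hlt
  set σ := fillP hT s P with hσ
  set m := minimalPeriod σ y with hm
  have hyper : y ∈ periodicPts σ := mem_periodicPts.mpr ⟨n, hn, hper⟩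
  have hm0 : 0 < m := minimalPeriod_pos_of_mem_periodicPts hyper
  have hmn : m ≤ n := IsPeriodicPt.minimalPeriod_le hn hper
  have hmy : σ^[m] y = y := isPeriodicPt_minimalPeriod σ y
  have hmj : ∀ j, σ^[m] (σ^[j] y) = σ^[j] y := by
    intro j
    rw [← iterate_add_apply, add_comm m j, iterate_add_apply, hmy]
  by_cases hex : ∃ j, (σ^[j] y).2 ≠ 0
  · obtain ⟨j, hj⟩ := hex
    have h1 := hmj j
    rcases hy : σ^[j] y with ⟨x, i⟩
    rw [hy] at hj h1
    have hi0 : i.1 ≠ 0 := fun h => hj (Fin.ext h)
    have hi := i.2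
    by_cases hP : P x
    · have h2 : σ^[i.1] (x, 0) = (x, i) := fillP_chain hT s P hP i.1 (by omega)
      have h3 : σ^[m] (x, 0) = (x, 0) := by
        apply (σ.injective.iterate i.1)
        rw [← iterate_add_apply, add_comm i.1 m, iterate_add_apply, h2, h1]
      have h4 := fillP_chain hT s P hP m (by omega)
      rw [← hσ, h3] at h4
      have := congrArg Fin.val (Prod.mk.inj h4).2
      simp only [Fin.val_zero] at this
      omega
    · have hup : ∀ k (hk : k + 1 ≤ T), σ^[k] (x, (⟨1, by omega⟩ : Fin (T + 1))) =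
          (x, ⟨k + 1, by omega⟩) := by
        intro k
        induction k with
        | zero => intro _; rfl
        | succ k ih =>
          intro hk
          rw [iterate_succ_apply', ih (by omega)]
          exact fill3 hT s P x ⟨k + 1, by omega⟩ (by simp) (by simpa using hk)
      have h2 : σ^[i.1 - 1] (x, (⟨1, by omega⟩ : Fin (T + 1))) = (x, i) := by
        rw [hup (i.1 - 1) (by omega)]
        congr 1
        exact Fin.ext (by simp only []; omega)
      have h3 : σ^[m] (x, (⟨1, by omega⟩ : Fin (T + 1))) = (x, ⟨1, by omega⟩) := by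
        apply (σ.injective.iterate (i.1 - 1))
        rw [← iterate_add_apply, add_comm (i.1 - 1) m, iterate_add_apply, h2, h1]
      rw [hup m (by omega)] at h3
      have := congrArg Fin.val (Prod.mk.inj h3).2
      simp only [] at this
      omega
  · push Not at hex
    have hstep : ∀ j, ¬ P (σ^[j] y).1 ∧ σ^[j + 1] y = (s (σ^[j] y).1, 0) := by
      intro j
      have h1 := fill_step hT s P (y := σ^[j] y) (hex j) (by
        have := hex (j + 1)
        rwa [iterate_succ_apply'] at this)
      exact ⟨h1.1, by rw [iterate_succ_apply']; exact h1.2⟩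
    have hadj : ∀ j, H.Adj (σ^[j] y).1 (σ^[j + 1] y).1 := by
      intro j
      rw [(hstep j).2]
      exact hs _ (hstep j).1
    have hinj : ∀ i j, i ≤ m - 1 → j ≤ m - 1 → (σ^[i] y).1 = (σ^[j] y).1 → i = j := by
      intro i j hi hj h
      have hi' : i < m := by omega
      have hj' : j < m := by omega
      apply (iterate_eq_iterate_iff_of_lt_minimalPeriod (f := σ) (x := y) hi' hj').mp
      exact Prod.ext h ((hex i).trans (hex j).symm)
    obtain ⟨q, hq, hlen⟩ : ∃ q : H.Walk y.1 (σ^[m - 1] y).1, q.IsPath ∧ q.length = m - 1 := by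
      obtain ⟨q, hq, hlen, _⟩ := path_of_seq H (fun j => (σ^[j] y).1) (m - 1)
        (fun i _ => hadj i) hinj
      exact ⟨q, hq, hlen⟩
    have hlast : H.Adj (σ^[m - 1] y).1 y.1 := by
      have := hadj (m - 1)
      rw [Nat.sub_add_cancel hm0, hmy] at this
      exact this
    have hm1 : m ≠ 1 := by
      intro h1
      rw [h1] at hlast
      exact hlast.ne rfl
    have hpG : (q.mapLe hHG).IsPath := hq.mapLe hHG
    let qE : G.Walk y.1 (σ^[m - 1] y).1 :=
      SimpleGraph.Walk.cons (hHG hlast.symm) SimpleGraph.Walk.nil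
    have hqE : qE.length = 1 := rfl
    have hqp : (q.mapLe hHG).length = m - 1 := by
      rw [SimpleGraph.Walk.mapLe, SimpleGraph.Walk.length_map, hlen]
    have hE : qE.IsPath := by
      rw [SimpleGraph.Walk.cons_isPath_iff]
      exact ⟨SimpleGraph.Walk.IsPath.nil, by simpa using hlast.symm.ne⟩
    have heq := path_unique hg (q.mapLe hHG) qE hpG hE (by omega)
    have hl : (q.mapLe hHG).length = qE.length := by rw [heq]
    have hm2 : m = 2 := by omega
    have h1 := hstep 0
    have h2 := hstep 1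
    have h3 : σ^[2] y = y := by rw [← hm2]; exact hmy
    rw [show (1 : ℕ) + 1 = 2 from rfl, h3] at h2
    have h4 : (σ^[1] y).1 = s y.1 := by
      have := h1.2
      rw [zero_add] at this
      rw [this]; rfl
    rw [h4] at h2
    apply hs2 y.1 h1.1 h2.1
    have := congrArg Prod.fst h2.2
    exact this.symm

end Geo

end GY64
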