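import Pool.Agent.Lib_helper64.GY.Words

set_option autoImplicit false

/-!
# Lettering with prescribed letters at marked vertices
-/

namespace GY64

open Function

/-- the word between two marks: `l` is the phase at the first mark, `k` the number of `D`'s,
`a`, `b` their positions -/
def wordM (l k a b i : ℕ) : Let :=
  if k = 0 then cyc (l + i)
  else if i < a then cyc (l + i)
  else if i = a then .D
  else if k = 1 then cyc (l + i + 2)
  else if i < b then cyc (l + i + 2)
  else if i = b then .D
  else cyc (l + i + 1)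

theorem Tr_cyc {i j : ℕ} (h : (i + 1) % 3 = j % 3) : Tr (cyc i) (cyc j) := by
  rcases cyc_cases i with ⟨h1, h2⟩ | ⟨h1, h2⟩ | ⟨h1, h2⟩ <;>
    rcases cyc_cases j with ⟨h4, h5⟩ | ⟨h4, h5⟩ | ⟨h4, h5⟩ <;>
    rw [h2, h5] <;> simp only [Tr] <;> omega

theorem cyc_eq_C {i : ℕ} (h : i % 3 = 2) : cyc i = .C := by
  rcases cyc_cases i with ⟨h1, h2⟩ | ⟨h1, h2⟩ | ⟨h1, h2⟩
  · omega
  · omega
  · exact h2

theorem cyc_eq_A {i : ℕ} (h : i % 3 = 0) : cyc i = .A := by
  rcases cyc_cases i with ⟨h1, h2⟩ | ⟨h1, h2⟩ | ⟨h1, h2⟩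
  · exact h2
  · omega
  · omega

/-- transitions inside a gap; the last one leads to a letter `cyc l'` -/
theorem wordM_tr (l k a b g i l' : ℕ) (hk : k ≤ 2)
    (ha : k ≠ 0 → 0 < a ∧ a < g ∧ (l + a) % 3 = 0)
    (hb : k = 2 → a + 4 ≤ b ∧ b < g ∧ (l + b) % 3 = 1)
    (hl' : (l' + k) % 3 = (l + g) % 3) :
    Tr (wordM l k a b i) (if i + 1 = g then cyc l' else wordM l k a b (i + 1)) := by
  by_cases h0 : k = 0
  · subst h0
    split_ifs with hg
    · simp only [wordM, if_true]
      apply Tr_cyc
      omega
    · simp only [wordM, if_true]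
      apply Tr_cyc
      omega
  · obtain ⟨ha1, ha2, ha3⟩ := ha h0
    by_cases h1 : k = 1
    · subst h1
      rcases lt_trichotomy i a with h | h | h
      · have e1 : wordM l 1 a b i = cyc (l + i) := by simp [wordM, h]
        rw [e1, if_neg (by omega)]
        rcases Nat.lt_or_ge (i + 1) a with h2 | h2
        · have e2 : wordM l 1 a b (i + 1) = cyc (l + (i + 1)) := by simp [wordM, h2]
          rw [e2]
          apply Tr_cyc
          omega
        · have h3 : i + 1 = a := by omega
          have e2 : wordM l 1 a b (i + 1) = .D := by simp [wordM, h3]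
          rw [e2, cyc_eq_C (by omega)]
          trivial
      · subst h
        have e1 : wordM l 1 i b i = .D := by simp [wordM]
        rw [e1]
        split_ifs with hg
        · rw [cyc_eq_A (by omega)]; trivial
        · have e2 : wordM l 1 i b (i + 1) = cyc (l + (i + 1) + 2) := by simp [wordM]
          rw [e2, cyc_eq_A (by omega)]; trivial
      · have e1 : wordM l 1 a b i = cyc (l + i + 2) := by
          simp [wordM, show ¬ i < a by omega, show ¬ i = a by omega]
        rw [e1]
        split_ifs with hg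
        · apply Tr_cyc
          omega
        · have e2 : wordM l 1 a b (i + 1) = cyc (l + (i + 1) + 2) := by
            simp [wordM, show ¬ i + 1 < a by omega, show ¬ i + 1 = a by omega]
          rw [e2]
          apply Tr_cyc
          omega
    · have h2 : k = 2 := by omega
      subst h2
      obtain ⟨hb1, hb2, hb3⟩ := hb rfl
      rcases lt_trichotomy i a with h | h | h
      · have e1 : wordM l 2 a b i = cyc (l + i) := by simp [wordM, h]
        rw [e1, if_neg (by omega)]
        rcases Nat.lt_or_ge (i + 1) a with h2 | h2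
        · have e2 : wordM l 2 a b (i + 1) = cyc (l + (i + 1)) := by simp [wordM, h2]
          rw [e2]
          apply Tr_cyc
          omega
        · have h3 : i + 1 = a := by omega
          have e2 : wordM l 2 a b (i + 1) = .D := by simp [wordM, h3]
          rw [e2, cyc_eq_C (by omega)]
          trivial
      · subst h
        have e1 : wordM l 2 i b i = .D := by simp [wordM]
        rw [e1, if_neg (by omega)]
        have e2 : wordM l 2 i b (i + 1) = cyc (l + (i + 1) + 2) := by
          simp [wordM, show i + 1 < b by omega]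
        rw [e2, cyc_eq_A (by omega)]; trivial
      · rcases lt_trichotomy i b with h5 | h5 | h5
        · have e1 : wordM l 2 a b i = cyc (l + i + 2) := by
            simp [wordM, show ¬ i < a by omega, show ¬ i = a by omega, h5]
          rw [e1, if_neg (by omega)]
          rcases Nat.lt_or_ge (i + 1) b with h6 | h6
          · have e2 : wordM l 2 a b (i + 1) = cyc (l + (i + 1) + 2) := by
              simp [wordM, show ¬ i + 1 < a by omega, show ¬ i + 1 = a by omega, h6]
            rw [e2]
            apply Tr_cyc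
            omega
          · have h7 : i + 1 = b := by omega
            have e2 : wordM l 2 a b (i + 1) = .D := by
              simp [wordM, h7, show ¬ b < a by omega, show ¬ b = a by omega]
            rw [e2, cyc_eq_C (by omega)]
            trivial
        · subst h5
          have e1 : wordM l 2 a i i = .D := by
            simp [wordM, show ¬ i < a by omega, show ¬ i = a by omega]
          rw [e1]
          split_ifs with hg
          · rw [cyc_eq_A (by omega)]; trivial
          · have e2 : wordM l 2 a i (i + 1) = cyc (l + (i + 1) + 1) := by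
              simp [wordM, show ¬ i + 1 < a by omega, show ¬ i + 1 = a by omega]
            rw [e2, cyc_eq_A (by omega)]; trivial
        · have e1 : wordM l 2 a b i = cyc (l + i + 1) := by
            simp [wordM, show ¬ i < a by omega, show ¬ i = a by omega,
              show ¬ i < b by omega, show ¬ i = b by omega]
          rw [e1]
          split_ifs with hg
          · apply Tr_cyc
            omega
          · have e2 : wordM l 2 a b (i + 1) = cyc (l + (i + 1) + 1) := by
              simp [wordM, show ¬ i + 1 < a by omega, show ¬ i + 1 = a by omega,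
                show ¬ i + 1 < b by omega, show ¬ i + 1 = b by omega]
            rw [e2]
            apply Tr_cyc
            omega

theorem wordM_D (l k a b i : ℕ) (hk : k ≤ 2) (h : wordM l k a b i = .D) :
    k ≠ 0 ∧ (i = a ∨ (k = 2 ∧ i = b)) := by
  unfold wordM at h
  split_ifs at h with h1 h2 h3 h4 h5 h6
  · exact absurd h (cyc_ne_D _)
  · exact absurd h (cyc_ne_D _)
  · exact ⟨h1, Or.inl h3⟩
  · exact absurd h (cyc_ne_D _)
  · exact absurd h (cyc_ne_D _)
  · exact ⟨h1, Or.inr ⟨by omega, h6⟩⟩
  · exact absurd h (cyc_ne_D _)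

theorem symm_iter {V : Type*} (σ : Equiv.Perm V) (u : V) (i j : ℕ) (hj : j ≤ i) :
    σ.symm^[j] (σ^[i] u) = σ^[i - j] u := by
  have h1 : σ^[i] u = σ^[j] (σ^[i - j] u) := by
    rw [← iterate_add_apply]
    congr 1
    omega
  rw [h1]
  exact (σ.left_inv.iterate j) _

/-- the hypotheses of the lettering theorem with marks -/
structure MarkData {V : Type*} (σ : Equiv.Perm V) (Pm : V → Prop) (lam : V → ℕ) (F0 : Set V)
    (gap num : V → ℕ) (posn : V → Bool → Fin 80 → ℕ) : Prop where
  mark : ∀ y, ∃ i, Pm (σ.symm^[i] y)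
  gap_pos : ∀ u, Pm u → 0 < gap u
  gap_mark : ∀ u, Pm u → Pm (σ^[gap u] u)
  gap_min : ∀ u, Pm u → ∀ n, 0 < n → n < gap u → ¬ Pm (σ^[n] u)
  num_le : ∀ u, num u ≤ 2
  num_eq : ∀ u, Pm u → (lam (σ^[gap u] u) + num u) % 3 = (lam u + gap u) % 3
  p1 : ∀ u, Pm u → num u ≠ 0 → ∀ c x, 0 < posn u c x ∧ posn u c x < gap u
  p2 : ∀ u, Pm u → num u ≠ 0 → ∀ x, (lam u + posn u false x) % 3 = 0
  p2' : ∀ u, Pm u → num u ≠ 0 → ∀ x, (lam u + posn u true x) % 3 = 1
  p3 : ∀ u, Pm u → num u ≠ 0 → ∀ x y, posn u false x + 4 ≤ posn u true y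
  p4 : ∀ u, Pm u → num u ≠ 0 → ∀ c, Injective (posn u c)
  p5 : ∀ u, Pm u → num u ≠ 0 → ∀ c x, σ^[posn u c x] u ∉ F0

/-- **Lettering with marks.** -/
theorem exists_lettering_marks {V : Type*} [Finite V] (σ : Equiv.Perm V) (p : V → V)
    (hpp : ∀ v, p (p v) = v) (hpσ : ∀ v, p v ≠ σ v) {Pm : V → Prop} {lam : V → ℕ} {F0 : Set V}
    {gap num : V → ℕ} {posn : V → Bool → Fin 80 → ℕ}
    (hM : MarkData σ Pm lam F0 gap num posn) :
    ∃ τ : V → Let, Good σ p τ ∧ (∀ u, Pm u → τ u = cyc (lam u)) ∧ ∀ v, τ v = .D → v ∉ F0 := by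
  classical
  let off : V → ℕ := fun y => Nat.find (hM.mark y)
  let last : V → V := fun y => σ.symm^[off y] y
  have hlast : ∀ y, Pm (last y) := fun y => Nat.find_spec (hM.mark y)
  have hoffmin : ∀ y i, i < off y → ¬ Pm (σ.symm^[i] y) := fun y i hi => Nat.find_min _ hi
  have hlast2 : ∀ y, σ^[off y] (last y) = y := fun y => (σ.right_inv.iterate (off y)) y
  have hoff : ∀ y, off y < gap (last y) := by
    intro y
    by_contra hge
    push Not at hge
    have h1 := hM.gap_mark (last y) (hlast y)
    have h2 := hM.gap_pos (last y) (hlast y)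
    have h3 : σ^[gap (last y)] (last y) = σ.symm^[off y - gap (last y)] y := by
      have := symm_iter σ (last y) (off y) (off y - gap (last y)) (by omega)
      rw [hlast2] at this
      rw [this]
      congr 1
      omega
    rw [h3] at h1
    exact hoffmin y _ (by omega) h1
  have huniq : ∀ u i, Pm u → i < gap u → off (σ^[i] u) = i ∧ last (σ^[i] u) = u := by
    intro u i hu hi
    have h1 : off (σ^[i] u) = i := by
      apply le_antisymm
      · apply Nat.find_min'
        rw [symm_iter σ u i i le_rfl, Nat.sub_self]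
        exact hu
      · by_contra hlt
        push Not at hlt
        have h2 := Nat.find_spec (hM.mark (σ^[i] u))
        have h3 : σ.symm^[off (σ^[i] u)] (σ^[i] u) = σ^[i - off (σ^[i] u)] u :=
          symm_iter σ u i _ hlt.le
        have h4 : Pm (σ^[i - off (σ^[i] u)] u) := by rw [← h3]; exact h2
        exact hM.gap_min u hu _ (by omega) (by omega) h4
    refine ⟨h1, ?_⟩
    show σ.symm^[off (σ^[i] u)] (σ^[i] u) = u
    rw [h1, symm_iter σ u i i le_rfl, Nat.sub_self]
    rfl
  -- the windows
  let L := {u : V // Pm u ∧ num u ≠ 0}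
  let vert : (L × Bool) × Fin 80 → V := fun a => σ^[posn a.1.1.1 a.1.2 a.2] a.1.1.1
  have hinj : Injective vert := by
    rintro ⟨⟨⟨u, hu, hn⟩, c⟩, x⟩ ⟨⟨⟨u', hu', hn'⟩, c'⟩, x'⟩ h
    have h' : σ^[posn u c x] u = σ^[posn u' c' x'] u' := h
    have h1 := huniq u (posn u c x) hu (hM.p1 u hu hn c x).2
    have h2 := huniq u' (posn u' c' x') hu' (hM.p1 u' hu' hn' c' x').2
    rw [h'] at h1
    have hu_eq : u = u' := h1.2.symm.trans h2.2
    subst hu_eq
    have hpe : posn u c x = posn u c' x' := h1.1.symm.trans h2.1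
    cases c <;> cases c'
    · rw [hM.p4 u hu hn false hpe]
    · have := hM.p3 u hu hn x x'; omega
    · have := hM.p3 u hu hn x' x; omega
    · rw [hM.p4 u hu hn true hpe]
  have hpinj : Injective p := fun a b hab => by rw [← hpp a, hab, hpp]
  obtain ⟨ω, hω⟩ := transversal 80 5 (by norm_num) (by norm_num) vert hinj
    ![p, fun v => σ (p v), fun v => σ.symm (p v), fun v => σ.symm (p (σ v)),
      fun v => σ.symm (σ.symm (p (σ v)))]
    (by
      intro k
      fin_cases k
      · exact hpinj
      · exact σ.injective.comp hpinj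
      · exact σ.symm.injective.comp hpinj
      · exact σ.symm.injective.comp (hpinj.comp σ.injective)
      · exact σ.symm.injective.comp (σ.symm.injective.comp (hpinj.comp σ.injective)))
  let aa : Bool → V → ℕ := fun c u =>
    if h : Pm u ∧ num u ≠ 0 then posn u c (ω (⟨u, h⟩, c)) else 0
  have haa : ∀ c u (h : Pm u ∧ num u ≠ 0), aa c u = posn u c (ω (⟨u, h⟩, c)) :=
    fun c u h => dif_pos h
  let τ : V → Let := fun y =>
    wordM (lam (last y)) (num (last y)) (aa false (last y)) (aa true (last y)) (off y)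
  have hDv : ∀ v, τ v = .D → ∃ i, v = vert (i, ω i) := by
    intro v hv
    obtain ⟨h1, h2⟩ := wordM_D _ _ _ _ _ (hM.num_le _) hv
    have h3 : Pm (last v) ∧ num (last v) ≠ 0 := ⟨hlast v, h1⟩
    rcases h2 with h2 | ⟨_, h2⟩
    · refine ⟨(⟨last v, h3⟩, false), ?_⟩
      show v = σ^[posn (last v) false (ω (⟨last v, h3⟩, false))] (last v)
      rw [← haa, ← h2, hlast2]
    · refine ⟨(⟨last v, h3⟩, true), ?_⟩
      show v = σ^[posn (last v) true (ω (⟨last v, h3⟩, true))] (last v)
      rw [← haa, ← h2, hlast2]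
  have hD : ∀ k d d', τ d = .D → τ d' = .D → d ≠ d' →
      d' ≠ (![p, fun v => σ (p v), fun v => σ.symm (p v), fun v => σ.symm (p (σ v)),
      fun v => σ.symm (σ.symm (p (σ v)))] : Fin 5 → V → V) k d := by
    intro k d d' hd hd' hne he
    obtain ⟨i, rfl⟩ := hDv d hd
    obtain ⟨i', rfl⟩ := hDv d' hd'
    apply hω i i' k _ he.symm
    intro h
    rw [h] at hne
    exact hne rfl
  refine ⟨τ, ⟨hpp, hpσ, ?_, fun d d' h1 h2 h3 => hD 0 d d' h1 h2 h3,
    fun d d' h1 h2 h3 => hD 1 d d' h1 h2 h3, fun d d' h1 h2 h3 => hD 2 d d' h1 h2 h3,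
    fun d d' h1 h2 h3 => hD 3 d d' h1 h2 h3, fun d d' h1 h2 h3 => hD 4 d d' h1 h2 h3⟩, ?_, ?_⟩
  · intro y
    set u := last y with hu
    have hPu : Pm u := hlast y
    have htr := wordM_tr (lam u) (num u) (aa false u) (aa true u) (gap u) (off y)
      (lam (σ^[gap u] u)) (hM.num_le u)
      (fun hn => by
        rw [haa false u ⟨hPu, hn⟩]
        exact ⟨(hM.p1 u hPu hn _ _).1, (hM.p1 u hPu hn _ _).2, hM.p2 u hPu hn _⟩)
      (fun hn => by
        have hn0 : num u ≠ 0 := by omega
        rw [haa false u ⟨hPu, hn0⟩, haa true u ⟨hPu, hn0⟩]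
        exact ⟨hM.p3 u hPu hn0 _ _, (hM.p1 u hPu hn0 _ _).2, hM.p2' u hPu hn0 _⟩)
      (hM.num_eq u hPu)
    have hσy : σ^[off y + 1] u = σ y := by
      rw [iterate_succ_apply', hlast2]
    split_ifs at htr with hg
    · have h5 : σ y = σ^[gap u] u := by rw [← hσy, hg]
      have h6 : Pm (σ y) := by rw [h5]; exact hM.gap_mark u hPu
      have h7 := huniq (σ y) 0 h6 (hM.gap_pos _ h6)
      have h8 : τ (σ y) = wordM (lam (σ y)) (num (σ y)) (aa false (σ y)) (aa true (σ y)) 0 := by
        show wordM (lam (last (σ y))) (num (last (σ y))) (aa false (last (σ y)))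
          (aa true (last (σ y))) (off (σ y)) = _
        have h9 : off (σ y) = 0 := h7.1
        have h10 : last (σ y) = σ y := h7.2
        rw [h9, h10]
      have h11 : wordM (lam (σ y)) (num (σ y)) (aa false (σ y)) (aa true (σ y)) 0 =
          cyc (lam (σ y)) := by
        unfold wordM
        by_cases hn : num (σ y) = 0
        · rw [if_pos hn]; rfl
        · rw [if_neg hn, haa false (σ y) ⟨h6, hn⟩, if_pos (hM.p1 _ h6 hn _ _).1]
          rfl
      rw [h8, h11, h5]
      exact htr
    · have h5 : off y + 1 < gap u := by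
        have h5' : off y < gap u := hoff y
        omega
      have h6 := huniq u (off y + 1) hPu h5
      rw [hσy] at h6
      have h8 : τ (σ y) = wordM (lam u) (num u) (aa false u) (aa true u) (off y + 1) := by
        show wordM (lam (last (σ y))) (num (last (σ y))) (aa false (last (σ y)))
          (aa true (last (σ y))) (off (σ y)) = _
        rw [h6.1, h6.2]
      rw [h8]
      exact htr
  · intro u hu
    have h7 := huniq u 0 hu (hM.gap_pos _ hu)
    have h9 : off u = 0 := h7.1
    have h10 : last u = u := h7.2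
    show wordM (lam (last u)) (num (last u)) (aa false (last u)) (aa true (last u)) (off u) = _
    rw [h9, h10]
    unfold wordM
    by_cases hn : num u = 0
    · rw [if_pos hn]; rfl
    · rw [if_neg hn, haa false u ⟨hu, hn⟩, if_pos (hM.p1 _ hu hn _ _).1]
      rfl
  · intro v hv
    obtain ⟨⟨⟨u, hu, hn⟩, c⟩, rfl⟩ := hDv v hv
    exact hM.p5 u hu hn c _

end GY64
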