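import Pool.Agent.Lib_helper64.GY.Near
import Pool.Agent.Lib_helper64.GY.Deep
import Pool.Agent.Lib_helper64.GY.Marks
import Pool.Agent.Lib_helper64.GY.CoreZ

set_option autoImplicit false

/-!
# Labelling subcubic graphs of large girth
-/

namespace GY64

open Function SimpleGraph

/-- the forbidden positions of `D` near an extra rare vertex -/
def Phi {X : Type*} (σ : Equiv.Perm X) (p : X → X) (k : Fin 6) (y : X) : X :=
  match k with
  | 0 => σ.symm y
  | 1 => σ.symm (p (σ.symm (p y)))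
  | 2 => p (σ.symm (p y))
  | 3 => σ.symm (σ.symm (p (σ.symm (p y))))
  | 4 => p (σ (p (σ.symm (p y))))
  | 5 => p (σ.symm (p (σ.symm (p y))))

theorem near_Phi {X : Type*} (σ : Equiv.Perm X) (p : X → X) (k : Fin 6) (y : X) :
    Near σ p 5 y (Phi σ p k y) := by
  have h3 : Near σ p 3 y (p (σ.symm (p y))) :=
    ((Near.one_p y).trans (Near.one_t _)).trans (Near.one_p _)
  fin_cases k
  · exact (Near.one_t y).mono (by norm_num)
  · exact (h3.trans (Near.one_t _)).mono (by norm_num)
  · exact h3.mono (by norm_num)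
  · exact (h3.trans (Near.one_t _)).trans (Near.one_t _)
  · exact (h3.trans (Near.one_σ _)).trans (Near.one_p _)
  · exact (h3.trans (Near.one_t _)).trans (Near.one_p _)

/-- the conditions on a matching, a set `W` of missed vertices and the chosen neighbours -/
structure Spots {V : Type} (G : SimpleGraph V) (p : V → V) (W : Set V) (z : V → V)
    (H : SimpleGraph V) : Prop where
  pp : ∀ v, p (p v) = v
  pG : ∀ v, p v = v ∨ G.Adj v (p v)
  pH : ∀ v, ¬ H.Adj v (p v)
  HG : H ≤ G
  Gcases : ∀ a b, G.Adj a b → H.Adj a b ∨ b = p a ∨ (a ∈ W ∧ b = z a) ∨ (b ∈ W ∧ a = z b)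
  zadj : ∀ w ∈ W, G.Adj w (z w)
  zH : ∀ w ∈ W, ¬ H.Adj w (z w)
  pw : ∀ w ∈ W, p w = w
  pz : ∀ w ∈ W, p (z w) ≠ z w
  sep : ∀ w ∈ W, ∀ w' ∈ W, Within G 549 w w' → w = w'

section Main

variable {V : Type} {G H : SimpleGraph V} {p : V → V} {W : Set V} {z : V → V}

theorem Spots.zW (h : Spots G p W z H) {w : V} (hw : w ∈ W) : z w ∉ W := by
  intro hz
  have := h.sep w hw (z w) hz ((Within.adj (h.zadj w hw)).mono (by norm_num))
  exact (h.zadj w hw).ne this

theorem Spots.zpadj (h : Spots G p W z H) {w : V} (hw : w ∈ W) : G.Adj (z w) (p (z w)) :=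
  (h.pG (z w)).resolve_left (h.pz w hw)

theorem Spots.pzW (h : Spots G p W z H) {w w' : V} (hw : w ∈ W) (hw' : w' ∈ W) :
    p (z w) ≠ w' := by
  intro he
  have h1 := h.pw w' hw'
  rw [← he, h.pp] at h1
  exact h.pz w hw h1.symm

theorem Spots.near_w (h : Spots G p W z H) {w w' : V} (hw : w ∈ W) (hw' : w' ∈ W) {n : ℕ}
    (hn : n ≤ 547) (hW : Within G n (z w) (z w')) : w = w' := by
  apply h.sep w hw w' hw'
  exact (((Within.adj (h.zadj w hw)).trans hW).trans
    (Within.adj (h.zadj w' hw')).symm).mono (by omega)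

theorem Spots.z_ne_pz (h : Spots G p W z H) {w w' : V} (hw : w ∈ W) (hw' : w' ∈ W) :
    z w ≠ p (z w') := by
  intro he
  have h1 : w = w' := by
    apply h.near_w hw hw' (n := 1) (by norm_num)
    rw [he]
    exact (Within.adj (h.zpadj hw')).symm
  subst h1
  exact h.pz w hw he.symm

/-- the spot vertices -/
def Q (p : V → V) (W : Set V) (z : V → V) (v : V) : Prop :=
  v ∈ W ∨ (∃ w ∈ W, v = z w) ∨ ∃ w ∈ W, v = p (z w)

theorem Spots.Q_within (h : Spots G p W z H) {v : V} (hv : Q p W z v) :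
    ∃ w ∈ W, Within G 2 w v ∧ (v = w ∨ v = z w ∨ v = p (z w)) := by
  rcases hv with hv | ⟨w, hw, rfl⟩ | ⟨w, hw, rfl⟩
  · exact ⟨v, hv, Within.refl 2 v, Or.inl rfl⟩
  · exact ⟨w, hw, (Within.adj (h.zadj w hw)).mono (by norm_num), Or.inr (Or.inl rfl)⟩
  · exact ⟨w, hw, (Within.adj (h.zadj w hw)).trans (Within.adj (h.zpadj hw)),
      Or.inr (Or.inr rfl)⟩

/-- no short `H`-path between different vertices of one spot -/
theorem Spots.no_short (h : Spots G p W z H) {g0 : ℕ} (hg : GirthGe G g0) {w a b : V}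
    (hw : w ∈ W) (ha : a = w ∨ a = z w ∨ a = p (z w)) (hb : b = w ∨ b = z w ∨ b = p (z w))
    (hab : a ≠ b) (q : H.Walk a b) (hq : q.IsPath) (hlen : q.length + 2 < g0) : False := by
  -- a short path of `G` with an edge outside `H`
  have key : ∀ (a b : V) (q : H.Walk a b), q.IsPath → q.length + 2 < g0 →
      ∀ (r : G.Walk a b), r.IsPath → r.length ≤ 2 → (∃ e ∈ r.edges, e ∉ H.edgeSet) → False := by
    intro a b q hq hlen r hr hrl ⟨e, he, heH⟩
    have hE : ∀ e ∈ q.edges, e ∈ G.edgeSet := by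
      intro e he
      have h1 := q.edges_subset_edgeSet he
      exact SimpleGraph.edgeSet_mono h.HG h1
    have heq := path_unique hg (q.transfer G hE) r (hq.transfer hE) hr (by
      rw [Walk.length_transfer]; omega)
    rw [← heq, Walk.edges_transfer] at he
    exact heH (q.edges_subset_edgeSet he)
  have hwz := h.zadj w hw
  have hzz := h.zpadj hw
  have hwzz : w ≠ p (z w) := (h.pzW hw hw).symm
  have e1 : s(w, z w) ∉ H.edgeSet := by
    rw [SimpleGraph.mem_edgeSet]; exact h.zH w hw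
  have e2 : s(z w, p (z w)) ∉ H.edgeSet := by
    rw [SimpleGraph.mem_edgeSet]; exact h.pH (z w)
  -- the three short paths
  have k1 : ∀ q : H.Walk w (z w), q.IsPath → q.length + 2 < g0 → False := fun q hq hl =>
    key _ _ q hq hl (Walk.cons hwz Walk.nil)
      (by rw [Walk.cons_isPath_iff]; exact ⟨Walk.IsPath.nil, by simpa using hwz.ne⟩)
      (by simp) ⟨s(w, z w), by simp, e1⟩
  have k2 : ∀ q : H.Walk (z w) (p (z w)), q.IsPath → q.length + 2 < g0 → False := fun q hq hl =>
    key _ _ q hq hl (Walk.cons hzz Walk.nil)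
      (by rw [Walk.cons_isPath_iff]; exact ⟨Walk.IsPath.nil, by simpa using hzz.ne⟩)
      (by simp) ⟨s(z w, p (z w)), by simp, e2⟩
  have k3 : ∀ q : H.Walk w (p (z w)), q.IsPath → q.length + 2 < g0 → False := fun q hq hl =>
    key _ _ q hq hl (Walk.cons hwz (Walk.cons hzz Walk.nil))
      (by
        rw [Walk.cons_isPath_iff, Walk.cons_isPath_iff]
        refine ⟨⟨Walk.IsPath.nil, by simpa using hzz.ne⟩, ?_⟩
        simp only [Walk.support_cons, Walk.support_nil, List.mem_cons, List.not_mem_nil,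
          or_false, not_or]
        exact ⟨hwz.ne, hwzz⟩)
      (by simp) ⟨s(w, z w), by simp, e1⟩
  have hrl : q.reverse.length + 2 < g0 := by rw [Walk.length_reverse]; exact hlen
  rcases ha with rfl | rfl | rfl <;> rcases hb with rfl | rfl | rfl
  · exact hab rfl
  · exact k1 q hq hlen
  · exact k3 q hq hlen
  · exact k1 q.reverse hq.reverse hrl
  · exact hab rfl
  · exact k2 q hq hlen
  · exact k3 q.reverse hq.reverse hrl
  · exact k2 q.reverse hq.reverse hrl
  · exact hab rfl

end Main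

section Gap

variable {V : Type} [Finite V] {G H : SimpleGraph V} {p : V → V} {W : Set V} {z : V → V}
variable (s : Equiv.Perm V) (P : V → Prop)

/-- the length of the chains -/
abbrev TT : ℕ := 1100

theorem TT_pos : 0 < TT := by norm_num

/-- the marks coming from spots -/
def QQ (p : V → V) (W : Set V) (z : V → V) (y : V × Fin (TT + 1)) : Prop :=
  ∃ v, Q p W z v ∧ y = (v, 0)

/-- the permutation -/
noncomputable abbrev sg : Equiv.Perm (V × Fin (TT + 1)) := fillP TT_pos s P

/-- no two spot marks within distance 529 on a cycle -/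
theorem Spots.gap (h : Spots G p W z H) (hg : GirthGe G 1102)
    (hs : ∀ v, ¬ P v → H.Adj v (s v)) (hs2 : ∀ v, ¬ P v → ¬ P (s v) → s (s v) ≠ v)
    (u : V × Fin (TT + 1)) (hu : QQ p W z u) (n : ℕ) (hn : 0 < n) (hn' : n < 530) :
    ¬ QQ p W z ((sg s P)^[n] u) := by
  intro hv
  obtain ⟨a, ha, rfl⟩ := hu
  obtain ⟨b, hb, hab⟩ := hv
  have hperiod : ∀ (y : V × Fin (TT + 1)) (m : ℕ), 0 < m → (sg s P)^[m] y = y → 530 ≤ m :=
    fun y m hm hy => period_ge TT_pos s P (L := 530) (g0 := 1102) (by norm_num) (by norm_num)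
      hg h.HG hs hs2 y m hm hy
  have hne : a ≠ b := by
    intro e
    have := hperiod (a, 0) n hn (by rw [hab, e])
    omega
  have hreal := fill_real TT_pos s P a n (by norm_num; omega) (by rw [hab])
  have hstep : ∀ i, i < n → ¬ P ((sg s P)^[i] (a, 0)).1 ∧
      (sg s P)^[i + 1] (a, 0) = (s ((sg s P)^[i] (a, 0)).1, 0) := by
    intro i hi
    have h1 := fill_step TT_pos s P (y := (sg s P)^[i] (a, 0)) (hreal i hi.le) (by
      have := hreal (i + 1) (by omega)
      rwa [iterate_succ_apply'] at this)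
    exact ⟨h1.1, by rw [iterate_succ_apply']; exact h1.2⟩
  have hadj : ∀ i, i < n → H.Adj ((sg s P)^[i] (a, 0)).1 ((sg s P)^[i + 1] (a, 0)).1 := by
    intro i hi
    rw [(hstep i hi).2]
    exact hs _ (hstep i hi).1
  have hperi : ((a, 0) : V × Fin (TT + 1)) ∈ periodicPts (sg s P) := by
    have hv := (orderOf_pos (sg s P))
    refine mem_periodicPts.mpr ⟨orderOf (sg s P), hv, ?_⟩
    show (sg s P)^[orderOf (sg s P)] (a, 0) = (a, 0)
    rw [Equiv.Perm.iterate_eq_pow, pow_orderOf_eq_one]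
    rfl
  have hmin : 530 ≤ minimalPeriod (sg s P) (a, 0) :=
    hperiod _ _ (minimalPeriod_pos_of_mem_periodicPts hperi) (isPeriodicPt_minimalPeriod _ _)
  have hinj : ∀ i j, i ≤ n → j ≤ n → ((sg s P)^[i] (a, 0)).1 = ((sg s P)^[j] (a, 0)).1 →
      i = j := by
    intro i j hi hj he
    have hi' : i < minimalPeriod (sg s P) (a, 0) := by omega
    have hj' : j < minimalPeriod (sg s P) (a, 0) := by omega
    apply (iterate_eq_iterate_iff_of_lt_minimalPeriod hi' hj').mp
    exact Prod.ext he ((hreal i hi).trans (hreal j hj).symm)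
  obtain ⟨q, hq, hlen⟩ : ∃ q : H.Walk a b, q.IsPath ∧ q.length = n := by
    obtain ⟨q, hq, hlen, _⟩ := path_of_seq H (fun i => ((sg s P)^[i] (a, 0)).1) n hadj hinj
    have e1 : ((sg s P)^[n] (a, 0)).1 = b := by rw [hab]
    refine ⟨q.copy rfl e1, by simpa using hq, by simpa using hlen⟩
  obtain ⟨w1, hw1, hW1, hc1⟩ := h.Q_within ha
  obtain ⟨w2, hw2, hW2, hc2⟩ := h.Q_within hb
  have hWab : Within G n a b := ⟨q.mapLe h.HG, by
    rw [Walk.mapLe, Walk.length_map, hlen]⟩
  have hww : w1 = w2 :=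
    h.sep w1 hw1 w2 hw2 (((hW1.trans hWab).trans hW2.symm).mono (by omega))
  subst hww
  exact h.no_short hg hw1 hc1 hc2 hne q hq (by omega)

end Gap

end GY64
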