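import Pool.Agent.Lib_helper64.GY.LG

set_option autoImplicit false

/-!
# The lettering for graphs of large girth
-/

namespace GY64

open Function SimpleGraph

section Let2

variable {V : Type} [Finite V] {G H : SimpleGraph V} {p : V → V} {W : Set V} {z : V → V}
variable (s : Equiv.Perm V) (P : V → Prop)

/-- the forbidden places for `D` -/
def FF (s : Equiv.Perm V) (P : V → Prop) (p : V → V) (W : Set V) (z : V → V) :
    Set (V × Fin (TT + 1)) :=
  {y | ∃ w ∈ W, ∃ k, y = Phi (sg s P) (pF TT p) k (z w, 0)}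

/-- **The lettering.** -/
theorem Spots.lettering (h : Spots G p W z H) (hg : GirthGe G 1102)
    (hs : ∀ v, ¬ P v → H.Adj v (s v)) (hs2 : ∀ v, ¬ P v → ¬ P (s v) → s (s v) ≠ v) :
    ∃ τ : V × Fin (TT + 1) → Let, Good (sg s P) (pF TT p) τ ∧
      (∀ w ∈ W, τ (w, 0) = .A ∧ τ (z w, 0) = .A ∧ τ (p (z w), 0) = .B) ∧
      ∀ y, τ y = .D → y ∉ FF s P p W z := by
  classical
  set σ := sg s P with hσ
  have hperiod : ∀ (y : V × Fin (TT + 1)) (m : ℕ), 0 < m → σ^[m] y = y → 530 ≤ m :=
    fun y m hm hy => period_ge TT_pos s P (L := 530) (g0 := 1102) (by norm_num) (by norm_num)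
      hg h.HG hs hs2 y m hm hy
  have hperi : ∀ y, y ∈ periodicPts σ := by
    intro y
    have hv := (orderOf_pos σ)
    refine mem_periodicPts.mpr ⟨orderOf σ, hv, ?_⟩
    show σ^[orderOf σ] y = y
    rw [Equiv.Perm.iterate_eq_pow, pow_orderOf_eq_one]
    rfl
  have hmin : ∀ y, 530 ≤ minimalPeriod σ y := fun y =>
    hperiod _ _ (minimalPeriod_pos_of_mem_periodicPts (hperi y)) (isPeriodicPt_minimalPeriod _ _)
  have hinjσ : ∀ y i j, i < 530 → j < 530 → σ^[i] y = σ^[j] y → i = j := by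
    intro y i j hi hj he
    exact (iterate_eq_iterate_iff_of_lt_minimalPeriod (lt_of_lt_of_le hi (hmin y))
      (lt_of_lt_of_le hj (hmin y))).mp he
  -- the involution
  have hpp' : ∀ y, pF TT p (pF TT p y) = y := pF_pF p h.pp
  have hpσ' : ∀ y, pF TT p y ≠ σ y := by
    intro y hy
    by_cases h0 : y.2.1 = 0
    · have hy0 : y = (y.1, 0) := Prod.ext rfl (Fin.ext h0)
      rw [hy0, pF_real] at hy
      have h1 := fill_step TT_pos s P (y := (y.1, 0)) rfl (by
        show (σ (y.1, 0)).2 = 0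
        rw [← hy])
      have h2 : σ (y.1, 0) = (s y.1, 0) := h1.2
      rw [h2] at hy
      have h3 : p y.1 = s y.1 := (Prod.mk.inj hy).1
      exact h.pH y.1 (h3 ▸ hs y.1 h1.1)
    · rw [pF_fill p y h0] at hy
      have := hperiod y 1 (by norm_num) hy.symm
      omega
  -- the marks
  let S : Setoid (V × Fin (TT + 1)) := Equiv.Perm.SameCycle.setoid σ
  let Pm : V × Fin (TT + 1) → Prop := fun y => QQ p W z y ∨
    ((∀ y', Equiv.Perm.SameCycle σ y y' → ¬ QQ p W z y') ∧ y = (Quotient.mk S y).out)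
  have hcyc_iter : ∀ y (n : ℕ), Equiv.Perm.SameCycle σ y (σ^[n] y) := by
    intro y n
    rw [Equiv.Perm.iterate_eq_pow]
    exact Equiv.Perm.sameCycle_pow_right.mpr (Equiv.Perm.SameCycle.refl σ y)
  have hsymm_ex : ∀ y y', Equiv.Perm.SameCycle σ y y' → ∃ i : ℕ, σ.symm^[i] y = y' := by
    intro y y' hc
    obtain ⟨n, hn⟩ := hc.symm.exists_nat_pow_eq
    refine ⟨n, ?_⟩
    rw [← Equiv.Perm.iterate_eq_pow] at hn
    rw [← hn]
    exact (σ.left_inv.iterate n) y'
  have hmark : ∀ y, ∃ i, Pm (σ.symm^[i] y) := by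
    intro y
    by_cases hex : ∃ y', Equiv.Perm.SameCycle σ y y' ∧ QQ p W z y'
    · obtain ⟨y', hc, hQ⟩ := hex
      obtain ⟨i, hi⟩ := hsymm_ex y y' hc
      exact ⟨i, by rw [hi]; exact Or.inl hQ⟩
    · push Not at hex
      have hc : Equiv.Perm.SameCycle σ (Quotient.mk S y).out y := Quotient.mk_out (s := S) y
      obtain ⟨i, hi⟩ := hsymm_ex y _ hc.symm
      refine ⟨i, Or.inr ?_⟩
      rw [hi]
      refine ⟨fun y' hy' => hex y' (hc.symm.trans hy'), ?_⟩
      rw [Quotient.out_eq]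
  -- the gaps
  have hgapQ : ∀ u, Pm u → ∀ n, 0 < n → n < 530 → ¬ Pm (σ^[n] u) := by
    intro u hu n hn hn' hv
    rcases hu with hu | ⟨hu1, hu2⟩
    · rcases hv with hv | ⟨hv1, _⟩
      · exact h.gap s P hg hs hs2 u hu n hn hn' hv
      · exact hv1 u (hcyc_iter u n).symm hu
    · rcases hv with hv | ⟨_, hv2⟩
      · exact hu1 _ (hcyc_iter u n) hv
      · have h1 : Quotient.mk S (σ^[n] u) = Quotient.mk S u :=
          Quotient.sound (hcyc_iter u n).symm
        rw [h1, ← hu2] at hv2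
        have := hperiod u n hn hv2
        omega
  have hgex : ∀ u, Pm u → ∃ n, 0 < n ∧ Pm (σ^[n] u) := by
    intro u hu
    refine ⟨minimalPeriod σ u, ?_, ?_⟩
    · have := hmin u; omega
    · rw [iterate_minimalPeriod]; exact hu
  let gap : V × Fin (TT + 1) → ℕ := fun u =>
    if hu : ∃ n, 0 < n ∧ Pm (σ^[n] u) then Nat.find hu else 0
  have hgap : ∀ u, Pm u → 0 < gap u ∧ Pm (σ^[gap u] u) ∧
      ∀ n, 0 < n → n < gap u → ¬ Pm (σ^[n] u) := by
    intro u hu
    have hex := hgex u hu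
    have h1 : gap u = Nat.find hex := dif_pos hex
    rw [h1]
    obtain ⟨h2, h3⟩ := Nat.find_spec hex
    exact ⟨h2, h3, fun n hn hn' hP => Nat.find_min hex hn' ⟨hn, hP⟩⟩
  have hgap530 : ∀ u, Pm u → 530 ≤ gap u := by
    intro u hu
    by_contra hlt
    push Not at hlt
    obtain ⟨h1, h2, _⟩ := hgap u hu
    exact hgapQ u hu _ h1 hlt h2
  let lam : V × Fin (TT + 1) → ℕ := fun y => if ∃ w ∈ W, y = (p (z w), 0) then 1 else 0
  have hlam1 : ∀ y, lam y ≤ 1 := by
    intro y
    simp only [lam]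
    split_ifs <;> omega
  let num : V × Fin (TT + 1) → ℕ := fun u => (lam u + gap u + 2 * lam (σ^[gap u] u)) % 3
  -- the windows
  have hwin : ∀ u, Pm u → ∀ B, B + 255 < 530 → ∃ x : Fin 80 → ℕ, Injective x ∧
      ∀ i, (∃ j, j < 86 ∧ x i = B + 3 * j) ∧ σ^[x i] u ∉ FF s P p W z := by
    intro u hu B hB
    let bad : Finset (Fin 86) :=
      Finset.univ.filter fun j => σ^[B + 3 * j.1] u ∈ FF s P p W z
    have hbad : ∀ j ∈ bad, ∃ w ∈ W, ∃ k, σ^[B + 3 * j.1] u = Phi σ (pF TT p) k (z w, 0) := by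
      intro j hj
      exact (Finset.mem_filter.mp hj).2
    have hsame : ∀ j j' : Fin 86, ∀ w ∈ W, ∀ w' ∈ W, ∀ k k', j.1 ≤ j'.1 →
        σ^[B + 3 * j.1] u = Phi σ (pF TT p) k (z w, 0) →
        σ^[B + 3 * j'.1] u = Phi σ (pF TT p) k' (z w', 0) → w = w' := by
      intro j j' w hw w' hw' k k' hjj e1 e2
      have hj := j.2
      have hj' := j'.2
      have n1 := near_Phi σ (pF TT p) k (z w, 0)
      have n2 := near_Phi σ (pF TT p) k' (z w', 0)
      rw [← e1] at n1
      rw [← e2] at n2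
      have n3 : Near σ (pF TT p) (3 * (j'.1 - j.1)) (σ^[B + 3 * j.1] u)
          (σ^[B + 3 * j'.1] u) := by
        have := Near.iter (σ := σ) (p := pF TT p) (3 * (j'.1 - j.1)) (σ^[B + 3 * j.1] u)
        rw [← iterate_add_apply] at this
        have e3 : 3 * (j'.1 - j.1) + (B + 3 * j.1) = B + 3 * j'.1 := by omega
        rwa [e3] at this
      have n4 := ((n1.trans n3).trans (n2.symm hpp')).mono (n := 540) (by omega)
      have n5 := near_real TT_pos s P (by norm_num) h.HG hs p h.pG 540 (by norm_num) _ _ n4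
      exact h.near_w hw hw' (by norm_num) n5
    have hcard : bad.card ≤ 6 := by
      rw [show (6 : ℕ) = (Finset.univ : Finset (Fin 6)).card by simp]
      choose! w hwW k hk using hbad
      apply Finset.card_le_card_of_injOn k (fun j _ => Finset.mem_univ _)
      intro j hj j' hj' he
      have hww : w j hj = w j' hj' := by
        rcases le_total j.1 j'.1 with hle | hle
        · exact hsame j j' _ (hwW j hj) _ (hwW j' hj') _ _ hle (hk j hj) (hk j' hj')
        · exact (hsame j' j _ (hwW j' hj') _ (hwW j hj) _ _ hle (hk j' hj') (hk j hj)).symm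
      have e1 : σ^[B + 3 * j.1] u = σ^[B + 3 * j'.1] u := by
        rw [hk j hj, hk j' hj', he, hww]
      have hj2 := j.2
      have hj2' := j'.2
      have := hinjσ u _ _ (by omega) (by omega) e1
      exact Fin.ext (by omega)
    have hgood : Fintype.card (Fin 80) ≤
        Fintype.card {j : Fin 86 // σ^[B + 3 * j.1] u ∉ FF s P p W z} := by
      rw [Fintype.card_fin, Fintype.card_subtype_compl, Fintype.card_fin,
        Fintype.card_subtype]
      have : (Finset.univ.filter fun j : Fin 86 => σ^[B + 3 * j.1] u ∈ FF s P p W z).card ≤ 6 :=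
        hcard
      omega
    obtain ⟨E⟩ := Function.Embedding.nonempty_of_card_le hgood
    refine ⟨fun i => B + 3 * (E i).1.1, ?_, ?_⟩
    · intro i i' he
      apply E.injective
      apply Subtype.ext
      apply Fin.ext
      simp only [] at he
      omega
    · intro i
      exact ⟨⟨(E i).1.1, (E i).1.2, rfl⟩, (E i).2⟩
  have hwinA : ∀ u, ∃ x : Bool → Fin 80 → ℕ, Pm u → (∀ c, Injective (x c)) ∧
      (∀ i, (∃ j, j < 86 ∧ x false i = 3 - lam u + 3 * j) ∧ σ^[x false i] u ∉ FF s P p W z) ∧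
      (∀ i, (∃ j, j < 86 ∧ x true i = 265 - lam u + 3 * j) ∧ σ^[x true i] u ∉ FF s P p W z) := by
    intro u
    by_cases hu : Pm u
    · obtain ⟨x1, h1, h2⟩ := hwin u hu (3 - lam u) (by omega)
      obtain ⟨x2, h3, h4⟩ := hwin u hu (265 - lam u) (by omega)
      refine ⟨fun c => if c then x2 else x1, fun _ => ⟨?_, ?_, ?_⟩⟩
      · intro c
        cases c
        · simpa using h1
        · simpa using h3
      · simpa using h2
      · simpa using h4
    · exact ⟨fun _ _ => 0, fun h => absurd h hu⟩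
  choose posn hposn using hwinA
  have hM : MarkData σ Pm lam (FF s P p W z) gap num posn :=
    { mark := hmark
      gap_pos := fun u hu => (hgap u hu).1
      gap_mark := fun u hu => (hgap u hu).2.1
      gap_min := fun u hu => (hgap u hu).2.2
      num_le := fun u => by
        simp only [num]
        omega
      num_eq := fun u _ => by
        simp only [num]
        omega
      p1 := fun u hu _ c i => by
        obtain ⟨_, h2, h3⟩ := hposn u hu
        have h4 := hlam1 u
        have h5 := hgap530 u hu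
        cases c
        · obtain ⟨⟨j, hj, he⟩, _⟩ := h2 i
          omega
        · obtain ⟨⟨j, hj, he⟩, _⟩ := h3 i
          omega
      p2 := fun u hu _ i => by
        obtain ⟨_, h2, _⟩ := hposn u hu
        obtain ⟨⟨j, hj, he⟩, _⟩ := h2 i
        have h4 := hlam1 u
        omega
      p2' := fun u hu _ i => by
        obtain ⟨_, _, h3⟩ := hposn u hu
        obtain ⟨⟨j, hj, he⟩, _⟩ := h3 i
        have h4 := hlam1 u
        omega
      p3 := fun u hu _ i i' => by
        obtain ⟨_, h2, h3⟩ := hposn u hu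
        obtain ⟨⟨j, hj, he⟩, _⟩ := h2 i
        obtain ⟨⟨j', hj', he'⟩, _⟩ := h3 i'
        have h4 := hlam1 u
        omega
      p4 := fun u hu _ c => (hposn u hu).1 c
      p5 := fun u hu _ c i => by
        obtain ⟨_, h2, h3⟩ := hposn u hu
        cases c
        · exact (h2 i).2
        · exact (h3 i).2 }
  obtain ⟨τ, hτ1, hτ2, hτ3⟩ := exists_lettering_marks σ (pF TT p) hpp' hpσ' hM
  refine ⟨τ, hτ1, ?_, hτ3⟩
  intro w hw
  have hQ1 : Pm (w, 0) := Or.inl ⟨w, Or.inl hw, rfl⟩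
  have hQ2 : Pm (z w, 0) := Or.inl ⟨z w, Or.inr (Or.inl ⟨w, hw, rfl⟩), rfl⟩
  have hQ3 : Pm (p (z w), 0) := Or.inl ⟨p (z w), Or.inr (Or.inr ⟨w, hw, rfl⟩), rfl⟩
  have hl1 : lam (w, 0) = 0 := by
    simp only [lam]
    rw [if_neg]
    rintro ⟨w', hw', he⟩
    exact h.pzW hw' hw (Prod.mk.inj he).1.symm
  have hl2 : lam (z w, 0) = 0 := by
    simp only [lam]
    rw [if_neg]
    rintro ⟨w', hw', he⟩
    exact h.z_ne_pz hw hw' (Prod.mk.inj he).1
  have hl3 : lam (p (z w), 0) = 1 := by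
    simp only [lam]
    rw [if_pos ⟨w, hw, rfl⟩]
  refine ⟨?_, ?_, ?_⟩
  · rw [hτ2 _ hQ1, hl1]; rfl
  · rw [hτ2 _ hQ2, hl2]; rfl
  · rw [hτ2 _ hQ3, hl3]; rfl

end Let2

end GY64
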