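import Pool.Agent.Lib_helper64.GY.LG2

set_option autoImplicit false

/-!
# Labelling subcubic graphs of large girth: the end
-/

namespace GY64

open Function SimpleGraph

section Fin2

variable {V : Type} [Finite V] {G H : SimpleGraph V} {p : V → V} {W : Set V} {z : V → V}
variable (s : Equiv.Perm V) (P : V → Prop)

theorem pred_B {X : Type*} {σ : Equiv.Perm X} {p : X → X} {τ : X → Let} (h : Good σ p τ)
    {y : X} (hy : τ y = .B) : τ (σ.symm y) = .A := by
  have := h.tr' y
  rw [hy] at this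
  cases hh : τ (σ.symm y) <;> rw [hh] at this <;> first | rfl | exact this.elim

theorem Spots.zgood (h : Spots G p W z H)
    (hs : ∀ v, ¬ P v → H.Adj v (s v)) {τ : V × Fin (TT + 1) → Let}
    (hτ : Good (sg s P) (pF TT p) τ)
    (hW : ∀ w ∈ W, τ (w, 0) = .A ∧ τ (z w, 0) = .A ∧ τ (p (z w), 0) = .B)
    (hF : ∀ y, τ y = .D → y ∉ FF s P p W z) :
    ZGood (sg s P) (pF TT p) τ {y | ∃ w ∈ W, y = (z w, 0)} := by
  set σ := sg s P with hσ
  set p' := pF TT p with hp'
  have hpp' : ∀ y, p' (p' y) = y := pF_pF p h.pp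
  have hΦ : ∀ w ∈ W, ∀ k, τ (Phi σ p' k (z w, 0)) ≠ .D := fun w hw k hD =>
    hF _ hD ⟨w, hw, k, rfl⟩
  have hpz : ∀ w, p' (z w, 0) = (p (z w), 0) := fun w => pF_real p (z w)
  have hψ : ∀ w ∈ W, psi σ p' τ (z w, 0) = σ.symm (p' (z w, 0)) := by
    intro w hw
    apply hτ.psi_of_t
    rw [(hW w hw).2.1]
    apply pred_B hτ
    rw [hpz]
    exact (hW w hw).2.2
  have hnear1 : ∀ w, Near σ p' 2 (z w, 0) (σ.symm (p' (z w, 0))) := fun w =>
    (Near.one_p _).trans (Near.one_t _)
  have hsame : ∀ w ∈ W, ∀ w' ∈ W, ∀ n, n ≤ 540 → Near σ p' n (z w, 0) (z w', 0) → w = w' := by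
    intro w hw w' hw' n hn hN
    exact h.near_w hw hw' (n := n) (by omega)
      (near_real TT_pos s P (by norm_num) h.HG hs p h.pG n
        (by have : TT / 2 = 550 := rfl
            omega) _ _ hN)
  refine ⟨?_, ?_, ?_, ?_⟩
  · rintro _ ⟨w, hw, rfl⟩
    exact (hW w hw).2.1
  · rintro _ ⟨w, hw, rfl⟩
    refine ⟨hΦ w hw 0, ?_⟩
    intro hY
    unfold YA at hY
    rw [hpz, (hW w hw).2.2] at hY
    cases hY
  · rintro _ ⟨w, hw, rfl⟩ hne ⟨w', hw', he⟩
    rw [hψ w hw] at he hne
    have hN := hnear1 w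
    rw [he] at hN
    have hww := hsame w hw w' hw' 2 (by norm_num) hN
    rw [← hww] at he
    exact hne he
  · rintro _ ⟨w, hw, rfl⟩ hne
    rw [hψ w hw] at hne ⊢
    set a := σ.symm (p' (z w, 0)) with ha
    have haA : τ a = .A := by
      apply pred_B hτ
      rw [hpz]
      exact (hW w hw).2.2
    have hΦ' : ∀ k, τ (Phi σ p' k (z w, 0)) ≠ .D := hΦ w hw
    have f1 : τ (σ.symm (p' a)) ≠ .D := hΦ' 1
    have f2 : τ (p' a) ≠ .D := hΦ' 2
    have f3 : τ (σ.symm (σ.symm (p' a))) ≠ .D := hΦ' 3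
    have f4 : τ (p' (σ (p' a))) ≠ .D := hΦ' 4
    have f5 : τ (p' (σ.symm (p' a))) ≠ .D := hΦ' 5
    have hb : (psi σ p' τ a = p' a) ∨ (psi σ p' τ a = σ (p' a)) ∨
        (psi σ p' τ a = σ.symm (p' a)) := by
      rcases psi_cases (σ := σ) (p := p') (τ := τ) a with ⟨h1, _⟩ | ⟨h1, _⟩ | ⟨h1, _⟩ | h1
      · exact Or.inl h1
      · exact Or.inr (Or.inl h1)
      · exact Or.inr (Or.inr h1)
      · exact absurd h1 hne
    have hNb : Near σ p' 4 (z w, 0) (psi σ p' τ a) := by
      have h2 : Near σ p' 3 (z w, 0) (p' a) := (hnear1 w).trans (Near.one_p _)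
      rcases hb with h1 | h1 | h1
      · rw [h1]; exact h2.mono (by norm_num)
      · rw [h1]; exact h2.trans (Near.one_σ _)
      · rw [h1]; exact h2.trans (Near.one_t _)
    refine ⟨?_, ?_, ?_⟩
    · unfold XA
      rcases hb with h1 | h1 | h1
      · rw [h1]; exact f1
      · rw [h1, Equiv.symm_apply_apply]; exact f2
      · rw [h1]; exact f3
    · unfold YA
      rcases hb with h1 | h1 | h1
      · rw [h1, hpp', haA]
        intro hc
        cases hc
      · rw [h1]; exact f4
      · rw [h1]; exact f5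
    · rintro _ ⟨w', hw', rfl⟩ he
      rw [hψ w' hw'] at he
      have hN2 := hnear1 w'
      rw [he] at hN2
      have hN3 := hNb.trans (hN2.symm hpp')
      have hww := hsame w hw w' hw' _ (by norm_num) hN3
      rw [← hww] at he
      exact hne he.symm

/-- **The labelling from spots.** -/
theorem Spots.labelling (h : Spots G p W z H) (hg : GirthGe G 1102)
    (hH : ∀ v, (H.neighborSet v).ncard ≤ 2) :
    ∃ f : V → ℕ, (∀ v, f v ≤ 9) ∧ (∀ u v, G.Adj u v → Far (f u) (f v)) ∧
      (∀ u v w, u ≠ v → G.Adj u w → G.Adj v w → f u ≠ f v) := by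
  classical
  obtain ⟨D, hD1, hD2, hD3, hD4⟩ := exists_succ H hH
  obtain ⟨s, hsD⟩ := exists_succ_perm D hD2 hD3
  let P : V → Prop := fun v => ¬ ∃ w, D v w
  have hP : ∀ v, ¬ P v → D v (s v) := by
    intro v hv
    obtain ⟨w, hw⟩ := not_not.mp hv
    rw [hsD v w hw]; exact hw
  have hs : ∀ v, ¬ P v → H.Adj v (s v) := fun v hv => (hD1 _ _).mpr (Or.inl (hP v hv))
  have hs2 : ∀ v, ¬ P v → ¬ P (s v) → s (s v) ≠ v := by
    intro v hv hv2 he
    have h2 := hP _ hv2
    rw [he] at h2
    exact hD4 _ _ (hP v hv) h2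
  obtain ⟨τ, hτ, hW, hF⟩ := h.lettering s P hg hs hs2
  have hZ := h.zgood s P hs hτ hW hF
  obtain ⟨f, hf9, hf1, hf2, hf3, hf4, hf5, hf6, hf7, hf8⟩ := hτ.labelZ hZ
  set σ := sg s P with hσ
  set p' := pF TT p with hp'
  have hpp' : ∀ y, p' (p' y) = y := pF_pF p h.pp
  -- the embedding
  let e : V → V × Fin (TT + 1) := fun v => (v, 0)
  have he : ∀ {a b : V}, e a = e b → a = b := fun h => (Prod.mk.inj h).1
  have hp'e : ∀ v, p' (e v) = e (p v) := fun v => pF_real p v
  have hσe : ∀ v w, D v w → σ (e v) = e w := by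
    intro v w hvw
    have hnP : ¬ P v := fun hPv => hPv ⟨w, hvw⟩
    show fillS TT TT_pos s P (v, 0) = (w, 0)
    rw [fill2 TT_pos s P hnP, hsD v w hvw]
  have hHe : ∀ u v, H.Adj u v → e u = σ (e v) ∨ e u = σ.symm (e v) := by
    intro u v huv
    rcases (hD1 u v).mp huv with h1 | h1
    · right
      rw [← hσe u v h1, Equiv.symm_apply_apply]
    · left
      exact (hσe v u h1).symm
  have hfw : ∀ w ∈ W, f (e w) = 0 := by
    intro w hw
    apply hf8 (e w) (hW w hw).1
    · rw [hp'e, h.pw w hw]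
    · rintro ⟨w', hw', hwz⟩
      exact h.zW hw' (he hwz ▸ hw)
  have hfz : ∀ w ∈ W, f (e (z w)) = 2 := fun w hw => hf7 _ ⟨w, hw, rfl⟩
  -- neighbours
  have hnb : ∀ u v, G.Adj u v → (e u = σ (e v) ∨ e u = σ.symm (e v)) ∨ e u = p' (e v) ∨
      (v ∈ W ∧ u = z v) ∨ (u ∈ W ∧ v = z u) := by
    intro u v huv
    rcases h.Gcases u v huv with h1 | h1 | h1 | h1
    · exact Or.inl (hHe u v h1)
    · right; left
      rw [hp'e, h1, h.pp]
    · exact Or.inr (Or.inr (Or.inr h1))
    · exact Or.inr (Or.inr (Or.inl h1))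
  have hσsymm : ∀ y, Far (f (σ.symm y)) (f y) := by
    intro y
    have := hf1 (σ.symm y)
    rw [Equiv.apply_symm_apply] at this
    exact this.symm
  have key1 : ∀ y, f (σ y) ≠ f (σ.symm y) := by
    intro y
    have := hf3 (σ.symm y)
    rwa [Equiv.apply_symm_apply] at this
  have key2 : ∀ y, p' y ≠ y → f (σ y) ≠ f (p' y) := by
    intro y hy
    have := hf4 (p' y) (by rw [hpp']; exact hy.symm)
    rwa [hpp'] at this
  have key3 : ∀ y, p' y ≠ y → f (σ.symm y) ≠ f (p' y) := by
    intro y hy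
    have := hf5 (p' y) (by rw [hpp']; exact hy.symm)
    rwa [hpp'] at this
  -- a vertex of W or its partner z, against a σ-neighbour
  have hAσ : ∀ y y', τ y = .A → τ y' = .A → (∀ x, (x = σ y' ∨ x = σ.symm y') → f y ≠ f x) := by
    intro y y' hy hy' x hx
    apply hf6
    rw [hy]
    rcases hx with rfl | rfl
    · have := hτ.ne_succ y'
      rw [hy'] at this
      exact this.symm
    · have := hτ.ne_pred y'
      rw [hy'] at this
      exact this.symm
  have hWadj : ∀ a ∈ W, ∀ b ∈ W, ∀ n, n ≤ 549 → Within G n a b → a = b :=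
    fun a ha b hb n hn hab => h.sep a ha b hb (hab.mono hn)
  -- distance two, one direction
  have hd2 : ∀ u v x, u ≠ v → G.Adj u x → G.Adj v x →
      ((x ∈ W ∧ u = z x) ∨ (u ∈ W ∧ x = z u)) → f (e u) ≠ f (e v) := by
    intro u v x huv hux hvx hcase
    rcases hcase with ⟨hxW, rfl⟩ | ⟨huW, rfl⟩
    · -- `x ∈ W`, `u = z x`
      rcases hnb v x hvx with h1 | h1 | ⟨_, h1⟩ | ⟨hvW, h1⟩
      · exact hAσ (e (z x)) (e x) (hW x hxW).2.1 (hW x hxW).1 (e v) h1
      · exfalso
        rw [hp'e, h.pw x hxW] at h1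
        exact hvx.ne (he h1)
      · exact absurd h1.symm huv
      · exfalso
        have := hWadj v hvW x hxW 1 (by norm_num) (Within.adj hvx)
        exact hvx.ne this
    · -- `u ∈ W`, `x = z u`
      rcases hnb v (z u) hvx with h1 | h1 | ⟨hxW, _⟩ | ⟨hvW, h1⟩
      · exact hAσ (e u) (e (z u)) (hW u huW).1 (hW u huW).2.1 (e v) h1
      · apply hf6
        have h2 : τ (e u) = .A := (hW u huW).1
        have h3 : τ (e v) = .B := by
          rw [h1, hp'e]
          exact (hW u huW).2.2
        rw [h2, h3]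
        intro hc
        cases hc
      · exact absurd hxW (h.zW huW)
      · exfalso
        have := hWadj u huW v hvW 2 (by norm_num)
          ((Within.adj hux).trans (Within.adj hvx).symm)
        exact huv this
  refine ⟨fun v => f (e v), fun v => hf9 _, ?_, ?_⟩
  · intro u v huv
    show Far (f (e u)) (f (e v))
    rcases hnb u v huv with (h1 | h1) | h1 | ⟨hvW, rfl⟩ | ⟨huW, rfl⟩
    · rw [h1]; exact hf1 _
    · rw [h1]; exact hσsymm _
    · rw [h1]
      apply hf2
      rw [← h1]
      exact fun h' => huv.ne (he h')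
    · rw [hfw v hvW, hfz v hvW]
      exact Or.inr (by norm_num)
    · rw [hfw u huW, hfz u huW]
      exact Or.inl (by norm_num)
  · intro u v x huv hux hvx
    show f (e u) ≠ f (e v)
    rcases hnb u x hux with h1 | h1 | h1 | h1
    · rcases hnb v x hvx with h2 | h2 | h2 | h2
      · rcases h1 with h1 | h1 <;> rcases h2 with h2 | h2
        · exact absurd (he (h1.trans h2.symm)) huv
        · rw [h1, h2]; exact key1 _
        · rw [h1, h2]; exact (key1 _).symm
        · exact absurd (he (h1.trans h2.symm)) huv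
      · have hx : p' (e x) ≠ e x := by
          rw [← h2]; exact fun h' => hvx.ne (he h')
        rcases h1 with h1 | h1
        · rw [h1, h2]; exact key2 _ hx
        · rw [h1, h2]; exact key3 _ hx
      · exact (hd2 v u x huv.symm hvx hux (Or.inl h2)).symm
      · exact (hd2 v u x huv.symm hvx hux (Or.inr h2)).symm
    · rcases hnb v x hvx with h2 | h2 | h2 | h2
      · have hx : p' (e x) ≠ e x := by
          rw [← h1]; exact fun h' => hux.ne (he h')
        rcases h2 with h2 | h2
        · rw [h1, h2]; exact (key2 _ hx).symm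
        · rw [h1, h2]; exact (key3 _ hx).symm
      · exact absurd (he (h1.trans h2.symm)) huv
      · exact (hd2 v u x huv.symm hvx hux (Or.inl h2)).symm
      · exact (hd2 v u x huv.symm hvx hux (Or.inr h2)).symm
    · exact hd2 u v x huv hux hvx (Or.inl h1)
    · exact hd2 u v x huv hux hvx (Or.inr h1)

end Fin2

/-- **Griggs–Yeh bound for subcubic graphs of large girth.** -/
theorem labelling_large_girth {V : Type} [Finite V] (G : SimpleGraph V)
    (hdeg : ∀ v, (G.neighborSet v).ncard ≤ 3) (hg : GirthGe G 1102) :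
    ∃ f : V → ℕ, (∀ v, f v ≤ 9) ∧ (∀ u v, G.Adj u v → Far (f u) (f v)) ∧
      (∀ u v w, u ≠ v → G.Adj u w → G.Adj v w → f u ≠ f v) := by
  classical
  have : Fintype V := Fintype.ofFinite V
  obtain ⟨M, C, hM, hcov, hsep, hC3⟩ := exists_sep_matching G (R := 550) (by norm_num) hg hdeg
  let W : Set V := {w | (G.neighborSet w).ncard = 3 ∧ w ∉ M.verts}
  have hWC : ∀ w ∈ W, w ∈ C := by
    intro w hw
    by_contra hc
    exact hw.2 (hcov w hw.1 hc)
  have hzex : ∀ w, ∃ b, w ∈ W → G.Adj w b := by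
    intro w
    by_cases hw : w ∈ W
    · have h1 : (G.neighborSet w).Nonempty :=
        Set.nonempty_of_ncard_ne_zero (by rw [hw.1]; norm_num)
      obtain ⟨b, hb⟩ := h1
      exact ⟨b, fun _ => hb⟩
    · exact ⟨w, fun h => absurd h hw⟩
  choose z hz using hzex
  have hsepW : ∀ w ∈ C, ∀ w' ∈ C, Within G 549 w w' → w = w' := by
    intro w hw w' hw' ⟨q, hq⟩
    by_contra hne
    have := hsep w hw w' hw' hne q
    omega
  have hzC : ∀ w ∈ W, z w ∉ C := by
    intro w hw hzw
    exact (hz w hw).ne (hsepW w (hWC w hw) _ hzw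
      ((Within.adj (hz w hw)).mono (by norm_num)))
  have hzM : ∀ w ∈ W, z w ∈ M.verts := by
    intro w hw
    exact hcov (z w) (hC3 w (hWC w hw) _ (hz w hw)) (hzC w hw)
  -- the involution
  let p : V → V := fun v => if h : v ∈ M.verts then (hM h).choose else v
  have hpM : ∀ v w, M.Adj v w → p v = w := by
    intro v w hvw
    have hv : v ∈ M.verts := M.edge_vert hvw
    have h1 : p v = (hM hv).choose := dif_pos hv
    rw [h1]
    exact ((hM hv).choose_spec.2 w hvw).symm
  have hpM2 : ∀ v, v ∈ M.verts → M.Adj v (p v) := by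
    intro v hv
    have h1 : p v = (hM hv).choose := dif_pos hv
    rw [h1]
    exact (hM hv).choose_spec.1
  have hpM3 : ∀ v, v ∉ M.verts → p v = v := fun v hv => dif_neg hv
  have hpp : ∀ v, p (p v) = v := by
    intro v
    by_cases hv : v ∈ M.verts
    · exact hpM _ _ (hpM2 v hv).symm
    · rw [hpM3 v hv, hpM3 v hv]
  let H : SimpleGraph V :=
    { Adj := fun a b => G.Adj a b ∧ ¬ M.Adj a b ∧ ¬ (a ∈ W ∧ b = z a) ∧ ¬ (b ∈ W ∧ a = z b)
      symm := ⟨fun a b h => ⟨h.1.symm, fun h' => h.2.1 h'.symm, h.2.2.2, h.2.2.1⟩⟩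
      loopless := ⟨fun a h => h.1.ne rfl⟩ }
  have hspots : Spots G p W z H :=
    { pp := hpp
      pG := fun v => by
        by_cases hv : v ∈ M.verts
        · exact Or.inr (hpM2 v hv).adj_sub
        · exact Or.inl (hpM3 v hv)
      pH := fun v hv => by
        by_cases hvM : v ∈ M.verts
        · exact hv.2.1 (hpM2 v hvM)
        · have h1 := hv.1
          rw [hpM3 v hvM] at h1
          exact h1.ne rfl
      HG := fun a b hab => hab.1
      Gcases := fun a b hab => by
        by_cases h1 : M.Adj a b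
        · exact Or.inr (Or.inl (hpM a b h1).symm)
        · by_cases h2 : a ∈ W ∧ b = z a
          · exact Or.inr (Or.inr (Or.inl h2))
          · by_cases h3 : b ∈ W ∧ a = z b
            · exact Or.inr (Or.inr (Or.inr h3))
            · exact Or.inl ⟨hab, h1, h2, h3⟩
      zadj := fun w hw => hz w hw
      zH := fun w hw hadj => hadj.2.2.1 ⟨hw, rfl⟩
      pw := fun w hw => hpM3 w hw.2
      pz := fun w hw he => (hpM2 _ (hzM w hw)).ne he.symm
      sep := fun w hw w' hw' hW => hsepW w (hWC w hw) w' (hWC w' hw') hW }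
  have hH : ∀ v, (H.neighborSet v).ncard ≤ 2 := by
    intro v
    have hsub : H.neighborSet v ⊆ G.neighborSet v := fun w hw => hw.1
    by_cases h3 : (G.neighborSet v).ncard = 3
    · by_cases hv : v ∈ M.verts
      · have hsub2 : H.neighborSet v ⊆ G.neighborSet v \ {p v} := by
          intro x hx
          refine ⟨hsub hx, ?_⟩
          rintro rfl
          exact hx.2.1 (hpM2 v hv)
        have h4 := Set.ncard_le_ncard hsub2 (Set.toFinite _)
        rw [Set.ncard_sdiff_singleton_of_mem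
          (show p v ∈ G.neighborSet v from (hpM2 v hv).adj_sub), h3] at h4
        exact h4
      · have hvW : v ∈ W := ⟨h3, hv⟩
        have hsub2 : H.neighborSet v ⊆ G.neighborSet v \ {z v} := by
          intro x hx
          refine ⟨hsub hx, ?_⟩
          rintro rfl
          exact hx.2.2.1 ⟨hvW, rfl⟩
        have h4 := Set.ncard_le_ncard hsub2 (Set.toFinite _)
        rw [Set.ncard_sdiff_singleton_of_mem
          (show z v ∈ G.neighborSet v from hz v hvW), h3] at h4
        exact h4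
    · have h4 := Set.ncard_le_ncard hsub (Set.toFinite _)
      have := hdeg v
      omega
  exact hspots.labelling hg hH

end GY64
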