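import Mathlib

set_option autoImplicit false

/-!
# The symmetric local lemma on a finite product space (copied from Lib_helper19)
-/

namespace GY64

open Finset Classical

section Local

variable {ι Ω J : Type*} [Fintype ι] [Fintype Ω]

theorem indep_count (U : Finset ι) (A B : Finset (ι → Ω))
    (hA : ∀ x y : ι → Ω, (∀ i ∈ U, x i = y i) → (x ∈ A ↔ y ∈ A))
    (hB : ∀ x y : ι → Ω, (∀ i, i ∉ U → x i = y i) → (x ∈ B ↔ y ∈ B)) :
    (A ∩ B).card * Fintype.card (ι → Ω) = A.card * B.card := by
  rw [← Finset.card_univ, ← Finset.card_product, ← Finset.card_product]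
  let mix : (ι → Ω) → (ι → Ω) → (ι → Ω) := fun x y i => if i ∈ U then x i else y i
  have hmixA : ∀ x y, mix x y ∈ A ↔ x ∈ A := by
    intro x y
    apply hA
    intro i hi
    simp [mix, hi]
  have hmixB : ∀ x y, mix x y ∈ B ↔ y ∈ B := by
    intro x y
    apply hB
    intro i hi
    simp [mix, hi]
  have hmm1 : ∀ x y, mix (mix x y) (mix y x) = x := by
    intro x y
    funext i
    by_cases hi : i ∈ U <;> simp [mix, hi]
  apply Finset.card_nbij' (fun p => (mix p.1 p.2, mix p.2 p.1)) (fun p => (mix p.1 p.2, mix p.2 p.1))
  · rintro ⟨x, y⟩ h
    simp only [coe_product, Set.mem_prod, mem_coe, mem_inter, coe_univ, Set.mem_univ,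
      and_true] at h ⊢
    exact ⟨(hmixA x y).mpr h.1, (hmixB y x).mpr h.2⟩
  · rintro ⟨x, y⟩ h
    simp only [coe_product, Set.mem_prod, mem_coe, mem_inter, coe_univ, Set.mem_univ,
      and_true] at h ⊢
    exact ⟨(hmixA x y).mpr h.1, (hmixB x y).mpr h.2⟩
  · rintro ⟨x, y⟩ _
    simp only [hmm1]
  · rintro ⟨x, y⟩ _
    simp only [hmm1]

/-- Symmetric local lemma, counting version. -/
theorem lll [Nonempty Ω] [Fintype J]
    (bad : J → Finset (ι → Ω)) (vbl : J → Finset ι)
    (hdep : ∀ j, ∀ x y : ι → Ω, (∀ i ∈ vbl j, x i = y i) → (x ∈ bad j ↔ y ∈ bad j))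
    (d : ℝ) (hd1 : 1 ≤ d)
    (hd : ∀ j, ((univ.filter fun j' => ¬ Disjoint (vbl j) (vbl j')).card : ℝ) ≤ d)
    (p : ℝ) (hp0 : 0 ≤ p)
    (hp : ∀ j, ((bad j).card : ℝ) ≤ p * Fintype.card (ι → Ω)) (h : 4 * p * d ≤ 1) :
    ∃ x, ∀ j, x ∉ bad j := by
  let good : Finset J → Finset (ι → Ω) := fun S => univ.filter fun x => ∀ j ∈ S, x ∉ bad j
  have hN : (0 : ℝ) < Fintype.card (ι → Ω) := by
    exact_mod_cast Fintype.card_pos
  have hp4 : p ≤ 1 / 4 := by nlinarith
  have key : ∀ n : ℕ, ∀ S : Finset J, S.card = n → 0 < (good S).card ∧
      ∀ j, ((bad j ∩ good S).card : ℝ) ≤ 2 * p * (good S).card := by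
    intro n
    induction n using Nat.strong_induction_on with
    | _ n ih =>
      intro S hS
      constructor
      · by_cases hemp : S = ∅
        · subst hemp
          have : good ∅ = univ := by simp [good]
          rw [this, Finset.card_univ]
          exact Fintype.card_pos
        · obtain ⟨j0, hj0⟩ := Finset.nonempty_iff_ne_empty.mpr hemp
          have hlt : (S.erase j0).card < n := by
            rw [← hS]; exact Finset.card_erase_lt_of_mem hj0
          obtain ⟨h1, h2⟩ := ih _ hlt (S.erase j0) rfl
          have h3 := h2 j0
          have hsub : good (S.erase j0) ⊆ (bad j0 ∩ good (S.erase j0)) ∪ good S := by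
            intro x hx
            rw [Finset.mem_union, Finset.mem_inter]
            by_cases hxb : x ∈ bad j0
            · exact Or.inl ⟨hxb, hx⟩
            · right
              simp only [good, mem_filter, mem_univ, true_and, mem_erase] at hx ⊢
              intro j hj
              by_cases hjj : j = j0
              · rw [hjj]; exact hxb
              · exact hx j ⟨hjj, hj⟩
          have h4 := (Finset.card_le_card hsub).trans (Finset.card_union_le _ _)
          have h4' : ((good (S.erase j0)).card : ℝ) ≤
              (bad j0 ∩ good (S.erase j0)).card + (good S).card := by exact_mod_cast h4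
          have h1' : (0 : ℝ) < (good (S.erase j0)).card := by exact_mod_cast h1
          have : (0 : ℝ) < (good S).card := by nlinarith
          exact_mod_cast this
      · intro j
        set S1 := S.filter fun s => ¬ Disjoint (vbl j) (vbl s) with hS1
        set S2 := S.filter fun s => Disjoint (vbl j) (vbl s) with hS2
        have hind : ((bad j ∩ good S2).card : ℝ) ≤ p * (good S2).card := by
          have h1 := indep_count (vbl j) (bad j) (good S2) (hdep j) (by
            intro x y hxy
            simp only [good, mem_filter, mem_univ, true_and]
            have : ∀ s ∈ S2, (x ∈ bad s ↔ y ∈ bad s) := by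
              intro s hs
              apply hdep s
              intro i hi
              apply hxy
              intro hi'
              rw [hS2, Finset.mem_filter] at hs
              exact (Finset.disjoint_left.mp hs.2 hi') hi
            constructor
            · intro h s hs hy
              exact h s hs ((this s hs).mpr hy)
            · intro h s hs hy
              exact h s hs ((this s hs).mp hy))
          have h1' : ((bad j ∩ good S2).card : ℝ) * Fintype.card (ι → Ω) =
              (bad j).card * (good S2).card := by exact_mod_cast h1
          have h2 := hp j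
          have h3 : ((bad j ∩ good S2).card : ℝ) * Fintype.card (ι → Ω) ≤
              (p * (good S2).card) * Fintype.card (ι → Ω) := by
            rw [h1']
            calc ((bad j).card : ℝ) * (good S2).card
                ≤ (p * Fintype.card (ι → Ω)) * (good S2).card :=
                  mul_le_mul_of_nonneg_right h2 (Nat.cast_nonneg _)
              _ = _ := by ring
          exact le_of_mul_le_mul_right h3 hN
        have hsubg : good S ⊆ good S2 := by
          intro x hx
          simp only [good, mem_filter, mem_univ, true_and] at hx ⊢
          intro s hs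
          exact hx s (Finset.mem_filter.mp hs).1
        have hle1 : ((bad j ∩ good S).card : ℝ) ≤ (bad j ∩ good S2).card := by
          exact_mod_cast Finset.card_le_card (Finset.inter_subset_inter_left hsubg)
        by_cases hemp : S1 = ∅
        · have : S2 = S := by
            rw [hS2, Finset.filter_eq_self]
            intro s hs
            by_contra hcon
            have : s ∈ S1 := by
              rw [hS1, Finset.mem_filter]; exact ⟨hs, hcon⟩
            rw [hemp] at this
            exact absurd this (Finset.notMem_empty _)
          rw [this] at hind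
          have : (0 : ℝ) ≤ (good S).card := Nat.cast_nonneg _
          nlinarith
        · have hlt : S2.card < n := by
            rw [← hS]
            apply Finset.card_lt_card
            refine ⟨Finset.filter_subset _ _, ?_⟩
            intro hcon
            obtain ⟨s, hs⟩ := Finset.nonempty_iff_ne_empty.mpr hemp
            have hs' := Finset.mem_filter.mp hs
            exact hs'.2 (Finset.mem_filter.mp (hcon hs'.1)).2
          obtain ⟨-, hIH⟩ := ih _ hlt S2 rfl
          have hsub : good S2 ⊆ good S ∪ S1.biUnion fun s => bad s ∩ good S2 := by
            intro x hx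
            rw [Finset.mem_union]
            by_cases hxS : x ∈ good S
            · exact Or.inl hxS
            · right
              rw [Finset.mem_biUnion]
              simp only [good, mem_filter, mem_univ, true_and] at hxS
              push Not at hxS
              obtain ⟨s, hs, hxs⟩ := hxS
              refine ⟨s, ?_, Finset.mem_inter.mpr ⟨hxs, hx⟩⟩
              rw [hS1, Finset.mem_filter]
              refine ⟨hs, ?_⟩
              intro hdis
              have : s ∈ S2 := by rw [hS2, Finset.mem_filter]; exact ⟨hs, hdis⟩
              simp only [good, mem_filter, mem_univ, true_and] at hx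
              exact hx s this hxs
          have h4 := (Finset.card_le_card hsub).trans (Finset.card_union_le _ _)
          have h5 : (S1.biUnion fun s => bad s ∩ good S2).card ≤
              ∑ s ∈ S1, (bad s ∩ good S2).card := Finset.card_biUnion_le
          have h6 : ((good S2).card : ℝ) ≤ (good S).card + ∑ s ∈ S1, ((bad s ∩ good S2).card : ℝ) := by
            exact_mod_cast h4.trans (Nat.add_le_add_left h5 _)
          have h7 : ∑ s ∈ S1, ((bad s ∩ good S2).card : ℝ) ≤ S1.card * (2 * p * (good S2).card) := by
            rw [← nsmul_eq_mul]
            exact Finset.sum_le_card_nsmul _ _ _ (fun s _ => hIH s)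
          have h8 : (S1.card : ℝ) ≤ d := by
            refine le_trans ?_ (hd j)
            exact_mod_cast Finset.card_le_card (by
              intro s hs
              exact Finset.mem_filter.mpr ⟨Finset.mem_univ _, (Finset.mem_filter.mp hs).2⟩)
          have hg2 : (0 : ℝ) ≤ (good S2).card := Nat.cast_nonneg _
          have h9 : (S1.card : ℝ) * (2 * p * (good S2).card) ≤ (good S2).card / 2 := by
            calc (S1.card : ℝ) * (2 * p * (good S2).card) ≤ d * (2 * p * (good S2).card) :=
                  mul_le_mul_of_nonneg_right h8 (by positivity)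
              _ = (4 * p * d) * ((good S2).card / 2) := by ring
              _ ≤ 1 * ((good S2).card / 2) := mul_le_mul_of_nonneg_right h (by positivity)
              _ = _ := one_mul _
          have h10 : ((good S2).card : ℝ) ≤ 2 * (good S).card := by linarith
          calc ((bad j ∩ good S).card : ℝ) ≤ p * (good S2).card := hle1.trans hind
            _ ≤ p * (2 * (good S).card) := mul_le_mul_of_nonneg_left h10 hp0
            _ = _ := by ring
  obtain ⟨h1, -⟩ := key _ univ rfl
  obtain ⟨x, hx⟩ := Finset.card_pos.mp h1
  refine ⟨x, fun j => ?_⟩
  simp only [good, mem_filter, mem_univ, true_and] at hx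
  exact hx j trivial

/-- the number of points with a prescribed coordinate -/
theorem card_coord (u : ι) (i : Ω) :
    (univ.filter fun x : ι → Ω => x u = i).card * Fintype.card Ω = Fintype.card (ι → Ω) := by
  rw [← Finset.card_univ (α := Ω), ← Finset.card_product, ← Finset.card_univ (α := ι → Ω)]
  apply Finset.card_nbij' (fun p => Function.update p.1 u p.2)
    (fun x => (Function.update x u i, x u))
  · rintro ⟨x, j⟩ _
    simp
  · intro x _
    simp
  · rintro ⟨x, j⟩ h
    simp only [coe_product, Set.mem_prod, mem_coe, mem_filter, mem_univ, true_and, and_true] at h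
    simp only [Function.update_idem, Function.update_self, Prod.mk.injEq, and_true]
    rw [← h, Function.update_eq_self]
  · intro x _
    simp

theorem card_coord2 {u v : ι} (huv : u ≠ v) (i j : Ω) :
    ((univ.filter fun x : ι → Ω => x u = i ∧ x v = j).card : ℝ) =
      (1 / (Fintype.card Ω : ℝ) ^ 2) * Fintype.card (ι → Ω) := by
  have hΩ : 0 < Fintype.card Ω := Fintype.card_pos_iff.mpr ⟨i⟩
  have hN : 0 < Fintype.card (ι → Ω) := Fintype.card_pos_iff.mpr ⟨fun _ => i⟩
  have h1 := card_coord (ι := ι) (Ω := Ω) u i
  have h2 := card_coord (ι := ι) (Ω := Ω) v j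
  have h3 := indep_count {u} (univ.filter fun x : ι → Ω => x u = i)
    (univ.filter fun x : ι → Ω => x v = j) (by
      intro x y h
      simp only [mem_filter, mem_univ, true_and]
      rw [h u (Finset.mem_singleton_self u)]) (by
      intro x y h
      simp only [mem_filter, mem_univ, true_and]
      rw [h v (by simpa using huv.symm)])
  rw [← Finset.filter_and] at h3
  have h1' : ((univ.filter fun x : ι → Ω => x u = i).card : ℝ) * Fintype.card Ω =
    Fintype.card (ι → Ω) := by exact_mod_cast h1
  have h2' : ((univ.filter fun x : ι → Ω => x v = j).card : ℝ) * Fintype.card Ω =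
    Fintype.card (ι → Ω) := by exact_mod_cast h2
  have h3' : ((univ.filter fun x : ι → Ω => x u = i ∧ x v = j).card : ℝ) * Fintype.card (ι → Ω) =
    (univ.filter fun x : ι → Ω => x u = i).card * (univ.filter fun x : ι → Ω => x v = j).card := by
    exact_mod_cast h3
  have hΩ' : (0 : ℝ) < Fintype.card Ω := by exact_mod_cast hΩ
  have hN' : (0 : ℝ) < Fintype.card (ι → Ω) := by exact_mod_cast hN
  generalize (Fintype.card (ι → Ω) : ℝ) = N at *
  generalize ((univ.filter fun x : ι → Ω => x u = i ∧ x v = j).card : ℝ) = z at *
  generalize ((univ.filter fun x : ι → Ω => x u = i).card : ℝ) = a at *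
  generalize ((univ.filter fun x : ι → Ω => x v = j).card : ℝ) = b at *
  generalize (Fintype.card Ω : ℝ) = w at *
  rw [one_div, inv_mul_eq_div, eq_div_iff (by positivity)]
  have : z * w ^ 2 * N = N * N := by
    calc z * w ^ 2 * N = (z * N) * w ^ 2 := by ring
      _ = (a * w) * (b * w) := by rw [h3']; ring
      _ = N * N := by rw [h1', h2']
  exact mul_right_cancel₀ hN'.ne' this

end Local


end GY64
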