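import Pool.Agent.Lib_helper64.GY.LLL

set_option autoImplicit false

/-!
# Choosing one vertex in each window with no conflict
-/

namespace GY64

open Finset

/-- one vertex from each window, avoiding all conflicts `μ k` -/
theorem transversal {V ι : Type*} [Finite ι] (N K : ℕ) (hK : 0 < K) (hNK : 16 * K ≤ N)
    (vert : ι × Fin N → V) (hinj : Function.Injective vert)
    (μ : Fin K → V → V) (hμ : ∀ k, Function.Injective (μ k)) :
    ∃ ω : ι → Fin N, ∀ i i' k, i ≠ i' → μ k (vert (i, ω i)) ≠ vert (i', ω i') := by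
  classical
  have : Fintype ι := Fintype.ofFinite ι
  have hN : 0 < N := by omega
  have : Nonempty (Fin N) := ⟨⟨0, hN⟩⟩
  let J := {j : (ι × Fin N) × (ι × Fin N) × Fin K //
    j.1.1 ≠ j.2.1.1 ∧ μ j.2.2 (vert j.1) = vert j.2.1}
  let bad : J → Finset (ι → Fin N) := fun j =>
    univ.filter fun x : ι → Fin N => x j.1.1.1 = j.1.1.2 ∧ x j.1.2.1.1 = j.1.2.1.2
  let vbl : J → Finset ι := fun j => {j.1.1.1, j.1.2.1.1}
  have hc1 : ∀ i : ι, (univ.filter fun j : J => j.1.1.1 = i).card ≤ N * K := by
    intro i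
    have : (univ : Finset (Fin N × Fin K)).card = N * K := by simp
    rw [← this]
    apply Finset.card_le_card_of_injOn (fun j : J => (j.1.1.2, j.1.2.2))
    · intro j _; simp
    · rintro ⟨⟨⟨a1, a2⟩, b, k⟩, h1, h2⟩ hj ⟨⟨⟨a1', a2'⟩, b', k'⟩, h1', h2'⟩ hj' he
      simp only [coe_filter, mem_univ, true_and, Set.mem_ofPred_eq] at hj hj'
      simp only [Prod.mk.injEq] at he
      obtain ⟨rfl, rfl⟩ := he
      subst hj
      subst hj'
      have : b = b' := hinj (h2.symm.trans h2')
      subst this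
      rfl
  have hc2 : ∀ i : ι, (univ.filter fun j : J => j.1.2.1.1 = i).card ≤ N * K := by
    intro i
    have : (univ : Finset (Fin N × Fin K)).card = N * K := by simp
    rw [← this]
    apply Finset.card_le_card_of_injOn (fun j : J => (j.1.2.1.2, j.1.2.2))
    · intro j _; simp
    · rintro ⟨⟨a, ⟨b1, b2⟩, k⟩, h1, h2⟩ hj ⟨⟨a', ⟨b1', b2'⟩, k'⟩, h1', h2'⟩ hj' he
      simp only [coe_filter, mem_univ, true_and, Set.mem_ofPred_eq] at hj hj'
      simp only [Prod.mk.injEq] at he
      obtain ⟨rfl, rfl⟩ := he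
      subst hj
      subst hj'
      have : a = a' := hinj (hμ k (h2.trans h2'.symm))
      subst this
      rfl
  have hdep : ∀ j : J, (univ.filter fun j' : J => ¬ Disjoint (vbl j) (vbl j')).card ≤
      4 * (N * K) := by
    intro j
    have hsub : (univ.filter fun j' : J => ¬ Disjoint (vbl j) (vbl j')) ⊆
        ((univ.filter fun j' : J => j'.1.1.1 = j.1.1.1) ∪
          (univ.filter fun j' : J => j'.1.1.1 = j.1.2.1.1)) ∪
        ((univ.filter fun j' : J => j'.1.2.1.1 = j.1.1.1) ∪
          (univ.filter fun j' : J => j'.1.2.1.1 = j.1.2.1.1)) := by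
      intro j' hj'
      simp only [mem_filter, mem_univ, true_and] at hj'
      rw [Finset.not_disjoint_iff] at hj'
      obtain ⟨a, ha, ha'⟩ := hj'
      simp only [vbl, mem_insert, mem_singleton] at ha ha'
      simp only [mem_union, mem_filter, mem_univ, true_and]
      rcases ha with ha | ha <;> rcases ha' with ha' | ha'
      · exact Or.inl (Or.inl (ha'.symm.trans ha))
      · exact Or.inr (Or.inl (ha'.symm.trans ha))
      · exact Or.inl (Or.inr (ha'.symm.trans ha))
      · exact Or.inr (Or.inr (ha'.symm.trans ha))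
    refine (Finset.card_le_card hsub).trans ?_
    refine (Finset.card_union_le _ _).trans ?_
    have h1 := Finset.card_union_le (univ.filter fun j' : J => j'.1.1.1 = j.1.1.1)
      (univ.filter fun j' : J => j'.1.1.1 = j.1.2.1.1)
    have h2 := Finset.card_union_le (univ.filter fun j' : J => j'.1.2.1.1 = j.1.1.1)
      (univ.filter fun j' : J => j'.1.2.1.1 = j.1.2.1.1)
    have h3 := hc1 j.1.1.1
    have h4 := hc1 j.1.2.1.1
    have h5 := hc2 j.1.1.1
    have h6 := hc2 j.1.2.1.1
    omega
  have hNR : (0 : ℝ) < N := by exact_mod_cast hN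
  have hKR : (1 : ℝ) ≤ K := by exact_mod_cast hK
  have hNR1 : (1 : ℝ) ≤ N := by exact_mod_cast hN
  obtain ⟨ω, hω⟩ := lll (ι := ι) (Ω := Fin N) bad vbl
    (by
      intro j x y hxy
      simp only [bad, mem_filter, mem_univ, true_and]
      rw [hxy j.1.1.1 (by simp [vbl]), hxy j.1.2.1.1 (by simp [vbl])])
    (4 * (N * K)) (by nlinarith [mul_le_mul hNR1 hKR (by norm_num) (by linarith)])
    (by intro j; exact_mod_cast hdep j)
    (1 / (N : ℝ) ^ 2) (by positivity)
    (by
      intro j
      have := card_coord2 (ι := ι) (Ω := Fin N) j.2.1 j.1.1.2 j.1.2.1.2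
      rw [Fintype.card_fin] at this
      refine le_trans (le_of_eq ?_) this.le
      congr 2
      ext x
      simp [bad])
    (by
      have h16 : (16 : ℝ) * K ≤ N := by exact_mod_cast hNK
      have : 4 * (1 / (N : ℝ) ^ 2) * (4 * (N * K)) = 16 * K / N := by
        field_simp
        ring
      rw [this, div_le_one hNR]
      exact h16)
  refine ⟨ω, ?_⟩
  intro i i' k hne he
  apply hω ⟨((i, ω i), (i', ω i'), k), hne, he⟩
  simp [bad]

end GY64
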