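import Pool.Agent.Lib_helper64.GY.Core
import Pool.Agent.Lib_helper64.GY.Transv

set_option autoImplicit false

/-!
# Existence of a good lettering when all cycles are long or of length divisible by three
-/

namespace GY64

open Function

/-- letters by residue -/
def cyc (j : ℕ) : Let := if j % 3 = 0 then .A else if j % 3 = 1 then .B else .C

/-- the cyclic word of length `ℓ`, with the second `D` (if any) at position `m` -/
def word (ℓ m i : ℕ) : Let :=
  if ℓ % 3 = 0 then cyc i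
  else if i = 0 then .D
  else if ℓ % 3 = 1 then cyc (i - 1)
  else if i < m then cyc (i - 1)
  else if i = m then .D
  else cyc (i - m - 1)

theorem cyc_cases (j : ℕ) : (j % 3 = 0 ∧ cyc j = .A) ∨ (j % 3 = 1 ∧ cyc j = .B) ∨
    (j % 3 = 2 ∧ cyc j = .C) := by
  unfold cyc
  have : j % 3 = 0 ∨ j % 3 = 1 ∨ j % 3 = 2 := by omega
  rcases this with h | h | h <;> simp [h]

theorem word_tr (ℓ m i : ℕ) (hi : i < ℓ) (hℓ : 3 ≤ ℓ)
    (hm : ℓ % 3 = 2 → m % 3 = 1 ∧ 4 ≤ m ∧ m + 4 ≤ ℓ) :
    Tr (word ℓ m i) (word ℓ m ((i + 1) % ℓ)) := by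
  have h3 : ℓ % 3 = 0 ∨ ℓ % 3 = 1 ∨ ℓ % 3 = 2 := by omega
  rcases Nat.lt_or_ge (i + 1) ℓ with hlt | hge
  · rw [Nat.mod_eq_of_lt hlt]
    rcases h3 with h | h | h
    · simp only [word, h, if_true]
      rcases cyc_cases i with ⟨h1, h2⟩ | ⟨h1, h2⟩ | ⟨h1, h2⟩ <;>
        rcases cyc_cases (i + 1) with ⟨h4, h5⟩ | ⟨h4, h5⟩ | ⟨h4, h5⟩ <;>
        rw [h2, h5] <;> simp only [Tr] <;> omega
    · by_cases h0 : i = 0
      · subst h0
        simp [word, h, cyc, Tr]
      · have e1 : word ℓ m i = cyc (i - 1) := by simp [word, h, h0]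
        have e2 : word ℓ m (i + 1) = cyc (i + 1 - 1) := by simp [word, h]
        rw [e1, e2]
        rcases cyc_cases (i - 1) with ⟨h1, h2⟩ | ⟨h1, h2⟩ | ⟨h1, h2⟩ <;>
          rcases cyc_cases (i + 1 - 1) with ⟨h4, h5⟩ | ⟨h4, h5⟩ | ⟨h4, h5⟩ <;>
          rw [h2, h5] <;> simp only [Tr] <;> omega
    · obtain ⟨hm1, hm2, hm3⟩ := hm h
      by_cases h0 : i = 0
      · subst h0
        have e1 : word ℓ m 0 = .D := by simp [word, h]
        have e2 : word ℓ m (0 + 1) = .A := by
          simp [word, h, cyc, show 1 < m by omega]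
        rw [e1, e2]; trivial
      · rcases lt_trichotomy (i + 1) m with h6 | h6 | h6
        · have e1 : word ℓ m i = cyc (i - 1) := by simp [word, h, h0, show i < m by omega]
          have e2 : word ℓ m (i + 1) = cyc (i + 1 - 1) := by simp [word, h, h6]
          rw [e1, e2]
          rcases cyc_cases (i - 1) with ⟨h1, h2⟩ | ⟨h1, h2⟩ | ⟨h1, h2⟩ <;>
            rcases cyc_cases (i + 1 - 1) with ⟨h4, h5⟩ | ⟨h4, h5⟩ | ⟨h4, h5⟩ <;>
            rw [h2, h5] <;> simp only [Tr] <;> omega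
        · have e1 : word ℓ m i = cyc (i - 1) := by simp [word, h, h0, show i < m by omega]
          have e2 : word ℓ m (i + 1) = .D := by simp [word, h, h6]
          rw [e1, e2]
          rcases cyc_cases (i - 1) with ⟨h1, h2⟩ | ⟨h1, h2⟩ | ⟨h1, h2⟩ <;>
            rw [h2] <;> simp only [Tr] <;> omega
        · by_cases h7 : i = m
          · subst h7
            have e1 : word ℓ i i = .D := by simp [word, h]
            have e2 : word ℓ i (i + 1) = .A := by simp [word, h, cyc]
            rw [e1, e2]; trivial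
          · have e1 : word ℓ m i = cyc (i - m - 1) := by
              simp [word, h, h0, show ¬ i < m by omega, h7]
            have e2 : word ℓ m (i + 1) = cyc (i + 1 - m - 1) := by
              simp [word, h, show ¬ i + 1 < m by omega, show ¬ i + 1 = m by omega]
            rw [e1, e2]
            rcases cyc_cases (i - m - 1) with ⟨h1, h2⟩ | ⟨h1, h2⟩ | ⟨h1, h2⟩ <;>
              rcases cyc_cases (i + 1 - m - 1) with ⟨h4, h5⟩ | ⟨h4, h5⟩ | ⟨h4, h5⟩ <;>
              rw [h2, h5] <;> simp only [Tr] <;> omega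
  · have hi' : i + 1 = ℓ := by omega
    rw [hi', Nat.mod_self]
    rcases h3 with h | h | h
    · simp only [word, h, if_true]
      rcases cyc_cases i with ⟨h1, h2⟩ | ⟨h1, h2⟩ | ⟨h1, h2⟩ <;>
        rcases cyc_cases 0 with ⟨h4, h5⟩ | ⟨h4, h5⟩ | ⟨h4, h5⟩ <;>
        rw [h2, h5] <;> simp only [Tr] <;> omega
    · have e1 : word ℓ m i = cyc (i - 1) := by simp [word, h, show i ≠ 0 by omega]
      have e2 : word ℓ m 0 = .D := by simp [word, h]
      rw [e1, e2]
      rcases cyc_cases (i - 1) with ⟨h1, h2⟩ | ⟨h1, h2⟩ | ⟨h1, h2⟩ <;>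
        rw [h2] <;> simp only [Tr] <;> omega
    · obtain ⟨hm1, hm2, hm3⟩ := hm h
      have e1 : word ℓ m i = cyc (i - m - 1) := by
        simp [word, h, show i ≠ 0 by omega, show ¬ i < m by omega, show ¬ i = m by omega]
      have e2 : word ℓ m 0 = .D := by simp [word, h]
      rw [e1, e2]
      rcases cyc_cases (i - m - 1) with ⟨h1, h2⟩ | ⟨h1, h2⟩ | ⟨h1, h2⟩ <;>
        rw [h2] <;> simp only [Tr] <;> omega

theorem cyc_ne_D (j : ℕ) : cyc j ≠ .D := by
  rcases cyc_cases j with ⟨_, h⟩ | ⟨_, h⟩ | ⟨_, h⟩ <;> rw [h] <;> simp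

theorem word_D (ℓ m i : ℕ) (h : word ℓ m i = .D) :
    ℓ % 3 ≠ 0 ∧ (i = 0 ∨ (ℓ % 3 = 2 ∧ i = m)) := by
  unfold word at h
  split_ifs at h with h1 h2 h3 h4 h5
  · exact absurd h (cyc_ne_D _)
  · exact ⟨h1, Or.inl h2⟩
  · exact absurd h (cyc_ne_D _)
  · exact absurd h (cyc_ne_D _)
  · exact ⟨h1, Or.inr ⟨by omega, h5⟩⟩
  · exact absurd h (cyc_ne_D _)

/-- **Existence of the lettering.** -/
theorem exists_lettering {V : Type*} [Finite V] (σ : Equiv.Perm V) (p : V → V)
    (hpp : ∀ v, p (p v) = v) (hpσ : ∀ v, p v ≠ σ v)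
    (hℓ : ∀ v, 3 ∣ minimalPeriod σ v ∨ 482 ≤ minimalPeriod σ v) :
    ∃ τ : V → Let, Good σ p τ := by
  classical
  have hper : ∀ v, v ∈ periodicPts σ := fun v => by
    have hv := (orderOf_pos σ)
    refine mem_periodicPts.mpr ⟨orderOf σ, hv, ?_⟩
    show (σ : V → V)^[orderOf σ] v = v
    rw [Equiv.Perm.iterate_eq_pow, pow_orderOf_eq_one]
    rfl
  have hpos : ∀ v, 0 < minimalPeriod σ v := fun v =>
    minimalPeriod_pos_of_mem_periodicPts (hper v)
  let s : Setoid V := Equiv.Perm.SameCycle.setoid σ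
  have hmk : ∀ (n : ℕ) (x : V), (Quotient.mk s (σ^[n] x)) = Quotient.mk s x := by
    intro n x
    apply Quotient.sound
    show Equiv.Perm.SameCycle σ (σ^[n] x) x
    rw [Equiv.Perm.iterate_eq_pow]
    exact Equiv.Perm.sameCycle_pow_left.mpr (Equiv.Perm.SameCycle.refl σ x)
  have hout : ∀ v, ∃ n : ℕ, σ^[n] (Quotient.mk s v).out = v := by
    intro v
    have h1 : Equiv.Perm.SameCycle σ (Quotient.mk s v).out v := Quotient.mk_out (s := s) v
    obtain ⟨n, hn⟩ := h1.exists_nat_pow_eq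
    exact ⟨n, by rw [Equiv.Perm.iterate_eq_pow]; exact hn⟩
  let L := {q : Quotient s // 482 ≤ minimalPeriod σ q.out}
  let e : Bool → Fin 80 → ℕ := fun b x => 3 * x.1 + (if b then 241 else 0)
  let vert : (L × Bool) × Fin 80 → V := fun a => σ^[e a.1.2 a.2] a.1.1.1.out
  have hinj : Injective vert := by
    rintro ⟨⟨q, b⟩, x⟩ ⟨⟨q', b'⟩, x'⟩ h
    have h1 : q.1 = q'.1 := by
      have h2 := congrArg (Quotient.mk s) h
      simp only [vert, hmk, Quotient.out_eq] at h2
      exact h2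
    have h2 : q = q' := Subtype.ext h1
    subst h2
    have hq := q.2
    have h3 : e b x < minimalPeriod σ q.1.out := by
      refine lt_of_lt_of_le ?_ hq
      have := x.2
      simp only [e]
      split_ifs <;> omega
    have h4 : e b' x' < minimalPeriod σ q.1.out := by
      refine lt_of_lt_of_le ?_ hq
      have := x'.2
      simp only [e]
      split_ifs <;> omega
    have h5 : e b x = e b' x' := (iterate_eq_iterate_iff_of_lt_minimalPeriod h3 h4).mp h
    have hx := x.2
    have hx' := x'.2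
    cases b <;> cases b' <;> simp only [e, if_true, if_false, Bool.false_eq_true] at h5
    · have : x = x' := Fin.ext (by omega)
      rw [this]
    · omega
    · omega
    · have : x = x' := Fin.ext (by omega)
      rw [this]
  have hpinj : Injective p := fun a b hab => by rw [← hpp a, hab, hpp]
  obtain ⟨ω, hω⟩ := transversal 80 5 (by norm_num) (by norm_num) vert hinj
    ![p, fun v => σ (p v), fun v => σ.symm (p v), fun v => σ.symm (p (σ v)),
      fun v => σ.symm (σ.symm (p (σ v)))]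
    (by
      intro k
      fin_cases k
      · exact hpinj
      · exact σ.injective.comp hpinj
      · exact σ.symm.injective.comp hpinj
      · exact σ.symm.injective.comp (hpinj.comp σ.injective)
      · exact σ.symm.injective.comp (σ.symm.injective.comp (hpinj.comp σ.injective)))
  let t : Quotient s → ℕ := fun q =>
    if h : 482 ≤ minimalPeriod σ q.out then e false (ω (⟨q, h⟩, false)) else 0
  let mm : Quotient s → ℕ := fun q =>
    if h : 482 ≤ minimalPeriod σ q.out then
      e true (ω (⟨q, h⟩, true)) - e false (ω (⟨q, h⟩, false)) else 0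
  let β : Quotient s → V := fun q => σ^[t q] q.out
  have hβ : ∀ v, ∃ n, n < minimalPeriod σ (β (Quotient.mk s v)) ∧
      σ^[n] (β (Quotient.mk s v)) = v := by
    intro v
    have h1 : Quotient.mk s (β (Quotient.mk s v)) = Quotient.mk s v := by
      simp only [β, hmk, Quotient.out_eq]
    have h2 : Equiv.Perm.SameCycle σ (β (Quotient.mk s v)) v := Quotient.exact h1
    obtain ⟨n, hn⟩ := h2.exists_nat_pow_eq
    refine ⟨n % minimalPeriod σ (β (Quotient.mk s v)), Nat.mod_lt _ (hpos _), ?_⟩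
    rw [iterate_mod_minimalPeriod_eq, Equiv.Perm.iterate_eq_pow]
    exact hn
  choose pos hpos1 hpos2 using hβ
  let ℓ : V → ℕ := fun v => minimalPeriod σ (β (Quotient.mk s v))
  have hℓout : ∀ v, ℓ v = minimalPeriod σ (Quotient.mk s v).out := by
    intro v
    exact minimalPeriod_apply_iterate (hper _) _
  have hmkσ : ∀ v, Quotient.mk s (σ v) = Quotient.mk s v := fun v => hmk 1 v
  have hposσ : ∀ v, pos (σ v) = (pos v + 1) % ℓ v := by
    intro v
    have h1 := hpos1 (σ v)
    have h2 := hpos2 (σ v)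
    rw [hmkσ] at h1 h2
    have h3 : (pos v + 1) % ℓ v < minimalPeriod σ (β (Quotient.mk s v)) :=
      Nat.mod_lt _ (hpos _)
    apply (iterate_eq_iterate_iff_of_lt_minimalPeriod h1 h3).mp
    rw [h2, iterate_mod_minimalPeriod_eq, iterate_succ_apply', hpos2]
  let τ : V → Let := fun v => word (ℓ v) (mm (Quotient.mk s v)) (pos v)
  -- facts on long cycles
  have hlong : ∀ v, ℓ v % 3 ≠ 0 → 482 ≤ minimalPeriod σ (Quotient.mk s v).out := by
    intro v hv
    rcases hℓ (β (Quotient.mk s v)) with h1 | h1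
    · exact absurd (Nat.mod_eq_zero_of_dvd h1) hv
    · rw [← hℓout]; exact h1
  have hDv : ∀ v, τ v = .D → ∃ i, v = vert (i, ω i) := by
    intro v hv
    obtain ⟨h1, h2⟩ := word_D _ _ _ hv
    have h3 := hlong v h1
    rcases h2 with h2 | ⟨h2, h4⟩
    · refine ⟨(⟨Quotient.mk s v, h3⟩, false), ?_⟩
      have h5 := hpos2 v
      rw [h2] at h5
      have h6 : t (Quotient.mk s v) = e false (ω (⟨Quotient.mk s v, h3⟩, false)) := dif_pos h3
      show v = σ^[e false (ω (⟨Quotient.mk s v, h3⟩, false))] (Quotient.mk s v).out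
      rw [← h6]
      exact h5.symm
    · refine ⟨(⟨Quotient.mk s v, h3⟩, true), ?_⟩
      have h5 := hpos2 v
      rw [h4] at h5
      have h6 : t (Quotient.mk s v) = e false (ω (⟨Quotient.mk s v, h3⟩, false)) := dif_pos h3
      have h7 : mm (Quotient.mk s v) = e true (ω (⟨Quotient.mk s v, h3⟩, true)) -
        e false (ω (⟨Quotient.mk s v, h3⟩, false)) := dif_pos h3
      have h8 : mm (Quotient.mk s v) + t (Quotient.mk s v) =
          e true (ω (⟨Quotient.mk s v, h3⟩, true)) := by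
        rw [h6, h7]
        apply Nat.sub_add_cancel
        have := (ω (⟨Quotient.mk s v, h3⟩, false)).2
        simp only [e, if_true, if_false, Bool.false_eq_true]
        omega
      show v = σ^[e true (ω (⟨Quotient.mk s v, h3⟩, true))] (Quotient.mk s v).out
      rw [← h8, iterate_add_apply]
      exact h5.symm
  have hD : ∀ k d d', τ d = .D → τ d' = .D → d ≠ d' →
      d' ≠ (![p, fun v => σ (p v), fun v => σ.symm (p v), fun v => σ.symm (p (σ v)),
      fun v => σ.symm (σ.symm (p (σ v)))] : Fin 5 → V → V) k d := by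
    intro k d d' hd hd' hne he
    obtain ⟨i, rfl⟩ := hDv d hd
    obtain ⟨i', rfl⟩ := hDv d' hd'
    apply hω i i' k _ he.symm
    intro h
    rw [h] at hne
    exact hne rfl
  refine ⟨τ, hpp, hpσ, ?_, fun d d' h1 h2 h3 => hD 0 d d' h1 h2 h3,
    fun d d' h1 h2 h3 => hD 1 d d' h1 h2 h3, fun d d' h1 h2 h3 => hD 2 d d' h1 h2 h3,
    fun d d' h1 h2 h3 => hD 3 d d' h1 h2 h3, fun d d' h1 h2 h3 => hD 4 d d' h1 h2 h3⟩
  intro v
  have e1 : τ (σ v) = word (ℓ v) (mm (Quotient.mk s v)) ((pos v + 1) % ℓ v) := by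
    show word (ℓ (σ v)) (mm (Quotient.mk s (σ v))) (pos (σ v)) = _
    rw [hposσ]
    have : ℓ (σ v) = ℓ v := by simp only [ℓ, hmkσ]
    rw [this, hmkσ]
  rw [e1]
  apply word_tr
  · exact hpos1 v
  · have h1 := hpos (β (Quotient.mk s v))
    rcases hℓ (β (Quotient.mk s v)) with h2 | h2
    · exact Nat.le_of_dvd h1 h2
    · exact le_trans (by norm_num) h2
  · intro h2
    have h3 := hlong v (by omega)
    have h4 : 482 ≤ ℓ v := by rw [hℓout]; exact h3
    have h7 : mm (Quotient.mk s v) = e true (ω (⟨Quotient.mk s v, h3⟩, true)) -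
        e false (ω (⟨Quotient.mk s v, h3⟩, false)) := dif_pos h3
    have h8 := (ω (⟨Quotient.mk s v, h3⟩, false)).2
    have h9 := (ω (⟨Quotient.mk s v, h3⟩, true)).2
    rw [h7]
    simp only [e, if_true, if_false, Bool.false_eq_true]
    omega

/-- the combination with the core theorem -/
theorem exists_labelling {V : Type*} [Finite V] (σ : Equiv.Perm V) (p : V → V)
    (hpp : ∀ v, p (p v) = v) (hpσ : ∀ v, p v ≠ σ v)
    (hℓ : ∀ v, 3 ∣ minimalPeriod σ v ∨ 482 ≤ minimalPeriod σ v) :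
    ∃ f : V → ℕ, (∀ v, f v ≤ 9) ∧ (∀ v, Far (f (σ v)) (f v)) ∧
      (∀ v, p v ≠ v → Far (f (p v)) (f v)) ∧ (∀ v, f (σ (σ v)) ≠ f v) ∧
      (∀ v, p v ≠ v → f (σ (p v)) ≠ f v) ∧ (∀ v, p v ≠ v → f (σ.symm (p v)) ≠ f v) := by
  obtain ⟨τ, hτ⟩ := exists_lettering σ p hpp hpσ hℓ
  exact hτ.label

end GY64
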