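import Pool.Agent.Lib_helper64.GY.Close
import Pool.Agent.Lib_helper64.GY.Words

set_option autoImplicit false

/-!
# Assembly: labelling subcubic graphs with a suitable matching
-/

namespace GY64

open Function

theorem labelling_of_matching {V : Type} [Finite V] (G : SimpleGraph V) (M : G.Subgraph)
    (hdeg : ∀ v, (G.neighborSet v).ncard ≤ 3) (hM : M.IsMatching)
    (hcov : ∀ v, (G.neighborSet v).ncard = 3 → v ∈ M.verts)
    (hcyc : ∀ c : (G.deleteEdges M.edgeSet).ConnectedComponent,
      (∀ v ∈ c.supp, ((G.deleteEdges M.edgeSet).neighborSet v).ncard = 2) →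
      3 ∣ c.supp.ncard ∨ 482 ≤ c.supp.ncard) :
    ∃ f : V → ℕ, (∀ v, f v ≤ 9) ∧ (∀ u v, G.Adj u v → Far (f u) (f v)) ∧
      (∀ u v w, u ≠ v → G.Adj u w → G.Adj v w → f u ≠ f v) := by
  classical
  set H := G.deleteEdges M.edgeSet with hHdef
  have hHadj : ∀ v w, H.Adj v w ↔ G.Adj v w ∧ ¬ M.Adj v w := by
    intro v w
    rw [hHdef, SimpleGraph.deleteEdges_adj, SimpleGraph.Subgraph.mem_edgeSet]
  have hH : ∀ v, (H.neighborSet v).ncard ≤ 2 := by
    intro v
    have hsub : H.neighborSet v ⊆ G.neighborSet v := fun w hw => ((hHadj v w).mp hw).1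
    by_cases h3 : (G.neighborSet v).ncard = 3
    · obtain ⟨w, hw, _⟩ := hM (hcov v h3)
      have hsub2 : H.neighborSet v ⊆ G.neighborSet v \ {w} := by
        intro x hx
        refine ⟨hsub hx, ?_⟩
        rintro rfl
        exact ((hHadj v x).mp hx).2 hw
      have h4 := Set.ncard_le_ncard hsub2 (Set.toFinite _)
      rw [Set.ncard_sdiff_singleton_of_mem (show w ∈ G.neighborSet v from M.adj_sub hw), h3] at h4
      exact h4
    · have h4 := Set.ncard_le_ncard hsub (Set.toFinite _)
      have := hdeg v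
      omega
  obtain ⟨V', hfin, σ, e, he, he1, he2, hσ1, hℓ⟩ := exists_closure H hH hcyc
  -- the involution
  let p : V → V := fun v => if h : v ∈ M.verts then (hM h).choose else v
  have hpM : ∀ v w, M.Adj v w → p v = w := by
    intro v w hvw
    have hv : v ∈ M.verts := M.edge_vert hvw
    have h1 : p v = (hM hv).choose := dif_pos hv
    rw [h1]
    exact ((hM hv).choose_spec.2 w hvw).symm
  have hpM2 : ∀ v, v ∈ M.verts → M.Adj v (p v) := by
    intro v hv
    have h1 : p v = (hM hv).choose := dif_pos hv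
    rw [h1]
    exact (hM hv).choose_spec.1
  have hpM3 : ∀ v, v ∉ M.verts → p v = v := fun v hv => dif_neg hv
  have hpp : ∀ v, p (p v) = v := by
    intro v
    by_cases hv : v ∈ M.verts
    · exact hpM _ _ (hpM2 v hv).symm
    · rw [hpM3 v hv, hpM3 v hv]
  let p' : V' → V' := fun y => if h : ∃ v, e v = y then e (p h.choose) else y
  have hp'e : ∀ v, p' (e v) = e (p v) := by
    intro v
    have h : ∃ u, e u = e v := ⟨v, rfl⟩
    have h1 : p' (e v) = e (p h.choose) := dif_pos h
    rw [h1, he h.choose_spec]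
  have hp'n : ∀ y, (¬ ∃ v, e v = y) → p' y = y := fun y hy => dif_neg hy
  have hp'p' : ∀ y, p' (p' y) = y := by
    intro y
    by_cases hy : ∃ v, e v = y
    · obtain ⟨v, rfl⟩ := hy
      rw [hp'e, hp'e, hpp]
    · rw [hp'n y hy, hp'n y hy]
  have hp'σ : ∀ y, p' y ≠ σ y := by
    intro y h
    by_cases hy : ∃ v, e v = y
    · obtain ⟨v, rfl⟩ := hy
      rw [hp'e] at h
      have h1 := he2 v (p v) h
      by_cases hv : v ∈ M.verts
      · exact ((hHadj _ _).mp h1).2 (hpM2 v hv)
      · rw [hpM3 v hv] at h1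
        exact h1.ne rfl
    · rw [hp'n y hy] at h
      exact hσ1 y h.symm
  obtain ⟨f, hf9, hf1, hf2, hf3, hf4, hf5⟩ := exists_labelling σ p' hp'p' hp'σ hℓ
  have hnb : ∀ u v, G.Adj u v → e u = σ (e v) ∨ e u = σ.symm (e v) ∨ e u = p' (e v) := by
    intro u v huv
    by_cases hMuv : M.Adj u v
    · right; right
      rw [hp'e, hpM v u hMuv.symm]
    · rcases he1 u v ((hHadj u v).mpr ⟨huv, hMuv⟩) with h | h
      · right; left
        rw [h, Equiv.symm_apply_apply]
      · left; exact h
  have key : ∀ a b y, a ≠ b → a ≠ y → b ≠ y → (a = σ y ∨ a = σ.symm y ∨ a = p' y) →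
      (b = σ y ∨ b = σ.symm y ∨ b = p' y) → f a ≠ f b := by
    have key1 : ∀ y, f (σ y) ≠ f (σ.symm y) := by
      intro y
      have := hf3 (σ.symm y)
      rwa [Equiv.apply_symm_apply] at this
    have key2 : ∀ y, p' y ≠ y → f (σ y) ≠ f (p' y) := by
      intro y hy
      have := hf4 (p' y) (by rw [hp'p']; exact hy.symm)
      rwa [hp'p'] at this
    have key3 : ∀ y, p' y ≠ y → f (σ.symm y) ≠ f (p' y) := by
      intro y hy
      have := hf5 (p' y) (by rw [hp'p']; exact hy.symm)
      rwa [hp'p'] at this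
    rintro a b y hab hay hby (rfl | rfl | rfl) (rfl | rfl | rfl)
    · exact absurd rfl hab
    · exact key1 y
    · exact key2 y hby
    · exact (key1 y).symm
    · exact absurd rfl hab
    · exact key3 y hby
    · exact (key2 y hay).symm
    · exact (key3 y hay).symm
    · exact absurd rfl hab
  refine ⟨fun v => f (e v), fun v => hf9 _, ?_, ?_⟩
  · intro u v huv
    rcases hnb u v huv with h | h | h
    · show Far (f (e u)) (f (e v))
      rw [h]; exact hf1 _
    · show Far (f (e u)) (f (e v))
      rw [h]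
      have := hf1 (σ.symm (e v))
      rw [Equiv.apply_symm_apply] at this
      exact this.symm
    · show Far (f (e u)) (f (e v))
      rw [h]
      apply hf2
      rw [← h]
      exact fun h' => huv.ne (he h')
  · intro u v w huv huw hvw
    exact key (e u) (e v) (e w) (fun h => huv (he h)) (fun h => huw.ne (he h))
      (fun h => hvw.ne (he h)) (hnb u w huw) (hnb v w hvw)

end GY64
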