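import Pool.Agent.Lib_helper64.GY.Fill

set_option autoImplicit false

/-!
# Short move sequences project to short walks
-/

namespace GY64

open Function

section NearDef

variable {X : Type*} (σ : Equiv.Perm X) (p : X → X)

/-- `y'` is reached from `y` by at most `n` moves -/
def Near : ℕ → X → X → Prop
  | 0, y, y' => y = y'
  | n + 1, y, y' => ∃ w, Near n y w ∧ (y' = w ∨ y' = σ w ∨ w = σ y' ∨ y' = p w)

variable {σ p}

theorem Near.refl (n : ℕ) (y : X) : Near σ p n y y := by
  induction n with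
  | zero => rfl
  | succ n ih => exact ⟨y, ih, Or.inl rfl⟩

theorem Near.trans {m n : ℕ} {a b c : X} (h1 : Near σ p m a b) (h2 : Near σ p n b c) :
    Near σ p (m + n) a c := by
  induction n generalizing c with
  | zero =>
    have : b = c := h2
    rw [← this]; exact h1
  | succ n ih =>
    obtain ⟨w, hw, hc⟩ := h2
    exact ⟨w, ih hw, hc⟩

theorem Near.one_σ (y : X) : Near σ p 1 y (σ y) := ⟨y, rfl, Or.inr (Or.inl rfl)⟩

theorem Near.one_t (y : X) : Near σ p 1 y (σ.symm y) :=
  ⟨y, rfl, Or.inr (Or.inr (Or.inl (by rw [Equiv.apply_symm_apply])))⟩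

theorem Near.one_p (y : X) : Near σ p 1 y (p y) := ⟨y, rfl, Or.inr (Or.inr (Or.inr rfl))⟩

theorem Near.symm (hp : ∀ y, p (p y) = y) {n : ℕ} {a b : X} (h : Near σ p n a b) :
    Near σ p n b a := by
  induction n generalizing b with
  | zero => exact Eq.symm h
  | succ n ih =>
    obtain ⟨w, hw, hb⟩ := h
    have h1 : Near σ p 1 b w := by
      rcases hb with rfl | rfl | rfl | rfl
      · exact Near.refl 1 _
      · exact ⟨_, rfl, Or.inr (Or.inr (Or.inl rfl))⟩
      · exact Near.one_σ _
      · exact ⟨_, rfl, Or.inr (Or.inr (Or.inr (by rw [hp])))⟩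
    have := h1.trans (ih hw)
    rwa [add_comm] at this

theorem Near.mono {m n : ℕ} (hmn : m ≤ n) {a b : X} (h : Near σ p m a b) : Near σ p n a b := by
  have := h.trans (Near.refl (σ := σ) (p := p) (n - m) b)
  rwa [Nat.add_sub_cancel' hmn] at this

theorem Near.iter (n : ℕ) (y : X) : Near σ p n y (σ^[n] y) := by
  induction n with
  | zero => rfl
  | succ n ih => exact ⟨_, ih, Or.inr (Or.inl (by rw [iterate_succ_apply']))⟩

end NearDef

/-- there is a walk of length at most `n` -/
def Within {V : Type*} (G : SimpleGraph V) (n : ℕ) (a b : V) : Prop :=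
  ∃ q : G.Walk a b, q.length ≤ n

theorem Within.refl {V : Type*} {G : SimpleGraph V} (n : ℕ) (a : V) : Within G n a a :=
  ⟨SimpleGraph.Walk.nil, Nat.zero_le n⟩

theorem Within.mono {V : Type*} {G : SimpleGraph V} {m n : ℕ} {a b : V} (hmn : m ≤ n)
    (h : Within G m a b) : Within G n a b := by
  obtain ⟨q, hq⟩ := h
  exact ⟨q, hq.trans hmn⟩

theorem Within.symm {V : Type*} {G : SimpleGraph V} {n : ℕ} {a b : V} (h : Within G n a b) :
    Within G n b a := by
  obtain ⟨q, hq⟩ := h
  exact ⟨q.reverse, by rwa [SimpleGraph.Walk.length_reverse]⟩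

theorem Within.trans {V : Type*} {G : SimpleGraph V} {m n : ℕ} {a b c : V}
    (h1 : Within G m a b) (h2 : Within G n b c) : Within G (m + n) a c := by
  obtain ⟨q, hq⟩ := h1
  obtain ⟨r, hr⟩ := h2
  exact ⟨q.append r, by rw [SimpleGraph.Walk.length_append]; omega⟩

theorem Within.adj {V : Type*} {G : SimpleGraph V} {a b : V} (h : G.Adj a b) :
    Within G 1 a b := ⟨SimpleGraph.Walk.cons h SimpleGraph.Walk.nil, le_rfl⟩

section Proj

variable {V : Type} [Finite V] {T : ℕ} (hT : 0 < T) (s : Equiv.Perm V) (P : V → Prop)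

/-- the extension of the matching involution -/
def pF (T : ℕ) (p : V → V) (y : V × Fin (T + 1)) : V × Fin (T + 1) :=
  if y.2.1 = 0 then (p y.1, 0) else y

omit [Finite V] in
theorem pF_real (p : V → V) (v : V) : pF T p (v, 0) = (p v, 0) := by simp [pF]

omit [Finite V] in
theorem pF_fill (p : V → V) (y : V × Fin (T + 1)) (h : y.2.1 ≠ 0) : pF T p y = y := by
  simp only [pF, if_neg h]

omit [Finite V] in
theorem pF_pF (p : V → V) (hp : ∀ v, p (p v) = v) (y : V × Fin (T + 1)) :
    pF T p (pF T p y) = y := by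
  by_cases h : y.2.1 = 0
  · have hy : y = (y.1, 0) := Prod.ext rfl (Fin.ext h)
    rw [hy, pF_real, pF_real, hp]
  · rw [pF_fill p y h, pF_fill p y h]

/-- the depth of a vertex in its chain -/
def depth (y : V × Fin (T + 1)) : ℕ := min y.2.1 (T + 1 - y.2.1)

/-- the real vertex next to a vertex -/
def retr (T : ℕ) (s : Equiv.Perm V) (y : V × Fin (T + 1)) : V :=
  if y.2.1 ≤ T / 2 then y.1 else s y.1

omit [Finite V] in
theorem depth_real (v : V) : depth (T := T) (v, 0) = 0 := by simp [depth]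

omit [Finite V] in
theorem retr_real (v : V) : retr T s (v, 0) = v := by simp [retr]

theorem depth_σ (y : V × Fin (T + 1)) : depth (fillP hT s P y) ≤ depth y + 1 ∧
    depth y ≤ depth (fillP hT s P y) + 1 := by
  rw [fillP_apply]
  obtain ⟨x, i⟩ := y
  have hi := i.2
  rcases fill_cases P hT (x, i) with ⟨e1, c1⟩ | ⟨e1, c1⟩ | ⟨e1, c1⟩ | ⟨e1, c1⟩ | ⟨e1, c1⟩ <;>
    simp only [] at e1 c1
  · rw [e1, fill1 hT s P c1]
    simp only [depth, Fin.val_zero]
    omega
  · rw [e1, fill2 hT s P c1]
    simp only [depth, Fin.val_zero]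
    omega
  · rw [fill3 hT s P x i e1 c1]
    simp only [depth]
    omega
  · rw [fill4 hT s P i e1 c1]
    simp only [depth, Fin.val_zero]
    omega
  · rw [fill5 hT s P i e1 c1]
    simp only [depth]
    omega

variable {G H : SimpleGraph V}

theorem retr_σ (hT2 : 2 ≤ T) (hs : ∀ v, ¬ P v → H.Adj v (s v)) (y : V × Fin (T + 1))
    (hd : depth y < T / 2) :
    retr T s (fillP hT s P y) = retr T s y ∨ H.Adj (retr T s y) (retr T s (fillP hT s P y)) := by
  rw [fillP_apply]
  obtain ⟨x, i⟩ := y
  have hi := i.2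
  rcases fill_cases P hT (x, i) with ⟨e1, c1⟩ | ⟨e1, c1⟩ | ⟨e1, c1⟩ | ⟨e1, c1⟩ | ⟨e1, c1⟩ <;>
    simp only [] at e1 c1
  · left
    rw [e1, fill1 hT s P c1, retr_real]
    simp only [retr]
    rw [if_pos (by omega)]
  · right
    rw [e1, fill2 hT s P c1, retr_real, retr_real]
    exact hs x c1
  · left
    rw [fill3 hT s P x i e1 c1]
    simp only [retr, depth] at hd ⊢
    by_cases h : i.1 ≤ T / 2
    · have h1 : i.1 + 1 ≤ T / 2 := by omega
      rw [if_pos h, if_pos h1]
    · have h1 : ¬ i.1 + 1 ≤ T / 2 := by omega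
      rw [if_neg h, if_neg h1]
  · left
    rw [fill4 hT s P i e1 c1, retr_real]
    simp only [retr]
    rw [if_neg (by omega)]
  · right
    rw [fill5 hT s P i e1 c1]
    simp only [retr]
    rw [if_neg (by omega), if_pos (by omega)]
    exact (hs x c1).symm

/-- **Projection.** -/
theorem near_proj (hT2 : 2 ≤ T) (hHG : H ≤ G) (hs : ∀ v, ¬ P v → H.Adj v (s v)) (p : V → V)
    (hp : ∀ v, p v = v ∨ G.Adj v (p v)) (n : ℕ) (hn : n < T / 2) (v : V) (y : V × Fin (T + 1))
    (h : Near (fillP hT s P) (pF T p) n (v, 0) y) :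
    depth y ≤ n ∧ Within G n v (retr T s y) := by
  induction n generalizing y with
  | zero =>
    have : (v, 0) = y := h
    subst this
    rw [depth_real, retr_real]
    exact ⟨le_rfl, Within.refl 0 v⟩
  | succ n ih =>
    obtain ⟨w, hw, hy⟩ := h
    obtain ⟨hd, hq⟩ := ih (by omega) w hw
    rcases hy with rfl | rfl | hy | rfl
    · exact ⟨by omega, hq.mono (by omega)⟩
    · refine ⟨(depth_σ hT s P w).1.trans (by omega), ?_⟩
      rcases retr_σ hT s P hT2 hs w (by omega) with h1 | h1
      · rw [h1]; exact hq.mono (by omega)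
      · exact hq.trans (Within.adj (hHG h1))
    · subst hy
      have h0 := (depth_σ hT s P y).2
      refine ⟨by omega, ?_⟩
      rcases retr_σ hT s P hT2 hs y (by omega) with h1 | h1
      · rw [← h1]; exact hq.mono (by omega)
      · exact hq.trans (Within.adj (hHG h1)).symm
    · by_cases hw0 : w.2.1 = 0
      · have hw' : w = (w.1, 0) := Prod.ext rfl (Fin.ext hw0)
        rw [hw'] at hq ⊢
        rw [pF_real, depth_real, retr_real]
        rw [retr_real] at hq
        refine ⟨by omega, ?_⟩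
        rcases hp w.1 with h1 | h1
        · rw [h1]
          exact hq.mono (by omega)
        · exact hq.trans (Within.adj h1)
      · rw [pF_fill p w hw0]
        exact ⟨by omega, hq.mono (by omega)⟩

theorem near_real (hT2 : 2 ≤ T) (hHG : H ≤ G) (hs : ∀ v, ¬ P v → H.Adj v (s v)) (p : V → V)
    (hp : ∀ v, p v = v ∨ G.Adj v (p v)) (n : ℕ) (hn : n < T / 2) (v v' : V)
    (h : Near (fillP hT s P) (pF T p) n (v, 0) (v', 0)) : Within G n v v' := by
  have := (near_proj hT s P hT2 hHG hs p hp n hn v _ h).2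
  rwa [retr_real] at this

end Proj

end GY64
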