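import Mathlib

set_option autoImplicit false

/-!
# Orienting graphs of maximum degree two
-/

namespace GY64

open Function

/-- Two fixed-point-free involutions have a common alternating two-colouring. -/
theorem two_invol_fpf {X : Type*} [Finite X] (a b : X → X) (ha : Involutive a)
    (hb : Involutive b) (ha1 : ∀ x, a x ≠ x) (hb1 : ∀ x, b x ≠ x) :
    ∃ χ : X → Bool, (∀ x, χ (a x) = !(χ x)) ∧ ∀ x, χ (b x) = !(χ x) := by
  classical
  let A : Equiv.Perm X := ha.toPerm
  let B : Equiv.Perm X := hb.toPerm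
  have hA : ∀ x, A x = a x := fun _ => rfl
  have hB : ∀ x, B x = b x := fun _ => rfl
  have hAA : A * A = 1 := by ext x; exact ha x
  have hBB : B * B = 1 := by ext x; exact hb x
  have hAi : A⁻¹ = A := inv_eq_of_mul_eq_one_right hAA
  have hBi : B⁻¹ = B := inv_eq_of_mul_eq_one_right hBB
  let s : Equiv.Perm X := B * A
  have hconj : ∀ k : ℤ, A * s ^ k = s ^ (-k) * A := by
    intro k
    have h1 : A * s * A⁻¹ = s⁻¹ := by
      simp only [s, mul_inv_rev, hAi, hBi]
      rw [mul_assoc, mul_assoc, hAA, mul_one]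
    have h2 : A * s ^ k * A⁻¹ = (s ^ k)⁻¹ := by
      rw [← conj_zpow, h1, inv_zpow]
    rw [zpow_neg, ← h2, inv_mul_cancel_right]
  have key : ∀ x, ¬ Equiv.Perm.SameCycle s x (a x) := by
    rintro x ⟨n, hn⟩
    have hay : ∀ j : ℤ, a ((s ^ j) x) = (s ^ (n - j)) x := by
      intro j
      have h1 : (A * s ^ j) x = (s ^ (-j) * A) x := by rw [hconj]
      rw [Equiv.Perm.mul_apply, Equiv.Perm.mul_apply, hA, hA, ← hn, ← Equiv.Perm.mul_apply,
        ← zpow_add] at h1
      rw [h1]
      congr 2
      ring
    rcases Int.even_or_odd n with ⟨k, hk⟩ | ⟨k, hk⟩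
    · apply ha1 ((s ^ k) x)
      rw [hay k, hk]
      congr 2
      ring
    · apply hb1 ((s ^ (k + 1)) x)
      have h1 : b ((s ^ (k + 1)) x) = s (a ((s ^ (k + 1)) x)) := by
        show b _ = b (a (a _))
        rw [ha]
      rw [h1, hay, ← Equiv.Perm.mul_apply, ← zpow_one_add, hk]
      congr 2
      ring
  let S : Setoid X := Equiv.Perm.SameCycle.setoid s
  letI : LinearOrder (Quotient S) := IsWellOrder.linearOrder WellOrderingRel
  have hne : ∀ x, Quotient.mk S x ≠ Quotient.mk S (a x) := fun x he => key x (Quotient.exact he)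
  have hb2 : ∀ x, Quotient.mk S (b x) = Quotient.mk S (a x) := by
    intro x
    apply Quotient.sound
    show Equiv.Perm.SameCycle s (b x) (a x)
    refine Equiv.Perm.SameCycle.symm ⟨1, ?_⟩
    show b (a (a x)) = b x
    rw [ha]
  have hb3 : ∀ x, Quotient.mk S (a (b x)) = Quotient.mk S x := by
    intro x
    apply Quotient.sound
    show Equiv.Perm.SameCycle s (a (b x)) x
    refine ⟨1, ?_⟩
    show b (a (a (b x))) = x
    rw [ha, hb]
  have hflip : ∀ x, (Quotient.mk S (a x) < Quotient.mk S x) ↔
      ¬ (Quotient.mk S x < Quotient.mk S (a x)) := by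
    intro x
    constructor
    · exact fun h1 h2 => lt_asymm h1 h2
    · exact fun h1 => lt_of_le_of_ne (not_lt.mp h1) (hne x).symm
  refine ⟨fun x => decide (Quotient.mk S x < Quotient.mk S (a x)), ?_, ?_⟩
  · intro x
    simp only [ha x]
    rw [← decide_not]
    exact decide_eq_decide.mpr (hflip x)
  · intro x
    simp only [hb2, hb3]
    rw [← decide_not]
    exact decide_eq_decide.mpr (hflip x)

/-- The same with `b` allowed to have fixed points. -/
theorem two_invol {X : Type*} [Finite X] (a b : X → X) (ha : Involutive a)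
    (hb : Involutive b) (ha1 : ∀ x, a x ≠ x) :
    ∃ χ : X → Bool, (∀ x, χ (a x) = !(χ x)) ∧ ∀ x, b x ≠ x → χ (b x) = !(χ x) := by
  classical
  let a' : X × Bool → X × Bool := fun y => (a y.1, y.2)
  let b' : X × Bool → X × Bool := fun y => if b y.1 = y.1 then (y.1, !y.2) else (b y.1, y.2)
  obtain ⟨χ, h1, h2⟩ := two_invol_fpf a' b'
    (by rintro ⟨x, i⟩; simp [a', ha x])
    (by
      rintro ⟨x, i⟩
      by_cases hx : b x = x
      · simp [b', hx]
      · have hx' : ¬ x = b x := fun h => hx h.symm
        simp only [b', hx, if_false]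
        rw [hb x, if_neg hx'])
    (by rintro ⟨x, i⟩ h; exact ha1 x (Prod.mk.inj h).1)
    (by
      rintro ⟨x, i⟩ h
      by_cases hx : b x = x
      · simp only [b', hx, if_true, Prod.mk.injEq, true_and] at h
        cases i <;> simp at h
      · simp only [b', hx, if_false, Prod.mk.injEq] at h
        exact h.1)
  refine ⟨fun x => χ (x, false), fun x => h1 (x, false), fun x hx => ?_⟩
  have := h2 (x, false)
  simp only [b', hx, if_false] at this
  exact this

end GY64
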