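import Mathlib

set_option autoImplicit false

/-!
# Parity colourings of functional graphs
-/

namespace GY64

open Function

section Par

variable {V : Type*} [Finite V]

/-- every point of a finite set eventually reaches a periodic point -/
theorem exists_iterate_periodic (φ : V → V) (x : V) :
    ∃ n, φ^[n] x ∈ periodicPts φ := by
  obtain ⟨m, n, hmn, h⟩ := Finite.exists_ne_map_eq_of_infinite (fun n : ℕ => φ^[n] x)
  have key : ∀ m n : ℕ, m < n → φ^[m] x = φ^[n] x → ∃ k, φ^[k] x ∈ periodicPts φ := by
    intro m n hlt h
    refine ⟨m, ?_⟩
    refine mem_periodicPts.mpr ⟨n - m, by omega, ?_⟩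
    show φ^[n - m] (φ^[m] x) = φ^[m] x
    rw [← iterate_add_apply, Nat.sub_add_cancel hlt.le]
    exact h.symm
  rcases lt_or_gt_of_ne hmn with hlt | hlt
  · exact key m n hlt h
  · exact key n m hlt h.symm

/-- the set of periodic points reached from `x` -/
def reachPer (φ : V → V) (x : V) : Set V :=
  {w | w ∈ periodicPts φ ∧ ∃ n, φ^[n] x = w}

theorem reachPer_apply (φ : V → V) (x : V) : reachPer φ (φ x) = reachPer φ x := by
  ext w
  constructor
  · rintro ⟨hw, n, hn⟩
    exact ⟨hw, n + 1, by rw [iterate_succ_apply]; exact hn⟩
  · rintro ⟨hw, n, hn⟩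
    refine ⟨hw, ?_⟩
    obtain ⟨m, hm, hper⟩ := mem_periodicPts.mp hw
    refine ⟨n + m - 1, ?_⟩
    have h1 : φ^[n + m] x = w := by
      rw [add_comm, iterate_add_apply, hn]
      exact hper
    have h2 : n + m = (n + m - 1) + 1 := by omega
    rw [h2, iterate_succ_apply] at h1
    exact h1

theorem reachPer_nonempty (φ : V → V) (x : V) : (reachPer φ x).Nonempty := by
  obtain ⟨n, hn⟩ := exists_iterate_periodic φ x
  exact ⟨_, hn, n, rfl⟩

/-- **Parity lemma.**  If every non-fixed periodic point of `φ` has even period, there is a
two-colouring changing along `φ` outside the fixed points, with prescribed values at the fixed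
points. -/
theorem parity (φ : V → V) (h : V → Bool)
    (hev : ∀ x, x ∈ periodicPts φ → φ x ≠ x → Even (minimalPeriod φ x)) :
    ∃ g : V → Bool, (∀ x, φ x ≠ x → g (φ x) = !(g x)) ∧ ∀ x, φ x = x → g x = h x := by
  classical
  let b : V → V := fun x => Classical.epsilon (h := ⟨x⟩) (fun w => w ∈ reachPer φ x)
  have hb : ∀ x, b x ∈ reachPer φ x := fun x => by
    obtain ⟨w, hw⟩ := reachPer_nonempty φ x
    exact Classical.epsilon_spec (p := fun w => w ∈ reachPer φ x) ⟨w, hw⟩
  have hbφ : ∀ x, b (φ x) = b x := by
    intro x
    simp only [b, reachPer_apply]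
  have hex : ∀ x, ∃ n, φ^[n] x = b x := fun x => (hb x).2
  let k : V → ℕ := fun x => Nat.find (hex x)
  have hk : ∀ x, φ^[k x] x = b x := fun x => Nat.find_spec (hex x)
  refine ⟨fun x => xor (decide (Odd (k x))) (h (b x)), ?_, ?_⟩
  · intro x hx
    have hpar : Odd (k (φ x)) ↔ ¬ Odd (k x) := by
      rcases Nat.eq_zero_or_pos (k x) with h0 | hpos
      · -- `x` is its own base
        have hbx : b x = x := by
          have := hk x
          rw [h0] at this
          exact this.symm
        have hper : x ∈ periodicPts φ := by
          have := (hb x).1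
          rwa [hbx] at this
        have h1 : φ^[k (φ x) + 1] x = x := by
          rw [iterate_succ_apply, hk (φ x), hbφ, hbx]
        have h2 : minimalPeriod φ x ∣ k (φ x) + 1 :=
          IsPeriodicPt.minimalPeriod_dvd h1
        have h3 : Even (k (φ x) + 1) := (hev x hper hx).trans_dvd h2
        rw [h0]
        have : Odd (k (φ x)) := by
          rcases Nat.even_or_odd (k (φ x)) with he | ho
          · exact absurd h3 (by rw [Nat.not_even_iff_odd]; exact he.add_one)
          · exact ho
        simp [this]
      · have h1 : k (φ x) = k x - 1 := by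
          apply le_antisymm
          · apply Nat.find_min'
            rw [hbφ, ← hk x]
            conv_rhs => rw [← Nat.sub_add_cancel hpos]
            rw [iterate_succ_apply]
          · have h2 : k x ≤ k (φ x) + 1 := by
              apply Nat.find_min'
              rw [iterate_succ_apply, hk (φ x), hbφ]
            omega
        rw [h1]
        rcases Nat.even_or_odd (k x) with he | ho
        · have : Odd (k x - 1) := by
            obtain ⟨r, hr⟩ := he
            exact ⟨r - 1, by omega⟩
          simp [this, he]
        · have : Even (k x - 1) := by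
            obtain ⟨r, hr⟩ := ho
            exact ⟨r, by omega⟩
          simp [this, ho]
    simp only [hbφ]
    by_cases ho : Odd (k x)
    · have h1 : ¬ Odd (k (φ x)) := by rw [hpar]; simpa using ho
      simp only [ho, h1, decide_true, decide_false]
      cases h (b x) <;> rfl
    · have h1 : Odd (k (φ x)) := hpar.mpr ho
      simp only [ho, h1, decide_true, decide_false]
      cases h (b x) <;> rfl
  · intro x hx
    have hfix : ∀ n, φ^[n] x = x := fun n => iterate_fixed hx n
    have hbx : b x = x := by rw [← hk x]; exact hfix _
    have hk0 : k x = 0 := by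
      have : k x ≤ 0 := by
        apply Nat.find_min'
        rw [hbx]; rfl
      omega
    simp [hk0, hbx]

end Par

end GY64
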